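import Mathlib

open Set Filter Topology

namespace Pool.Agent.Helper639.Tk

/-- An infinite set of branches of the binary tree gives an infinite sequence of pairwise
incomparable nodes on branches of the set. -/
theorem exists_antichain (S : Set (ℕ → Bool)) (hS : S.Infinite) :
    ∃ (x : ℕ → ℕ → Bool) (k : ℕ → ℕ), (∀ j, x j ∈ S) ∧
      ∀ i j, i ≠ j → ¬ (PiNat.res (x i) (k i) <:+ PiNat.res (x j) (k j)) := by
  obtain ⟨y, hy⟩ := hS.exists_accPt_principal
  rw [accPt_iff_nhds] at hy
  have h1 : ∀ n : ℕ, ∃ x ∈ S, x ≠ y ∧ ∀ i < n, x i = y i := by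
    intro n
    obtain ⟨x, ⟨hx1, hx2⟩, hx3⟩ := hy (PiNat.cylinder (E := fun _ => Bool) y n)
      ((PiNat.isOpen_cylinder (fun _ => Bool) y n).mem_nhds (PiNat.self_mem_cylinder y n))
    exact ⟨x, hx2, hx3, PiNat.mem_cylinder_iff.1 hx1⟩
  choose X hXS hXne hXag using h1
  have h2 : ∀ n, ∃ d, n ≤ d ∧ X n d ≠ y d ∧ ∀ i < d, X n i = y i := by
    intro n
    have hex : ∃ d, X n d ≠ y d := by
      by_contra hcon
      push Not at hcon
      exact hXne n (funext hcon)
    classical
    refine ⟨Nat.find hex, ?_, Nat.find_spec hex, ?_⟩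
    · by_contra hlt
      exact Nat.find_spec hex (hXag n _ (not_le.1 hlt))
    · intro i hi
      have := Nat.find_min hex hi
      push Not at this
      exact this
  choose D hD1 hD2 hD3 using h2
  let N : ℕ → ℕ := fun j => Nat.rec 0 (fun _ m => D m + 1) j
  have hN : ∀ j, N (j + 1) = D (N j) + 1 := fun j => rfl
  have hlt : ∀ i j, i < j → D (N i) < D (N j) := by
    have hmono : StrictMono fun j => D (N j) := by
      apply strictMono_nat_of_lt_succ
      intro j
      have := hD1 (N (j + 1))
      rw [hN] at this ⊢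
      omega
    exact fun i j h => hmono h
  have hres : ∀ (x : ℕ → Bool) (m n : ℕ), m ≤ n → PiNat.res x m <:+ PiNat.res x n := by
    intro x m n hmn
    induction n, hmn using Nat.le_induction with
    | base => exact List.suffix_rfl
    | succ n _ ih =>
      rw [PiNat.res_succ]
      exact ih.trans (List.suffix_cons _ _)
  refine ⟨fun j => X (N j), fun j => D (N j) + 1, fun j => hXS _, ?_⟩
  intro i j hij hsuf
  rcases lt_or_gt_of_ne hij with h | h
  · have hle : D (N i) + 1 ≤ D (N j) + 1 := by have := hlt i j h; omega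
    have hs2 := hres (X (N j)) _ _ hle
    have hs3 : PiNat.res (X (N i)) (D (N i) + 1) <:+ PiNat.res (X (N j)) (D (N i) + 1) :=
      List.suffix_of_suffix_length_le hsuf hs2 (by simp)
    have heq : PiNat.res (X (N i)) (D (N i) + 1) = PiNat.res (X (N j)) (D (N i) + 1) :=
      hs3.eq_of_length (by simp)
    rw [PiNat.res_eq_res] at heq
    have h3 := heq (m := D (N i)) (Nat.lt_succ_self _)
    have h4 := hD3 (N j) (D (N i)) (hlt i j h)
    exact hD2 (N i) (h3.trans h4)
  · have hl := hsuf.length_le
    simp only [PiNat.res_length] at hl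
    have := hlt j i h
    omega

end Pool.Agent.Helper639.Tk
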