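import Mathlib

open Set Filter Topology

namespace Pool.Agent.Helper639.Tk

/-- the conclusion of the lemma for the union of the families `{B | A ∪ B ∈ F, A ∩ B = ∅}`,
`A ∈ 𝒜`. -/
def Pt (F : Finset ℕ → Prop) (𝒜 : Finset (Finset ℕ)) : Prop :=
  ∀ (ε : ℝ), 0 < ε → ∀ N : ℕ, ∃ (J : Finset ℕ) (c : ℕ → ℝ), (∀ j ∈ J, N ≤ j) ∧ (∀ j, 0 ≤ c j) ∧
    (∀ j, j ∉ J → c j = 0) ∧ ∑ j ∈ J, c j = 1 ∧
      ∀ B : Finset ℕ, (∃ A ∈ 𝒜, Disjoint A B ∧ F (A ∪ B)) → ∑ j ∈ B, c j ≤ ε

theorem sum_inter (c : ℕ → ℝ) (J B : Finset ℕ) (hc : ∀ j, j ∉ J → c j = 0) :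
    ∑ j ∈ B, c j = ∑ j ∈ B ∩ J, c j := by
  symm
  apply Finset.sum_subset Finset.inter_subset_left
  intro x hx hx'
  apply hc
  intro hJ
  exact hx' (Finset.mem_inter.2 ⟨hx, hJ⟩)

theorem pt_chain (F : Finset ℕ → Prop) (hmono : ∀ A B : Finset ℕ, A ⊆ B → F B → F A)
    (𝒜 : Finset (Finset ℕ))
    (IH : ∀ 𝒜' : Finset (Finset ℕ), (∀ A' ∈ 𝒜', ∃ A ∈ 𝒜, A ⊂ A' ∧ F A') → Pt F 𝒜')
    (ε : ℝ) (hε : 0 < ε) (N k : ℕ) :
    ∃ (J : Finset ℕ) (c : ℕ → ℝ), (∀ j ∈ J, N ≤ j) ∧ (∀ j, 0 ≤ c j) ∧
    (∀ j, j ∉ J → c j = 0) ∧ ∑ j ∈ J, c j = k ∧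
      ∀ B : Finset ℕ, (∃ A ∈ 𝒜, Disjoint A B ∧ F (A ∪ B)) → ∑ j ∈ B, c j ≤ 1 + k * ε := by
  classical
  induction k with
  | zero =>
    refine ⟨∅, fun _ => 0, by simp, by simp, by simp, by simp, fun B _ => ?_⟩
    simp
  | succ k ih =>
    obtain ⟨J, c, h1, h2, h3, h4, h5⟩ := ih
    obtain ⟨J', c', g1, g2, g3, g4, g5⟩ := IH
      (((𝒜 ×ˢ J).image (fun q => insert q.2 q.1)).filter (fun A' => ∃ A ∈ 𝒜, A ⊂ A' ∧ F A'))
      (fun A' hA' => (Finset.mem_filter.1 hA').2) ε hε (max N (J.sup id + 1))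
    have hdisj : ∀ j, j ∈ J → j ∉ J' := by
      intro j hj hj'
      have e1 := g1 j hj'
      have e2 : j ≤ J.sup id := Finset.le_sup (f := id) hj
      have e3 := le_max_right N (J.sup id + 1)
      omega
    refine ⟨J ∪ J', fun j => c j + c' j, ?_, ?_, ?_, ?_, ?_⟩
    · intro j hj
      rcases Finset.mem_union.1 hj with h | h
      · exact h1 j h
      · exact (le_max_left _ _).trans (g1 j h)
    · intro j
      exact add_nonneg (h2 j) (g2 j)
    · intro j hj
      rw [Finset.mem_union, not_or] at hj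
      show c j + c' j = 0
      rw [h3 j hj.1, g3 j hj.2, add_zero]
    · rw [Finset.sum_add_distrib, sum_inter c J _ h3, sum_inter c' J' _ g3,
        Finset.inter_eq_right.2 Finset.subset_union_left,
        Finset.inter_eq_right.2 Finset.subset_union_right, h4, g4]
      push_cast
      ring
    · rintro B ⟨A, hA, hAB, hF⟩
      rw [Finset.sum_add_distrib]
      have hc'1 : ∑ j ∈ B, c' j ≤ 1 := by
        rw [sum_inter c' J' _ g3, ← g4]
        exact Finset.sum_le_sum_of_subset_of_nonneg Finset.inter_subset_right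
          (fun i _ _ => g2 i)
      by_cases hBJ : ∃ n, n ∈ B ∧ n ∈ J
      · obtain ⟨n, hnB, hnJ⟩ := hBJ
        have hnA : n ∉ A := fun h => Finset.disjoint_left.1 hAB h hnB
        have hFn : F (insert n A) := by
          apply hmono _ _ _ hF
          intro y hy
          rcases Finset.mem_insert.1 hy with h | h
          · rw [h]; exact Finset.mem_union_right _ hnB
          · exact Finset.mem_union_left _ h
        have e1 : ∑ j ∈ B, c' j ≤ ε := by
          rw [sum_inter c' J' _ g3]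
          apply g5
          refine ⟨insert n A, ?_, ?_, ?_⟩
          · rw [Finset.mem_filter]
            refine ⟨Finset.mem_image.2 ⟨(A, n), Finset.mem_product.2 ⟨hA, hnJ⟩, rfl⟩,
              A, hA, Finset.ssubset_insert hnA, hFn⟩
          · rw [Finset.disjoint_left]
            intro y hy hy'
            rw [Finset.mem_inter] at hy'
            rcases Finset.mem_insert.1 hy with h | h
            · rw [h] at hy'
              exact hdisj n hnJ hy'.2
            · exact Finset.disjoint_left.1 hAB h hy'.1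
          · apply hmono _ _ _ hF
            intro y hy
            rcases Finset.mem_union.1 hy with h | h
            · rcases Finset.mem_insert.1 h with h' | h'
              · rw [h']; exact Finset.mem_union_right _ hnB
              · exact Finset.mem_union_left _ h'
            · exact Finset.mem_union_right _ (Finset.mem_inter.1 h).1
        have e2 := h5 B ⟨A, hA, hAB, hF⟩
        push_cast
        linarith
      · have e1 : ∑ j ∈ B, c j = 0 := by
          apply Finset.sum_eq_zero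
          intro j hj
          apply h3
          intro hjJ
          exact hBJ ⟨j, hj, hjJ⟩
        rw [e1]
        have : 0 ≤ ((k + 1 : ℕ) : ℝ) * ε := by positivity
        linarith

theorem pt_step (F : Finset ℕ → Prop) (hmono : ∀ A B : Finset ℕ, A ⊆ B → F B → F A)
    (𝒜 : Finset (Finset ℕ))
    (IH : ∀ 𝒜' : Finset (Finset ℕ), (∀ A' ∈ 𝒜', ∃ A ∈ 𝒜, A ⊂ A' ∧ F A') → Pt F 𝒜') :
    Pt F 𝒜 := by
  intro ε hε N
  obtain ⟨n, hn⟩ := exists_nat_one_div_lt (show 0 < ε / 2 by positivity)
  obtain ⟨J, c, h1, h2, h3, h4, h5⟩ := pt_chain F hmono 𝒜 IH (ε / 2) (by positivity) N (n + 1)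
  have hk : (0 : ℝ) < ((n + 1 : ℕ) : ℝ) := by positivity
  refine ⟨J, fun j => c j / ((n + 1 : ℕ) : ℝ), h1, fun j => div_nonneg (h2 j) hk.le, ?_, ?_, ?_⟩
  · intro j hj
    simp only [h3 j hj, zero_div]
  · rw [← Finset.sum_div, h4, div_self hk.ne']
  · intro B hB
    rw [← Finset.sum_div, div_le_iff₀ hk]
    refine (h5 B hB).trans ?_
    rw [div_lt_iff₀ (by positivity)] at hn
    push_cast
    linarith


/-- Ptak's combinatorial lemma: a compact hereditary family of finite sets admits convex means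
which are small on all members of the family. -/
theorem ptak (F : Finset ℕ → Prop) (hmono : ∀ A B : Finset ℕ, A ⊆ B → F B → F A)
    (hfin : ∀ S : Set ℕ, (∀ A : Finset ℕ, (A : Set ℕ) ⊆ S → F A) → S.Finite)
    (ε : ℝ) (hε : 0 < ε) (N : ℕ) :
    ∃ (J : Finset ℕ) (c : ℕ → ℝ), (∀ j ∈ J, N ≤ j) ∧ (∀ j, 0 ≤ c j) ∧ (∀ j, j ∉ J → c j = 0) ∧
      ∑ j ∈ J, c j = 1 ∧ ∀ A : Finset ℕ, F A → ∑ j ∈ A, c j ≤ ε := by
  classical
  let R : Finset ℕ → Finset ℕ → Prop := fun B A => A ⊂ B ∧ F B
  have hwf : WellFounded R := by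
    rw [wellFounded_iff_isEmpty_descending_chain]
    refine ⟨fun ⟨f, hf⟩ => ?_⟩
    have hmon : Monotone f := monotone_nat_of_le_succ (fun n => (hf n).1.subset)
    have hfinS := hfin (⋃ n, (f n : Set ℕ)) (by
      intro A hA
      have hex : ∃ n, A ⊆ f n := by
        induction A using Finset.induction_on with
        | empty => exact ⟨0, Finset.empty_subset _⟩
        | insert a A _ ih =>
          rw [Finset.coe_insert, Set.insert_subset_iff] at hA
          obtain ⟨n, hn⟩ := ih hA.2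
          obtain ⟨m, hm⟩ := Set.mem_iUnion.1 hA.1
          refine ⟨max n m, ?_⟩
          rw [Finset.insert_subset_iff]
          exact ⟨hmon (le_max_right n m) hm, hn.trans (hmon (le_max_left n m))⟩
      obtain ⟨n, hn⟩ := hex
      exact hmono _ _ (hn.trans (hf n).1.subset) (hf n).2)
    have hcard : ∀ n, n ≤ (f n).card := by
      intro n
      induction n with
      | zero => exact Nat.zero_le _
      | succ n ih => exact Nat.succ_le_of_lt (ih.trans_lt (Finset.card_lt_card (hf n).1))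
    have h1 : f (hfinS.toFinset.card + 1) ⊆ hfinS.toFinset := by
      intro y hy
      rw [Set.Finite.mem_toFinset]
      exact Set.mem_iUnion.2 ⟨_, hy⟩
    have h2 := Finset.card_le_card h1
    have h3 := hcard (hfinS.toFinset.card + 1)
    omega
  haveI hwf' : IsWellFounded (Finset ℕ) R := ⟨hwf⟩
  have main : ∀ α : Ordinal.{0}, ∀ 𝒜 : Finset (Finset ℕ), (∀ A ∈ 𝒜, IsWellFounded.rank R A < α) → Pt F 𝒜 := by
    intro α
    induction α using WellFoundedLT.induction with
    | ind α ih =>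
      intro 𝒜 h𝒜
      apply pt_step F hmono
      intro 𝒜' h𝒜'
      rcases 𝒜.eq_empty_or_nonempty with h | h
      · have h' : 𝒜' = ∅ := by
          apply Finset.eq_empty_of_forall_notMem
          intro A' hA'
          obtain ⟨A, hA, -⟩ := h𝒜' A' hA'
          rw [h] at hA
          exact absurd hA (Finset.notMem_empty _)
        rw [h']
        intro ε hε N
        refine ⟨{N}, fun j => if j = N then 1 else 0, ?_, ?_, ?_, ?_, ?_⟩
        · intro j hj
          rw [Finset.mem_singleton.1 hj]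
        · intro j
          dsimp only
          split_ifs <;> norm_num
        · intro j hj
          rw [Finset.mem_singleton] at hj
          simp [hj]
        · simp
        · rintro B ⟨A, hA, -⟩
          exact absurd hA (Finset.notMem_empty _)
      · obtain ⟨A₀, hA₀, hmax⟩ := Finset.exists_max_image 𝒜 (IsWellFounded.rank R) h
        apply ih (IsWellFounded.rank R A₀) (h𝒜 A₀ hA₀)
        intro A' hA'
        obtain ⟨A, hA, hAA'⟩ := h𝒜' A' hA'
        exact (IsWellFounded.rank_lt_of_rel (show R A' A from hAA')).trans_le (hmax A hA)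
  obtain ⟨J, c, h1, h2, h3, h4, h5⟩ := main (Order.succ (IsWellFounded.rank R (∅ : Finset ℕ))) {∅} (by
    intro A hA
    rw [Finset.mem_singleton.1 hA]
    exact Order.lt_succ _) ε hε N
  refine ⟨J, c, h1, h2, h3, h4, fun A hA => h5 A ⟨∅, Finset.mem_singleton_self _, ?_, ?_⟩⟩
  · exact Finset.disjoint_empty_left A
  · rwa [Finset.empty_union]

end Pool.Agent.Helper639.Tk
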