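import Pool.Agent.Helper639.Tk.Basic
import Pool.Agent.Helper639.Tk.Ptak

set_option linter.all false

open Set Filter Topology

namespace Pool.Agent.Helper639.Tk

variable {φ : (ℕ → ℕ) → (ℕ → Bool)}

/-- the good finite sets of indices along the branch `x` -/
def GK (φ : (ℕ → ℕ) → (ℕ → Bool)) (p q : ℕ → ℕ) (x : ℕ → Bool) (G : Finset ℕ) : Prop :=
  (∀ j ∈ G, G.card ≤ q j + 1) ∨ ∃ y : ℕ → ℕ,
    (∀ j ∈ G, (∃ j2 ∈ G, j < j2) → Ext (PiNat.res x (p j)) (φ y)) ∧
    ∀ j ∈ G, ∀ i < (G.filter (fun j' => j' < j)).card, y i ≤ q j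

theorem GK.mono {p q : ℕ → ℕ} {x : ℕ → Bool} {A G : Finset ℕ} (hAG : A ⊆ G) (h : GK φ p q x G) :
    GK φ p q x A := by
  rcases h with h | ⟨y, h1, h2⟩
  · left
    intro j hj
    exact (Finset.card_le_card hAG).trans (h j (hAG hj))
  · right
    refine ⟨y, ?_, ?_⟩
    · rintro j hj ⟨j2, hj2, hlt⟩
      exact h1 j (hAG hj) ⟨j2, hAG hj2, hlt⟩
    · intro j hj i hi
      refine h2 j (hAG hj) i (lt_of_lt_of_le hi ?_)
      exact Finset.card_le_card (Finset.filter_subset_filter _ hAG)

theorem pmono {p q : ℕ → ℕ} (hpq : ∀ j, p j ≤ q j ∧ q j < p (j + 1)) : StrictMono p :=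
  strictMono_nat_of_lt_succ fun j => (hpq j).1.trans_lt (hpq j).2

theorem q_lt_p {p q : ℕ → ℕ} (hpq : ∀ j, p j ≤ q j ∧ q j < p (j + 1)) {j j' : ℕ} (h : j < j') :
    q j < p j' :=
  (hpq j).2.trans_le ((pmono hpq).monotone h)

theorem ext_agree {x z : ℕ → Bool} {m : ℕ} (h : Ext (PiNat.res x m) z) {n : ℕ} (hn : n < m) :
    z n = x n := by
  unfold Ext at h
  rw [PiNat.res_length] at h
  exact PiNat.res_eq_res.1 h hn

theorem GK_fin (hφ : Continuous φ) {p q : ℕ → ℕ} (hpq : ∀ j, p j ≤ q j ∧ q j < p (j + 1))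
    {x : ℕ → Bool} (hx : x ∉ Set.range φ) (S : Set ℕ)
    (h : ∀ A : Finset ℕ, (A : Set ℕ) ⊆ S → GK φ p q x A) : S.Finite := by
  classical
  by_contra hS
  have hS' : (setOf (· ∈ S)).Infinite := hS
  set e : ℕ → ℕ := Nat.nth (· ∈ S) with he
  have hemono : StrictMono e := Nat.nth_strictMono hS'
  have hemem : ∀ n, e n ∈ S := fun n => Nat.nth_mem_of_infinite hS' n
  let A : ℕ → Finset ℕ := fun r => (Finset.range r).image e
  have hAcard : ∀ r, (A r).card = r := by
    intro r
    simp only [A]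
    rw [Finset.card_image_of_injective _ hemono.injective, Finset.card_range]
  have hAS : ∀ r, ((A r : Finset ℕ) : Set ℕ) ⊆ S := by
    intro r z hz
    simp only [A, Finset.coe_image, Set.mem_image] at hz
    obtain ⟨n, -, rfl⟩ := hz
    exact hemem n
  have hAf : ∀ r i, i < r → ((A r).filter (fun j' => j' < e i)).card = i := by
    intro r i hir
    have : (A r).filter (fun j' => j' < e i) = (Finset.range i).image e := by
      ext z
      simp only [A, Finset.mem_filter, Finset.mem_image, Finset.mem_range]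
      constructor
      · rintro ⟨⟨n, hn, rfl⟩, h2⟩
        exact ⟨n, hemono.lt_iff_lt.1 h2, rfl⟩
      · rintro ⟨n, hn, rfl⟩
        exact ⟨⟨n, hn.trans hir, rfl⟩, hemono hn⟩
    rw [this, Finset.card_image_of_injective _ hemono.injective, Finset.card_range]
  have hex : ∀ r, ∃ y : ℕ → ℕ, q (e 0) + 2 ≤ r →
      (∀ i, i + 1 < r → ∀ n < p (e i), φ y n = x n) ∧ ∀ i < r, ∀ l < i, y l ≤ q (e i) := by
    intro r
    by_cases hr : q (e 0) + 2 ≤ r
    · rcases h (A r) (hAS r) with h1 | ⟨y, h1, h2⟩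
      · have h3 := h1 (e 0) (Finset.mem_image.2 ⟨0, Finset.mem_range.2 (by omega), rfl⟩)
        rw [hAcard] at h3
        omega
      · refine ⟨y, fun _ => ⟨?_, ?_⟩⟩
        · intro i hi n hn
          have h3 := h1 (e i) (Finset.mem_image.2 ⟨i, Finset.mem_range.2 (by omega), rfl⟩)
            ⟨e (i + 1), Finset.mem_image.2 ⟨i + 1, Finset.mem_range.2 hi, rfl⟩,
              hemono (Nat.lt_succ_self i)⟩
          exact ext_agree h3 hn
        · intro i hi l hl
          refine h2 (e i) (Finset.mem_image.2 ⟨i, Finset.mem_range.2 hi, rfl⟩) l ?_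
          rw [hAf r i hi]
          exact hl
    · exact ⟨fun _ => 0, fun h => absurd h hr⟩
  choose y hy using hex
  have hU : ((hyperfilter ℕ : Ultrafilter ℕ) : Filter ℕ) ≤ atTop := Nat.hyperfilter_le_atTop
  have hlim : ∀ l, ∃ v : ℕ, Tendsto (fun r => y r l) (hyperfilter ℕ : Filter ℕ) (𝓝 v) := by
    intro l
    have hev : ∀ᶠ r in (hyperfilter ℕ : Filter ℕ), y r l ∈ Set.Iic (q (e (l + 1))) := by
      apply hU
      filter_upwards [eventually_ge_atTop (max (q (e 0) + 2) (l + 2))] with r hr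
      have h1 : q (e 0) + 2 ≤ r := (le_max_left _ _).trans hr
      have h2 : l + 2 ≤ r := (le_max_right _ _).trans hr
      exact (hy r h1).2 (l + 1) (by omega) l (by omega)
    obtain ⟨v, -, hv⟩ := (Set.finite_Iic (q (e (l + 1)))).isCompact.ultrafilter_le_nhds
      (Ultrafilter.map (fun r => y r l) (hyperfilter ℕ)) (by
        rw [le_principal_iff]
        exact hev)
    exact ⟨v, hv⟩
  choose v hv using hlim
  have hyv : Tendsto y (hyperfilter ℕ : Filter ℕ) (𝓝 v) := tendsto_pi_nhds.2 hv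
  have hφv : Tendsto (fun r => φ (y r)) (hyperfilter ℕ : Filter ℕ) (𝓝 (φ v)) :=
    (hφ.tendsto v).comp hyv
  apply hx
  refine ⟨v, ?_⟩
  funext n
  have h1 := tendsto_pi_nhds.1 hφv n
  have h2 : ∀ᶠ r in (hyperfilter ℕ : Filter ℕ), φ (y r) n = x n := by
    apply hU
    filter_upwards [eventually_ge_atTop (max (q (e 0) + 2) (n + 3))] with r hr
    have h1 : q (e 0) + 2 ≤ r := (le_max_left _ _).trans hr
    have h2 : n + 3 ≤ r := (le_max_right _ _).trans hr
    refine (hy r h1).1 (n + 1) (by omega) n ?_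
    have h3 : n + 1 ≤ e (n + 1) := hemono.le_apply
    have h4 : e (n + 1) ≤ p (e (n + 1)) := (pmono hpq).le_apply
    omega
  have h3 : Tendsto (fun r => φ (y r) n) (hyperfilter ℕ : Filter ℕ) (𝓝 (x n)) :=
    tendsto_const_nhds.congr' (h2.mono fun r hr => hr.symm)
  exact tendsto_nhds_unique h1 h3

theorem F_fin (hφ : Continuous φ) {p q : ℕ → ℕ} (hpq : ∀ j, p j ≤ q j ∧ q j < p (j + 1))
    (D : Finset (ℕ → Bool)) (hD : ∀ x ∈ D, x ∉ Set.range φ) (S : Set ℕ)
    (h : ∀ A : Finset ℕ, (A : Set ℕ) ⊆ S → ∃ x ∈ D, GK φ p q x A) : S.Finite := by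
  classical
  have hx : ∃ x ∈ D, ∀ A : Finset ℕ, (A : Set ℕ) ⊆ S → GK φ p q x A := by
    by_contra hcon
    push Not at hcon
    choose! A hA1 hA2 using hcon
    obtain ⟨x0, hx0, h0⟩ := h (D.biUnion A) (by
      intro z hz
      rw [Finset.mem_coe, Finset.mem_biUnion] at hz
      obtain ⟨x, hx, hz⟩ := hz
      exact hA1 x hx hz)
    exact hA2 x0 hx0 (h0.mono (Finset.subset_biUnion_of_mem A hx0))
  obtain ⟨x, hxD, hx⟩ := hx
  exact GK_fin hφ hpq (hD x hxD) S hx

theorem res_suffix (x : ℕ → Bool) {a b : ℕ} (h : a ≤ b) : PiNat.res x a <:+ PiNat.res x b := by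
  induction b, h using Nat.le_induction with
  | base => exact List.suffix_rfl
  | succ b _ ih => 
    rw [PiNat.res_succ]
    exact ih.trans (List.suffix_cons _ _)

theorem GK_of_adm {E : ℕ → Set T} (hE : Adm φ E) {x : ℕ → Bool} {G : Finset ℕ} {i : ℕ → ℕ}
    {s : ℕ → T} {p q : ℕ → ℕ} (h1 : ∀ j ∈ G, s j ∈ E (i j))
    (h2 : ∀ j ∈ G, p j ≤ (s j).length ∧ (s j).length ≤ q j) (h3 : ∀ j ∈ G, Ext (s j) x)
    (h4 : ∀ j ∈ G, ∀ j' ∈ G, j < j' → i j < i j')
    (h5 : ∀ j ∈ G, ∀ j' ∈ G, j < j' → (s j).length < (s j').length) : GK φ p q x G := by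
  classical
  have hinj : Set.InjOn s (G : Set ℕ) := by
    intro a ha b hb hab
    rcases lt_trichotomy a b with h | h | h
    · have := h5 a ha b hb h
      rw [hab] at this
      exact absurd this (lt_irrefl _)
    · exact h
    · have := h5 b hb a ha h
      rw [hab] at this
      exact absurd this (lt_irrefl _)
  have hlt : ∀ a ∈ G, ∀ b ∈ G, ((s a).length < (s b).length ↔ a < b) := by
    intro a ha b hb
    refine ⟨fun h => ?_, fun h => h5 a ha b hb h⟩
    rcases lt_trichotomy a b with h' | h' | h'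
    · exact h'
    · rw [h'] at h; exact absurd h (lt_irrefl _)
    · exact absurd (h5 b hb a ha h') (not_lt.2 h.le)
  have hok := hE.2 (G.image s) (by
      intro a ha b hb hab
      obtain ⟨j, hj, rfl⟩ := Finset.mem_image.1 ha
      obtain ⟨j', hj', rfl⟩ := Finset.mem_image.1 hb
      have e1 := h3 j hj
      have e2 := h3 j' hj'
      unfold Ext at e1 e2
      rw [← e1, ← e2]
      exact res_suffix x hab) (by
      intro a ha
      obtain ⟨j, hj, rfl⟩ := Finset.mem_image.1 ha
      exact ⟨i j, h1 j hj⟩) (by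
      intro k a ha b hb hak hbk
      obtain ⟨j, hj, rfl⟩ := Finset.mem_image.1 ha
      obtain ⟨j', hj', rfl⟩ := Finset.mem_image.1 hb
      have e1 := hE.disj hak (h1 j hj)
      have e2 := hE.disj hbk (h1 j' hj')
      rcases lt_trichotomy j j' with h | h | h
      · have := h4 j hj j' hj' h
        omega
      · rw [h]
      · have := h4 j' hj' j hj h
        omega)
  rcases hok with h | ⟨y, hy1, hy2⟩
  · left
    intro j hj
    have h6 := h (s j) (Finset.mem_image_of_mem s hj)
    rw [Finset.card_image_of_injOn hinj] at h6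
    have := (h2 j hj).2
    omega
  · right
    refine ⟨y, ?_, ?_⟩
    · rintro j hj ⟨j2, hj2, hlt2⟩
      have h6 := hy1 (s j) (Finset.mem_image_of_mem s hj)
        ⟨s j2, Finset.mem_image_of_mem s hj2, h5 j hj j2 hj2 hlt2⟩
      have h7 := h3 j hj
      unfold Ext at h6 h7 ⊢
      rw [PiNat.res_length]
      rw [PiNat.res_eq_res]
      intro n hn
      have h8 : PiNat.res (φ y) (s j).length = PiNat.res x (s j).length := by rw [h6, h7]
      exact PiNat.res_eq_res.1 h8 (hn.trans_le (h2 j hj).1)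
    · intro j hj k hk
      refine (hy2 (s j) (Finset.mem_image_of_mem s hj) k ?_).trans (h2 j hj).2
      refine lt_of_lt_of_le hk ?_
      rw [Finset.filter_image, Finset.card_image_of_injOn (hinj.mono (by
        intro z hz
        exact (Finset.mem_filter.1 hz).1))]
      apply Finset.card_le_card
      intro z hz
      rw [Finset.mem_filter] at hz ⊢
      exact ⟨hz.1, h5 z hz.1 j hj hz.2⟩

/-- Block sequences on finitely many branches outside the analytic set have convex means of
smaller norm. -/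
theorem averaging (hφ : Continuous φ) (D : Finset (ℕ → Bool)) (hD : ∀ x ∈ D, x ∉ Set.range φ)
    {ρ : ℝ} (u : ℕ → T → ℝ) (p q : ℕ → ℕ) (hpq : ∀ j, p j ≤ q j ∧ q j < p (j + 1))
    (hu : ∀ j s, u j s ≠ 0 → p j ≤ s.length ∧ s.length ≤ q j ∧ ∃ x ∈ D, Ext s x)
    (hρ : ∀ j, NormLE φ (u j) ρ) (N : ℕ) :
    ∃ (J : Finset ℕ) (c : ℕ → ℝ), (∀ j ∈ J, N ≤ j) ∧ (∀ j, 0 ≤ c j) ∧ ∑ j ∈ J, c j = 1 ∧
      NormLE φ (fun s => ∑ j ∈ J, c j * u j s) (3 / 4 * ρ) := by
  classical
  have hρ0 : 0 ≤ ρ := (hρ 0).nonneg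
  set ε0 : ℝ := 1 / (2 * (D.card + 1)) with hε0
  have hε0pos : 0 < ε0 := by positivity
  have hDε : (D.card : ℝ) * ε0 ≤ 1 / 2 := by
    rw [hε0, mul_one_div, div_le_div_iff₀ (by positivity) (by norm_num)]
    linarith
  have hε01 : ε0 ≤ 1 / 2 := by
    rw [hε0, div_le_div_iff₀ (by positivity) (by norm_num)]
    have : (0 : ℝ) ≤ D.card := Nat.cast_nonneg _
    linarith
  obtain ⟨J, c, hJN, hc0, -, hc1, hcF⟩ := ptak (fun G => ∃ x ∈ D, GK φ p q x G)
    (fun A B hAB ⟨x, hx, h⟩ => ⟨x, hx, h.mono hAB⟩) (F_fin hφ hpq D hD) ε0 hε0pos N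
  refine ⟨J, c, hJN, hc0, hc1, ?_⟩
  have huniq : ∀ s j j', u j s ≠ 0 → u j' s ≠ 0 → j = j' := by
    intro s j j' h1 h2
    have a1 := hu j s h1
    have a2 := hu j' s h2
    rcases lt_trichotomy j j' with h | h | h
    · have := q_lt_p hpq h
      omega
    · exact h
    · have := q_lt_p hpq h
      omega
  intro g hg
  cases hg with
  | base s c0 hc =>
    rw [ev_single]
    by_cases hs : ∃ j ∈ J, u j s ≠ 0
    · obtain ⟨j, hj, hjs⟩ := hs
      rw [Finset.sum_eq_single_of_mem j hj (fun j' _ hne => by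
        by_contra h0
        apply hne
        apply huniq s
        · intro h1; rw [h1, mul_zero] at h0; exact h0 rfl
        · exact hjs)]
      have h1 := hρ j _ (L.base s c0 hc)
      rw [ev_single] at h1
      have h2 : c j ≤ ε0 := by
        have h3 := hcF {j} (by
          obtain ⟨x, hx, -⟩ := (hu j s hjs).2.2
          refine ⟨x, hx, Or.inl ?_⟩
          intro j' hj'
          rw [Finset.card_singleton]
          omega)
        rwa [Finset.sum_singleton] at h3
      have h4 : |c0 * (c j * u j s)| = c j * |c0 * u j s| := by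
        rw [show c0 * (c j * u j s) = c j * (c0 * u j s) by ring, abs_mul, abs_of_nonneg (hc0 j)]
      rw [h4]
      calc c j * |c0 * u j s| ≤ ε0 * ρ := mul_le_mul h2 h1 (abs_nonneg _) hε0pos.le
        _ ≤ 1 / 2 * ρ := mul_le_mul_of_nonneg_right hε01 hρ0
        _ ≤ 3 / 4 * ρ := mul_le_mul_of_nonneg_right (by norm_num) hρ0
    · push Not at hs
      rw [Finset.sum_eq_zero (fun j hj => by rw [hs j hj, mul_zero]), mul_zero, abs_zero]
      positivity
  | step g0 I hg0 ha =>
    rw [ev_smul_left, ev_sum_left]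
    simp_rw [ev_sum_right]
    let Ij : ℕ → Finset ℕ := fun j => I.filter (fun i => ∃ s, g0 i s ≠ 0 ∧ u j s ≠ 0)
    let J1 : Finset ℕ := J.filter (fun j => 2 ≤ (Ij j).card)
    have hinner : ∀ j, ∑ i ∈ I, |ev (g0 i) (u j)| ≤ ρ + if 2 ≤ (Ij j).card then ρ else 0 := by
      intro j
      split_ifs with hj
      · have := (hρ j).sum_le hg0 ha I
        linarith
      · have h1 : ∑ i ∈ I, |ev (g0 i) (u j)| = ∑ i ∈ Ij j, |ev (g0 i) (u j)| := by
          symm
          apply Finset.sum_subset (Finset.filter_subset _ _)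
          intro i hi hi2
          have h2 : ev (g0 i) (u j) = 0 := by
            unfold ev
            apply Finset.sum_eq_zero
            intro s hs
            by_contra hne
            apply hi2
            refine Finset.mem_filter.2 ⟨hi, s, Finsupp.mem_support_iff.1 hs, ?_⟩
            intro h3
            rw [h3, mul_zero] at hne
            exact hne rfl
          rw [h2, abs_zero]
        rw [h1, add_zero]
        have h2 : ∑ i ∈ Ij j, |ev (g0 i) (u j)| ≤ (Ij j).card • ρ :=
          Finset.sum_le_card_nsmul _ _ _ fun i _ => hρ j _ (hg0 i)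
        refine h2.trans ?_
        rw [nsmul_eq_mul]
        have h3 : ((Ij j).card : ℝ) ≤ 1 := by
          have : (Ij j).card ≤ 1 := by omega
          exact_mod_cast this
        calc ((Ij j).card : ℝ) * ρ ≤ 1 * ρ := mul_le_mul_of_nonneg_right h3 hρ0
          _ = ρ := one_mul _
    have hJ1 : ∀ j ∈ J1, ∃ i m : ℕ, ∃ s t : T, m < i ∧ g0 i s ≠ 0 ∧ u j s ≠ 0 ∧
        g0 m t ≠ 0 ∧ u j t ≠ 0 := by
      intro j hj
      have h1 : 1 < (Ij j).card := (Finset.mem_filter.1 hj).2
      obtain ⟨a, ha', b, hb', hab⟩ := Finset.one_lt_card.1 h1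
      obtain ⟨-, s, hs1, hs2⟩ := Finset.mem_filter.1 ha'
      obtain ⟨-, t, ht1, ht2⟩ := Finset.mem_filter.1 hb'
      rcases lt_or_gt_of_ne hab with h | h
      · exact ⟨b, a, t, s, h, ht1, ht2, hs1, hs2⟩
      · exact ⟨a, b, s, t, h, hs1, hs2, ht1, ht2⟩
    choose! i m s t hmi hgs hus hgt hut using hJ1
    have hlen : ∀ j ∈ J1, ∀ j' ∈ J1, j < j' → (s j).length < (s j').length := by
      intro j hj j' hj' hlt
      have a1 := hu j _ (hus j hj)
      have a2 := hu j' _ (hus j' hj')
      have := q_lt_p hpq hlt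
      omega
    have himono : ∀ j ∈ J1, ∀ j' ∈ J1, j < j' → i j < i j' := by
      intro j hj j' hj' hlt
      refine lt_of_le_of_lt ?_ (hmi j' hj')
      by_contra hcon
      push Not at hcon
      have h1 := ha.1 _ _ hcon (t j') (by simpa using hgt j' hj') (s j) (by simpa using hgs j hj)
      have a1 := hu j _ (hus j hj)
      have a2 := hu j' _ (hut j' hj')
      have := q_lt_p hpq hlt
      omega
    have hGx : ∀ x ∈ D, ∑ j ∈ J1.filter (fun j => Ext (s j) x), c j ≤ ε0 := by
      intro x hx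
      apply hcF
      refine ⟨x, hx, ?_⟩
      apply GK_of_adm ha (i := i) (s := s)
      · intro j hj
        have := hgs j (Finset.mem_filter.1 hj).1
        simpa using this
      · intro j hj
        have := hu j _ (hus j (Finset.mem_filter.1 hj).1)
        exact ⟨this.1, this.2.1⟩
      · intro j hj
        exact (Finset.mem_filter.1 hj).2
      · intro j hj j' hj' hlt
        exact himono j (Finset.mem_filter.1 hj).1 j' (Finset.mem_filter.1 hj').1 hlt
      · intro j hj j' hj' hlt
        exact hlen j (Finset.mem_filter.1 hj).1 j' (Finset.mem_filter.1 hj').1 hlt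
    have hJ1sum : ∑ j ∈ J1, c j ≤ 1 / 2 := by
      calc ∑ j ∈ J1, c j ≤ ∑ j ∈ J1, ∑ x ∈ D, (if Ext (s j) x then c j else 0) := by
            apply Finset.sum_le_sum
            intro j hj
            obtain ⟨x, hx, hxe⟩ := (hu j _ (hus j hj)).2.2
            have h1 := Finset.single_le_sum (f := fun x => if Ext (s j) x then c j else 0)
              (fun z _ => by
                show 0 ≤ (if Ext (s j) z then c j else 0)
                split_ifs
                · exact hc0 j
                · exact le_rfl) hx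
            simp only [if_pos hxe] at h1
            exact h1
        _ = ∑ x ∈ D, ∑ j ∈ J1.filter (fun j => Ext (s j) x), c j := by
            rw [Finset.sum_comm]
            apply Finset.sum_congr rfl
            intro x _
            exact (Finset.sum_filter _ _).symm
        _ ≤ ∑ x ∈ D, ε0 := Finset.sum_le_sum hGx
        _ = D.card * ε0 := by rw [Finset.sum_const, nsmul_eq_mul]
        _ ≤ 1 / 2 := hDε
    have htot : |∑ i ∈ I, ∑ j ∈ J, c j * ev (g0 i) (u j)| ≤ 3 / 2 * ρ := by
      calc |∑ i ∈ I, ∑ j ∈ J, c j * ev (g0 i) (u j)|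
          ≤ ∑ i ∈ I, |∑ j ∈ J, c j * ev (g0 i) (u j)| := Finset.abs_sum_le_sum_abs _ _
        _ ≤ ∑ i ∈ I, ∑ j ∈ J, c j * |ev (g0 i) (u j)| := by
            apply Finset.sum_le_sum
            intro i _
            refine (Finset.abs_sum_le_sum_abs _ _).trans (Finset.sum_le_sum ?_)
            intro j _
            rw [abs_mul, abs_of_nonneg (hc0 j)]
        _ = ∑ j ∈ J, c j * ∑ i ∈ I, |ev (g0 i) (u j)| := by
            rw [Finset.sum_comm]
            apply Finset.sum_congr rfl
            intro j _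
            rw [Finset.mul_sum]
        _ ≤ ∑ j ∈ J, c j * (ρ + if 2 ≤ (Ij j).card then ρ else 0) := by
            apply Finset.sum_le_sum
            intro j _
            exact mul_le_mul_of_nonneg_left (hinner j) (hc0 j)
        _ = ρ * ∑ j ∈ J, c j + ρ * ∑ j ∈ J1, c j := by
            simp only [J1]
            rw [Finset.sum_filter, Finset.mul_sum, Finset.mul_sum, ← Finset.sum_add_distrib]
            apply Finset.sum_congr rfl
            intro j _
            split_ifs <;> ring
        _ ≤ ρ * 1 + ρ * (1 / 2) := by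
            rw [hc1]
            have := mul_le_mul_of_nonneg_left hJ1sum hρ0
            linarith
        _ = 3 / 2 * ρ := by ring
    rw [abs_mul, show |(1 / 2 : ℝ)| = 1 / 2 by norm_num]
    linarith

end Pool.Agent.Helper639.Tk
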