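import Pool.Agent.Helper639.Tk.Defs

open Set Filter Topology

namespace Pool.Agent.Helper639.Tk

variable {φ : (ℕ → ℕ) → (ℕ → Bool)}

theorem Adm.mono {E E' : ℕ → Set T} (h : Adm φ E) (hE : ∀ j, E' j ⊆ E j) : Adm φ E' := by
  have hdisj : ∀ i j, ∀ s, s ∈ E i → s ∈ E j → i = j := by
    intro i j s h1 h2
    rcases lt_trichotomy i j with hij | hij | hij
    · exact absurd (h.1 i j hij s h1 s h2) (lt_irrefl _)
    · exact hij
    · exact absurd (h.1 j i hij s h2 s h1) (lt_irrefl _)
  refine ⟨fun i j hij s hs t ht => h.1 i j hij s (hE i hs) t (hE j ht), fun S hS h1 h2 => ?_⟩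
  refine h.2 S hS (fun s hs => (h1 s hs).imp fun i hi => hE i hi) ?_
  intro i s hs t ht hsi hti
  obtain ⟨i1, hi1⟩ := h1 s hs
  obtain ⟨i2, hi2⟩ := h1 t ht
  have e1 := hdisj _ _ s (hE _ hi1) hsi
  have e2 := hdisj _ _ t (hE _ hi2) hti
  have e3 : i1 = i2 := e1.trans e2.symm
  subst e3
  exact h2 i1 s hs t ht hi1 hi2

theorem Adm.disj {E : ℕ → Set T} (h : Adm φ E) {i j : ℕ} {s : T} (h1 : s ∈ E i) (h2 : s ∈ E j) :
    i = j := by
  rcases lt_trichotomy i j with hij | hij | hij
  · exact absurd (h.1 i j hij s h1 s h2) (lt_irrefl _)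
  · exact hij
  · exact absurd (h.1 j i hij s h2 s h1) (lt_irrefl _)

theorem Adm.comp {E : ℕ → Set T} (h : Adm φ E) {n : ℕ → ℕ} (hn : StrictMono n) :
    Adm φ (fun j => E (n j)) := by
  refine ⟨fun i j hij s hs t ht => h.1 _ _ (hn hij) s hs t ht, fun S hS h1 h2 => ?_⟩
  refine h.2 S hS (fun s hs => ?_) ?_
  · obtain ⟨i, hi⟩ := h1 s hs
    exact ⟨n i, hi⟩
  · intro i s hs t ht hsi hti
    obtain ⟨i1, hi1⟩ := h1 s hs
    obtain ⟨i2, hi2⟩ := h1 t ht
    have e1 := h.disj hi1 hsi
    have e2 := h.disj hi2 hti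
    have : i1 = i2 := hn.injective (e1.trans e2.symm)
    subst this
    exact h2 i1 s hs t ht hi1 hi2

theorem L_zero : L φ 0 := by
  have := L.base (φ := φ) [] 0 (by simp)
  simpa using this

theorem L_abs_le {g : T →₀ ℝ} (h : L φ g) (s : T) : |g s| ≤ 1 := by
  induction h with
  | base t c hc =>
    by_cases hst : t = s
    · subst hst; simpa using hc
    · simp [hst]
  | step g J hg ha ih =>
    rw [Finsupp.smul_apply, Finsupp.finsetSum_apply]
    by_cases hs : ∃ j ∈ J, g j s ≠ 0
    · obtain ⟨j, hj, hjs⟩ := hs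
      have : ∑ i ∈ J, (g i) s = g j s := by
        refine Finset.sum_eq_single_of_mem j hj fun i _ hij => ?_
        by_contra hne
        exact hij (ha.disj (s := s) (by simpa using hne) (by simpa using hjs))
      rw [this, smul_eq_mul, abs_mul]
      have := ih j
      have h2 : |(1 / 2 : ℝ)| = 1 / 2 := by norm_num
      rw [h2]; nlinarith [abs_nonneg (g j s)]
    · push Not at hs
      rw [Finset.sum_eq_zero fun j hj => hs j hj]
      simp

/-- The norming set is solid. -/
theorem L_solid {g : T →₀ ℝ} (h : L φ g) : ∀ g' : T →₀ ℝ, (∀ s, |g' s| ≤ |g s|) → L φ g' := by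
  induction h with
  | base t c hc =>
    intro g' hg'
    have : g' = Finsupp.single t (g' t) := by
      ext s
      by_cases hst : t = s
      · subst hst; simp
      · have := hg' s
        rw [Finsupp.single_apply, if_neg hst, abs_zero] at this
        rw [Finsupp.single_apply, if_neg hst]
        exact abs_eq_zero.1 (le_antisymm this (abs_nonneg _))
    rw [this]
    refine L.base t _ ?_
    have := hg' t
    rw [Finsupp.single_eq_same] at this
    exact this.trans hc
  | step g J hg ha ih =>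
    intro g' hg'
    have key : ∀ j ∈ J, ∀ s, g j s ≠ 0 → (((1 / 2 : ℝ) • ∑ i ∈ J, g i) s) = (1 / 2) * g j s := by
      intro j hj s hs
      rw [Finsupp.smul_apply, Finsupp.finsetSum_apply, smul_eq_mul]
      congr 1
      refine Finset.sum_eq_single_of_mem j hj fun i _ hij => ?_
      by_contra hne
      exact hij (ha.disj (s := s) (by simpa using hne) (by simpa using hs))
    have key0 : ∀ s, (∀ j ∈ J, g j s = 0) → g' s = 0 := by
      intro s hs
      have := hg' s
      rw [Finsupp.smul_apply, Finsupp.finsetSum_apply, Finset.sum_eq_zero hs, smul_zero,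
        abs_zero] at this
      exact abs_eq_zero.1 (le_antisymm this (abs_nonneg _))
    classical
    let h : ℕ → T →₀ ℝ := fun j => if j ∈ J then (2 : ℝ) • g'.filter (fun s => g j s ≠ 0) else 0
    have hh : ∀ j s, h j s = if j ∈ J ∧ g j s ≠ 0 then 2 * g' s else 0 := by
      intro j s
      by_cases hj : j ∈ J
      · simp only [h, if_pos hj, Finsupp.smul_apply, Finsupp.filter_apply, smul_eq_mul, hj,
          true_and]
        split_ifs <;> simp_all
      · simp [h, hj]
    have h1 : ∀ j s, |h j s| ≤ |g j s| := by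
      intro j s
      rw [hh]
      split_ifs with hc
      · have := hg' s
        rw [key j hc.1 s hc.2, abs_mul] at this
        rw [abs_mul]
        have e1 : |(1 / 2 : ℝ)| = 1 / 2 := by norm_num
        have e2 : |(2 : ℝ)| = 2 := by norm_num
        rw [e1] at this
        rw [e2]; linarith
      · simp
    have hadm : Adm φ (fun j => ((h j).support : Set T)) := by
      refine ha.mono fun j s hs => ?_
      have : h j s ≠ 0 := by simpa using hs
      rw [hh] at this
      have : j ∈ J ∧ g j s ≠ 0 := by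
        by_contra hc; rw [if_neg hc] at this; exact this rfl
      simpa using this.2
    have : g' = (1 / 2 : ℝ) • ∑ j ∈ J, h j := by
      ext s
      rw [Finsupp.smul_apply, Finsupp.finsetSum_apply, smul_eq_mul]
      by_cases hs : ∃ j ∈ J, g j s ≠ 0
      · obtain ⟨j, hj, hjs⟩ := hs
        rw [Finset.sum_eq_single_of_mem j hj]
        · rw [hh, if_pos ⟨hj, hjs⟩]; ring
        · intro i _ hij
          rw [hh, if_neg]
          rintro ⟨_, h3⟩
          exact hij (ha.disj (s := s) (by simpa using h3) (by simpa using hjs))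
      · push Not at hs
        rw [key0 s hs, Finset.sum_eq_zero, mul_zero]
        intro j hj
        rw [hh, if_neg]
        rintro ⟨_, h3⟩
        exact h3 (hs j hj)
    rw [this]
    exact L.step h J (fun j => ih j _ (h1 j)) hadm

theorem L_filter {g : T →₀ ℝ} (h : L φ g) (A : T → Prop) [DecidablePred A] :
    L φ (g.filter A) := by
  refine L_solid h _ fun s => ?_
  rw [Finsupp.filter_apply]
  split_ifs
  · exact le_rfl
  · simp

theorem L_neg {g : T →₀ ℝ} (h : L φ g) : L φ (-g) :=
  L_solid h _ fun s => by simp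

theorem L_smul {g : T →₀ ℝ} (h : L φ g) {c : ℝ} (hc : |c| ≤ 1) : L φ (c • g) :=
  L_solid h _ fun s => by
    rw [Finsupp.smul_apply, smul_eq_mul, abs_mul]
    nlinarith [abs_nonneg (g s), abs_nonneg c]

/-! ### evaluation -/

theorem ev_eq (g : T →₀ ℝ) (a : T → ℝ) : ev g a = g.sum fun s c => c * a s := rfl

theorem ev_eq_of_subset (g : T →₀ ℝ) (a : T → ℝ) {S : Finset T} (h : g.support ⊆ S) :
    ev g a = ∑ s ∈ S, g s * a s := by
  unfold ev
  refine Finset.sum_subset h fun s _ hs => ?_
  simp [Finsupp.notMem_support_iff.1 hs]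

@[simp] theorem ev_zero_left (a : T → ℝ) : ev 0 a = 0 := by simp [ev]

theorem ev_single (s : T) (c : ℝ) (a : T → ℝ) : ev (Finsupp.single s c) a = c * a s := by
  rw [ev_eq, Finsupp.sum_single_index]; simp

theorem ev_add_left (g h : T →₀ ℝ) (a : T → ℝ) : ev (g + h) a = ev g a + ev h a := by
  simp only [ev_eq]
  rw [Finsupp.sum_add_index']
  · simp
  · intro s c d; ring

theorem ev_smul_left (c : ℝ) (g : T →₀ ℝ) (a : T → ℝ) : ev (c • g) a = c * ev g a := by
  simp only [ev_eq]
  rw [Finsupp.sum_smul_index (by simp), Finsupp.mul_sum]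
  simp [mul_assoc]

theorem ev_neg_left (g : T →₀ ℝ) (a : T → ℝ) : ev (-g) a = - ev g a := by
  have := ev_smul_left (-1) g a
  simpa using this

theorem ev_sum_left (J : Finset ℕ) (g : ℕ → T →₀ ℝ) (a : T → ℝ) :
    ev (∑ j ∈ J, g j) a = ∑ j ∈ J, ev (g j) a := by
  classical
  induction J using Finset.induction_on with
  | empty => simp
  | insert j J hj ih => rw [Finset.sum_insert hj, Finset.sum_insert hj, ev_add_left, ih]

theorem ev_add_right (g : T →₀ ℝ) (a b : T → ℝ) : ev g (a + b) = ev g a + ev g b := by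
  simp only [ev, Pi.add_apply, mul_add, Finset.sum_add_distrib]

theorem ev_sub_right (g : T →₀ ℝ) (a b : T → ℝ) : ev g (a - b) = ev g a - ev g b := by
  simp only [ev, Pi.sub_apply, mul_sub, Finset.sum_sub_distrib]

theorem ev_smul_right (g : T →₀ ℝ) (c : ℝ) (a : T → ℝ) : ev g (c • a) = c * ev g a := by
  simp only [ev, Pi.smul_apply, smul_eq_mul, Finset.mul_sum]
  exact Finset.sum_congr rfl fun s _ => by ring

theorem ev_sum_right (g : T →₀ ℝ) (J : Finset ℕ) (c : ℕ → ℝ) (u : ℕ → T → ℝ) :
    ev g (fun s => ∑ j ∈ J, c j * u j s) = ∑ j ∈ J, c j * ev g (u j) := by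
  simp only [ev, Finset.mul_sum]
  rw [Finset.sum_comm]
  exact Finset.sum_congr rfl fun j _ => Finset.sum_congr rfl fun s _ => by ring

theorem ev_congr (g : T →₀ ℝ) {a b : T → ℝ} (h : ∀ s ∈ g.support, a s = b s) : ev g a = ev g b :=
  Finset.sum_congr rfl fun s hs => by rw [h s hs]

theorem ev_filter (g : T →₀ ℝ) (A : T → Prop) [DecidablePred A] (a : T → ℝ) :
    ev (g.filter A) a = ev g (fun s => if A s then a s else 0) := by
  rw [ev_eq_of_subset (g.filter A) a (S := g.support)]
  · unfold ev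
    refine Finset.sum_congr rfl fun s _ => ?_
    rw [Finsupp.filter_apply]
    by_cases h : A s <;> simp [h]
  · rw [Finsupp.support_filter]
    exact Finset.filter_subset _ _

theorem ev_filter_add (g : T →₀ ℝ) (A : T → Prop) [DecidablePred A] (a : T → ℝ) :
    ev (g.filter A) a + ev (g.filter fun s => ¬ A s) a = ev g a := by
  rw [← ev_add_left]
  congr 1
  ext s
  rw [Finsupp.add_apply, Finsupp.filter_apply, Finsupp.filter_apply]
  split_ifs <;> simp

/-- the signed functional which takes the absolute values of all terms -/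
theorem exists_abs {g : T →₀ ℝ} (h : L φ g) (a : T → ℝ) :
    ∃ g', L φ g' ∧ g'.support ⊆ g.support ∧ (∀ s, 0 ≤ g' s * a s) ∧
      ∀ s, g' s * a s = |g s * a s| := by
  classical
  let σ : T → ℝ := fun s => if 0 ≤ g s * a s then 1 else -1
  let g' : T →₀ ℝ := Finsupp.onFinset g.support (fun s => σ s * g s) (by
    intro s hs
    simp only [Finsupp.mem_support_iff]
    intro h0; rw [h0, mul_zero] at hs; exact hs rfl)
  have hg' : ∀ s, g' s = σ s * g s := fun s => rfl
  have hσ : ∀ s, |σ s| ≤ 1 := by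
    intro s; simp only [σ]; split_ifs <;> simp
  have h3 : ∀ s, g' s * a s = |g s * a s| := by
    intro s
    rw [hg']
    simp only [σ]
    split_ifs with h0
    · rw [abs_of_nonneg h0]; ring
    · rw [abs_of_neg (not_le.1 h0)]; ring
  refine ⟨g', L_solid h _ fun s => ?_, Finsupp.support_onFinset_subset, fun s => ?_, h3⟩
  · rw [hg', abs_mul]
    nlinarith [abs_nonneg (g s), hσ s]
  · rw [h3]; exact abs_nonneg _

theorem NormLE.nonneg {a : T → ℝ} {R : ℝ} (h : NormLE φ a R) : 0 ≤ R := by
  have := h 0 L_zero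
  simpa using this

/-- sum over admissible functionals -/
theorem NormLE.sum_le {a : T → ℝ} {R : ℝ} (h : NormLE φ a R) {g : ℕ → T →₀ ℝ}
    (hg : ∀ j, L φ (g j)) (ha : Adm φ (fun j => ((g j).support : Set T))) (J : Finset ℕ) :
    ∑ j ∈ J, |ev (g j) a| ≤ 2 * R := by
  classical
  let σ : ℕ → ℝ := fun j => if 0 ≤ ev (g j) a then 1 else -1
  have hσ : ∀ j, |σ j| ≤ 1 := by
    intro j; simp only [σ]; split_ifs <;> simp
  have h1 : ∀ j, σ j * ev (g j) a = |ev (g j) a| := by
    intro j
    simp only [σ]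
    split_ifs with h0
    · rw [abs_of_nonneg h0]; ring
    · rw [abs_of_neg (not_le.1 h0)]; ring
  have h2 : L φ ((1 / 2 : ℝ) • ∑ j ∈ J, σ j • g j) := by
    refine L.step (fun j => σ j • g j) J (fun j => L_smul (hg j) (hσ j)) (ha.mono fun j => ?_)
    intro s hs
    simp only [Finset.mem_coe, Finsupp.mem_support_iff, Finsupp.smul_apply, smul_eq_mul] at hs ⊢
    intro h0; rw [h0, mul_zero] at hs; exact hs rfl
  have h3 := h _ h2
  rw [ev_smul_left, ev_sum_left] at h3
  have h4 : ∑ j ∈ J, ev (σ j • g j) a = ∑ j ∈ J, |ev (g j) a| :=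
    Finset.sum_congr rfl fun j _ => by rw [ev_smul_left, h1]
  rw [h4, abs_of_nonneg (by positivity)] at h3
  linarith

end Pool.Agent.Helper639.Tk
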