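import Pool.Agent.Helper639.Tk.Basic

set_option linter.all false

open Set Filter Topology

namespace Pool.Agent.Helper639.Tk

variable {φ : (ℕ → ℕ) → (ℕ → Bool)}

/-- The unit vector basis is boundedly complete. -/
theorem bc {a : T → ℝ} {R : ℝ} (h : NormLE φ a R) {ε : ℝ} (hε : 0 < ε) :
    ∃ l : ℕ, ∀ g, L φ g → (∀ s ∈ g.support, l ≤ s.length) → |ev g a| ≤ ε := by
  classical
  by_contra hcon
  push Not at hcon
  choose G hGL hGs hGe using hcon
  obtain ⟨k, hk⟩ := exists_nat_gt (2 * R / ε)
  let lv : ℕ → ℕ := fun n => Nat.rec k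
    (fun _ l => max l ((G l).support.sup (fun s => s.length) + 1)) n
  have lv0 : lv 0 = k := rfl
  have lvs : ∀ n, lv (n + 1) = max (lv n) ((G (lv n)).support.sup (fun s => s.length) + 1) :=
    fun n => rfl
  have lvmono : Monotone lv := monotone_nat_of_le_succ fun n => by
    rw [lvs]; exact le_max_left _ _
  have lvk : ∀ n, k ≤ lv n := fun n => lvmono (Nat.zero_le n)
  have hlt : ∀ i j, i < j → ∀ s ∈ (G (lv i)).support, s.length < lv j := by
    intro i j hij s hs
    have h1 : s.length ≤ (G (lv i)).support.sup (fun s => s.length) :=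
      Finset.le_sup (f := fun s : T => s.length) hs
    have h2 : lv (i + 1) ≤ lv j := lvmono hij
    rw [lvs] at h2
    have h3 := le_max_right (lv i) ((G (lv i)).support.sup (fun s => s.length) + 1)
    omega
  let g : ℕ → T →₀ ℝ := fun j => if j < k then G (lv j) else 0
  have hg : ∀ j, L φ (g j) := by
    intro j
    by_cases hj : j < k
    · simp only [g, if_pos hj]; exact hGL _
    · simp only [g, if_neg hj]; exact L_zero
  have hgs : ∀ j s, s ∈ (g j).support → j < k ∧ s ∈ (G (lv j)).support := by
    intro j s hs
    by_cases hj : j < k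
    · simp only [g, if_pos hj] at hs; exact ⟨hj, hs⟩
    · simp only [g, if_neg hj] at hs
      simp at hs
  have ha : Adm φ (fun j => ((g j).support : Set T)) := by
    refine ⟨fun i j hij s hs t ht => ?_, fun S hS h1 h2 => Or.inl fun s hs => ?_⟩
    · obtain ⟨hi, hs'⟩ := hgs i s (by simpa using hs)
      obtain ⟨hj, ht'⟩ := hgs j t (by simpa using ht)
      exact lt_of_lt_of_le (hlt i j hij s hs') (hGs _ t ht')
    · choose! idx hidx using h1
      have hcard : S.card ≤ (Finset.range k).card := by
        refine Finset.card_le_card_of_injOn idx (fun t ht => ?_) (fun t ht t' ht' he => ?_)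
        · have := (hgs _ t (by simpa using hidx t ht)).1
          simpa using this
        · refine h2 (idx t) t ht t' ht' (hidx t ht) ?_
          rw [he]; exact hidx t' ht'
      rw [Finset.card_range] at hcard
      obtain ⟨_, hs'⟩ := hgs _ s (by simpa using hidx s hs)
      have h3 := hGs _ s hs'
      have h4 := lvk (idx s)
      omega
  have hsum := h.sum_le hg ha (Finset.range k)
  have hsum2 : ∑ j ∈ Finset.range k, ε ≤ ∑ j ∈ Finset.range k, |ev (g j) a| := by
    refine Finset.sum_le_sum fun j hj => ?_
    have hj' : j < k := by simpa using hj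
    simp only [g, if_pos hj']
    exact (hGe _).le
  rw [Finset.sum_const, Finset.card_range, nsmul_eq_mul] at hsum2
  rw [div_lt_iff₀ hε] at hk
  linarith

end Pool.Agent.Helper639.Tk
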