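import Pool.Agent.Helper639.Tk.Basic

set_option linter.all false

open Set Filter Topology

namespace Pool.Agent.Helper639.Tk

variable {φ : (ℕ → ℕ) → (ℕ → Bool)}

/-- Recursive construction of a sequence of functionals with successive supports. -/
theorem build {K : Set (T → ℝ)} {δ : ℝ} (B : ℕ → ℕ → Set T)
    (h : ∀ j N : ℕ, ∃ a ∈ K, ∃ g, L φ g ∧ (∀ s ∈ g.support, N < s.length ∧ s ∈ B j N) ∧
      δ < ev g a) :
    ∃ (N : ℕ → ℕ) (g : ℕ → T →₀ ℝ) (a : ℕ → T → ℝ), StrictMono N ∧ ∀ j, L φ (g j) ∧ a j ∈ K ∧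
      (∀ s ∈ (g j).support, N j < s.length ∧ s.length ≤ N (j + 1) ∧ s ∈ B j (N j)) ∧
      δ < ev (g j) (a j) := by
  choose a ha g hg hs hd using h
  let N : ℕ → ℕ := fun j => Nat.rec 0
    (fun j N => max (N + 1) ((g j N).support.sup List.length)) j
  have hN : ∀ j, N (j + 1) = max (N j + 1) ((g j (N j)).support.sup List.length) := fun j => rfl
  refine ⟨N, fun j => g j (N j), fun j => a j (N j), ?_, ?_⟩
  · refine strictMono_nat_of_lt_succ fun j => ?_
    rw [hN]
    exact lt_of_lt_of_le (Nat.lt_succ_self _) (le_max_left _ _)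
  · intro j
    refine ⟨hg j (N j), ha j (N j), ?_, hd j (N j)⟩
    intro s h1
    refine ⟨(hs j (N j) s h1).1, ?_, (hs j (N j) s h1).2⟩
    rw [hN]
    exact le_trans (Finset.le_sup (f := List.length) h1) (le_max_right _ _)

end Pool.Agent.Helper639.Tk
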