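import Mathlib

open Set Filter Topology

namespace Pool.Agent.Helper639.Tk

theorem inj_pick_h {ι : Type*} (A : ℕ → Set ι) (hA : ∀ n, (A n).Infinite) :
    ∃ g : ℕ → ι, Function.Injective g ∧ ∀ n, g n ∈ A n := by
  classical
  have hpick : ∀ (n : ℕ) (F : Finset ι), ∃ x, x ∈ A n ∧ x ∉ F := fun n F =>
    (hA n).exists_notMem_finset F
  choose pick hp1 hp2 using hpick
  obtain ⟨F, hF0, hFs⟩ : ∃ F : ℕ → Finset ι, F 0 = ∅ ∧ ∀ n, F (n + 1) = insert (pick n (F n)) (F n) :=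
    ⟨fun n => Nat.rec ∅ (fun n F => insert (pick n F) F) n, rfl, fun n => rfl⟩
  have hmono : ∀ m n, m ≤ n → F m ⊆ F n := by
    intro m n hmn
    induction n, hmn using Nat.le_induction with
    | base => exact Finset.Subset.refl _
    | succ n _ ih =>
      rw [hFs]
      exact ih.trans (Finset.subset_insert _ _)
  have hlt : ∀ m n, m < n → pick m (F m) ≠ pick n (F n) := by
    intro m n hmn h
    have h1 : pick m (F m) ∈ F (m + 1) := by
      rw [hFs]
      exact Finset.mem_insert_self _ _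
    have h2 := hmono (m + 1) n hmn h1
    rw [h] at h2
    exact hp2 n (F n) h2
  refine ⟨fun n => pick n (F n), fun m n h => ?_, fun n => hp1 n (F n)⟩
  rcases lt_trichotomy m n with h1 | h1 | h1
  · exact (hlt m n h1 h).elim
  · exact h1
  · exact (hlt n m h1 h.symm).elim

theorem compact_union_h (K : Set ℚ) (hK : IsCompact K) (C : ℕ → Set ℚ) (hC : ∀ n, IsCompact (C n))
    (h : ∀ n, C n ⊆ Metric.thickening (1 / ((n : ℝ) + 1)) K) : IsCompact (K ∪ ⋃ n, C n) := by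
  classical
  refine isCompact_of_finite_subcover fun {κ} U hU hcov => ?_
  obtain ⟨t0, ht0⟩ := hK.elim_finite_subcover U hU (subset_union_left.trans hcov)
  have hW : IsOpen (⋃ i ∈ t0, U i) := isOpen_biUnion fun i _ => hU i
  obtain ⟨δ, hδ, hδ2⟩ := hK.exists_thickening_subset_open hW ht0
  obtain ⟨N, hN⟩ := exists_nat_one_div_lt hδ
  have hfin : IsCompact (⋃ n ∈ Finset.range N, C n) :=
    (Finset.range N).isCompact_biUnion fun n _ => hC n
  obtain ⟨t1, ht1⟩ := hfin.elim_finite_subcover U hU (by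
    refine subset_trans ?_ hcov
    refine subset_trans ?_ subset_union_right
    exact iUnion₂_subset fun n _ => subset_iUnion C n)
  refine ⟨t0 ∪ t1, ?_⟩
  rintro x (hx | hx)
  · obtain ⟨i, hi, hxi⟩ := mem_iUnion₂.1 (ht0 hx)
    exact mem_iUnion₂.2 ⟨i, Finset.mem_union_left _ hi, hxi⟩
  · obtain ⟨n, hn⟩ := mem_iUnion.1 hx
    rcases lt_or_ge n N with h1 | h1
    · obtain ⟨i, hi, hxi⟩ := mem_iUnion₂.1 (ht1 (mem_iUnion₂.2 ⟨n, Finset.mem_range.2 h1, hn⟩))
      exact mem_iUnion₂.2 ⟨i, Finset.mem_union_right _ hi, hxi⟩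
    · have h2 : (1 / ((n : ℝ) + 1)) ≤ δ := by
        have h3 : 1 / ((n : ℝ) + 1) ≤ 1 / ((N : ℝ) + 1) := by
          have : (N : ℝ) ≤ n := by exact_mod_cast h1
          gcongr
        linarith
      have h4 := hδ2 (Metric.thickening_mono h2 K (h n hn))
      obtain ⟨i, hi, hxi⟩ := mem_iUnion₂.1 h4
      exact mem_iUnion₂.2 ⟨i, Finset.mem_union_left _ hi, hxi⟩

theorem between_h (K W : Set ℚ) (hK : IsCompact K) (hW : IsOpen W) (hKW : K ⊆ W) :
    ∃ t : Finset (TopologicalSpace.countableBasis ℚ), K ⊆ (⋃ v ∈ t, (v : Set ℚ)) ∧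
      (⋃ v ∈ t, (v : Set ℚ)) ⊆ W := by
  classical
  have hb := TopologicalSpace.isBasis_countableBasis ℚ
  obtain ⟨t, ht⟩ := hK.elim_finite_subcover
    (fun v : {v : TopologicalSpace.countableBasis ℚ // (v : Set ℚ) ⊆ W} => ((v : TopologicalSpace.countableBasis ℚ) : Set ℚ))
    (fun v => hb.isOpen v.1.2) (by
      intro x hx
      obtain ⟨v, hv, hxv, hvW⟩ := hb.exists_subset_of_mem_open (hKW hx) hW
      exact mem_iUnion.2 ⟨⟨⟨v, hv⟩, hvW⟩, hxv⟩)
  refine ⟨t.image Subtype.val, ?_, ?_⟩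
  · intro x hx
    obtain ⟨v, hv, hxv⟩ := mem_iUnion₂.1 (ht hx)
    exact mem_iUnion₂.2 ⟨v.1, Finset.mem_image_of_mem _ hv, hxv⟩
  · refine iUnion₂_subset fun v hv => ?_
    obtain ⟨w, _, rfl⟩ := Finset.mem_image.1 hv
    exact w.2

/-- an uncountable family of compact sets of rational numbers has an infinite subfamily whose
members all lie in one compact set -/
theorem infinite_bdd_compacts {ι : Type*} [Uncountable ι]
    (f : ι → TopologicalSpace.Compacts ℚ) :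
    ∃ S : Set ι, S.Infinite ∧ BddAbove (f '' S) := by
  classical
  obtain ⟨Un, hUn⟩ : ∃ Un : Finset (TopologicalSpace.countableBasis ℚ) → Set ℚ,
    ∀ t, Un t = ⋃ v ∈ t, (v : Set ℚ) := ⟨_, fun _ => rfl⟩
  have hbad : {i : ι | ∃ t, (f i : Set ℚ) ⊆ Un t ∧ {j : ι | (f j : Set ℚ) ⊆ Un t}.Countable}.Countable := by
    have h1 : {i : ι | ∃ t, (f i : Set ℚ) ⊆ Un t ∧ {j : ι | (f j : Set ℚ) ⊆ Un t}.Countable} ⊆
        ⋃ t : {t // {j : ι | (f j : Set ℚ) ⊆ Un t}.Countable}, {j : ι | (f j : Set ℚ) ⊆ Un t.1} := by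
      rintro i ⟨t, h1, h2⟩
      exact mem_iUnion.2 ⟨⟨t, h2⟩, h1⟩
    haveI : Countable (TopologicalSpace.countableBasis ℚ) :=
      (TopologicalSpace.countable_countableBasis ℚ).to_subtype
    exact (countable_iUnion fun t => t.2).mono h1
  obtain ⟨i0, hi0⟩ : ∃ i0 : ι, i0 ∉ {i : ι | ∃ t, (f i : Set ℚ) ⊆ Un t ∧
      {j : ι | (f j : Set ℚ) ⊆ Un t}.Countable} := by
    by_contra hc
    push Not at hc
    have : {i : ι | ∃ t, (f i : Set ℚ) ⊆ Un t ∧
      {j : ι | (f j : Set ℚ) ⊆ Un t}.Countable} = univ := eq_univ_of_forall hc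
    rw [this] at hbad
    exact not_countable_univ hbad
  have hA : ∀ n : ℕ, {j : ι | (f j : Set ℚ) ⊆
      Metric.thickening (1 / ((n : ℝ) + 1)) (f i0 : Set ℚ)}.Infinite := by
    intro n
    obtain ⟨t, ht1, ht2⟩ := between_h (f i0) (Metric.thickening (1 / ((n : ℝ) + 1)) (f i0 : Set ℚ))
      (f i0).isCompact Metric.isOpen_thickening
      (Metric.self_subset_thickening (by positivity) _)
    rw [← hUn] at ht1 ht2
    have h1 : ¬ {j : ι | (f j : Set ℚ) ⊆ Un t}.Countable := fun h => hi0 ⟨t, ht1, h⟩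
    have h2 : {j : ι | (f j : Set ℚ) ⊆ Un t}.Infinite := fun h => h1 h.countable
    exact h2.mono fun j hj => hj.trans ht2
  obtain ⟨g, hg, hgA⟩ := inj_pick_h _ hA
  have hcomp := compact_union_h (f i0) (f i0).isCompact (fun n => (f (g n) : Set ℚ))
    (fun n => (f (g n)).isCompact) hgA
  refine ⟨range g, infinite_range_of_injective hg, ⟨⟨_, hcomp⟩, ?_⟩⟩
  rintro _ ⟨_, ⟨n, rfl⟩, rfl⟩
  intro x hx
  exact Or.inr (mem_iUnion.2 ⟨n, hx⟩)

end Pool.Agent.Helper639.Tk
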