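import Mathlib

open Set Filter Topology

namespace Pool.Agent.Helper639.Tk

/-- an uncountable family in `ℕ → ℕ` has an infinite bounded subfamily -/
theorem infinite_bdd_nat {ι : Type*} [Uncountable ι] (f : ι → ℕ → ℕ) :
    ∃ S : Set ι, S.Infinite ∧ BddAbove (f '' S) := by
  have h1 : ∃ i0 : ι, ∀ n : ℕ, ¬ ({i | ∀ k < n, f i k = f i0 k} : Set ι).Countable := by
    by_contra hcon
    push Not at hcon
    choose N hN using hcon
    have hU : (Set.univ : Set ι) ⊆ ⋃ p ∈ {p : Σ n : ℕ, (Fin n → ℕ) |
        ({i | ∀ k : Fin p.1, f i k = p.2 k} : Set ι).Countable},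
        {i | ∀ k : Fin p.1, f i k = p.2 k} := by
      intro i _
      rw [Set.mem_iUnion₂]
      refine ⟨⟨N i, fun k => f i k⟩, ?_, ?_⟩
      · apply (hN i).mono
        intro j hj k hk
        exact hj ⟨k, hk⟩
      · intro k
        rfl
    have hc : (⋃ p ∈ {p : Σ n : ℕ, (Fin n → ℕ) |
        ({i | ∀ k : Fin p.1, f i k = p.2 k} : Set ι).Countable},
        {i : ι | ∀ k : Fin p.1, f i k = p.2 k}).Countable := by
      apply Set.Countable.biUnion (Set.to_countable _)
      intro p hp
      exact hp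
    exact Set.not_countable_univ (hc.mono hU)
  obtain ⟨i0, hi0⟩ := h1
  obtain ⟨g, hg1, hg2⟩ := exists_seq_of_forall_finset_exists
    (fun p : ℕ × ι => ∀ k < p.1, f p.2 k = f i0 k) (fun p q => p.1 < q.1 ∧ p.2 ≠ q.2) (by
      intro s _
      have hinf : ({i | ∀ k < s.sup Prod.fst + 1, f i k = f i0 k} : Set ι).Infinite := by
        intro hfin
        exact hi0 _ hfin.countable
      classical
      obtain ⟨i, hi, hi2⟩ := hinf.exists_notMem_finset (s.image Prod.snd)
      refine ⟨(s.sup Prod.fst + 1, i), hi, ?_⟩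
      intro x hx
      refine ⟨Nat.lt_succ_of_le (Finset.le_sup (f := Prod.fst) hx), ?_⟩
      intro h
      exact hi2 (Finset.mem_image.2 ⟨x, hx, h⟩))
  have hmono : StrictMono (fun n => (g n).1) := by
    intro m n hmn
    exact (hg2 m n hmn).1
  have hinj : Function.Injective (fun n => (g n).2) := by
    intro m n hmn
    by_contra hne
    rcases lt_or_gt_of_ne hne with h | h
    · exact (hg2 m n h).2 hmn
    · exact (hg2 n m h).2 hmn.symm
  refine ⟨Set.range (fun n => (g n).2), Set.infinite_range_of_injective hinj, ?_⟩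
  refine ⟨fun k => ∑ n ∈ Finset.range (k + 1), f (g n).2 k + f i0 k, ?_⟩
  rintro _ ⟨_, ⟨n, rfl⟩, rfl⟩
  intro k
  show f (g n).2 k ≤ ∑ m ∈ Finset.range (k + 1), f (g m).2 k + f i0 k
  by_cases h : n < k + 1
  · have := Finset.single_le_sum (f := fun m => f (g m).2 k) (fun i _ => Nat.zero_le _)
      (Finset.mem_range.2 h)
    omega
  · have h2 : k < (g n).1 := by
      have := hmono.id_le n
      simp only [id] at this
      omega
    have := hg1 n k h2
    omega

end Pool.Agent.Helper639.Tk
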