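import Mathlib

/-!
# A Tsirelson type space on the binary tree attached to an analytic set

Nodes of the binary tree are lists of Booleans, the last entry first, so that `s <:+ t` says that
the node `t` extends the node `s`, and `PiNat.res x n` is the node of length `n` on the branch `x`.
-/

open Set Filter Topology

namespace Pool.Agent.Helper639.Tk

/-- the nodes of the binary tree -/
abbrev T : Type := List Bool

/-- the branch `x` passes through the node `s` -/
def Ext (s : T) (x : ℕ → Bool) : Prop := PiNat.res x s.length = s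

/-- the nodes on the branch `x` -/
def br (x : ℕ → Bool) : Set T := {s | Ext s x}

/-- `S` is a chain of nodes -/
def IsChainT (S : Finset T) : Prop := ∀ s ∈ S, ∀ t ∈ S, s.length ≤ t.length → s <:+ t

/-- A chain `s_0 ⊂ ⋯ ⊂ s_r` is good for `φ` if `r ≤ |s_0|`, or there is `y` such that `φ y` extends
`s_{r-1}` and `y i ≤ |s_j|` for all `i < j ≤ r`. -/
def OK (φ : (ℕ → ℕ) → (ℕ → Bool)) (S : Finset T) : Prop :=
  (∀ s ∈ S, S.card ≤ s.length + 1) ∨
  ∃ y : ℕ → ℕ, (∀ s ∈ S, (∃ t ∈ S, s.length < t.length) → Ext s (φ y)) ∧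
    ∀ s ∈ S, ∀ i < (S.filter (fun t => t.length < s.length)).card, y i ≤ s.length

/-- Admissible sequences of sets of nodes: the levels are successive and every chain which takes at
most one node of each set is good. -/
def Adm (φ : (ℕ → ℕ) → (ℕ → Bool)) (E : ℕ → Set T) : Prop :=
  (∀ i j, i < j → ∀ s ∈ E i, ∀ t ∈ E j, s.length < t.length) ∧
  ∀ S : Finset T, IsChainT S → (∀ s ∈ S, ∃ i, s ∈ E i) →
    (∀ i, ∀ s ∈ S, ∀ t ∈ S, s ∈ E i → t ∈ E i → s = t) → OK φ S

/-- The norming set. -/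
inductive L (φ : (ℕ → ℕ) → (ℕ → Bool)) : (T →₀ ℝ) → Prop
  | base (s : T) (c : ℝ) (hc : |c| ≤ 1) : L φ (Finsupp.single s c)
  | step (g : ℕ → T →₀ ℝ) (J : Finset ℕ) (hg : ∀ j, L φ (g j))
      (ha : Adm φ (fun j => ((g j).support : Set T))) : L φ ((1 / 2 : ℝ) • ∑ j ∈ J, g j)

/-- the value of the functional `g` at the vector with the coordinates `a` -/
def ev (g : T →₀ ℝ) (a : T → ℝ) : ℝ := ∑ s ∈ g.support, g s * a s

/-- the norm of the vector with coordinates `a` is at most `R` -/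
def NormLE (φ : (ℕ → ℕ) → (ℕ → Bool)) (a : T → ℝ) (R : ℝ) : Prop := ∀ g, L φ g → |ev g a| ≤ R

/-- A family of vectors on which every admissible sequence of norming functionals tends to zero
uniformly. -/
def UL (φ : (ℕ → ℕ) → (ℕ → Bool)) (K : Set (T → ℝ)) : Prop :=
  ∀ g : ℕ → T →₀ ℝ, (∀ j, L φ (g j)) → Adm φ (fun j => ((g j).support : Set T)) →
    ∀ ε > 0, ∃ N, ∀ j ≥ N, ∀ a ∈ K, |ev (g j) a| ≤ ε

/-- For all `l` there are a vector of the family `K` and a norming functional above level `l`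
supported in `A` with value greater than `δ`. -/
def Big (φ : (ℕ → ℕ) → (ℕ → Bool)) (K : Set (T → ℝ)) (A : Set T) (δ : ℝ) : Prop :=
  ∀ l : ℕ, ∃ a ∈ K, ∃ g, L φ g ∧ (∀ s ∈ g.support, s ∈ A ∧ l < s.length) ∧ δ < ev g a

end Pool.Agent.Helper639.Tk
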