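import Pool.Agent.Helper639.Tk.Basic
import Pool.Agent.Helper639.Tk.Build

set_option linter.all false

open Set Filter Topology

namespace Pool.Agent.Helper639.Tk

variable {φ : (ℕ → ℕ) → (ℕ → Bool)}

theorem diffuse_res {x : ℕ → Bool} {m n : ℕ} (h : m ≤ n) : PiNat.res x m <:+ PiNat.res x n := by
  induction n, h using Nat.le_induction with
  | base => exact List.suffix_refl _
  | succ n _ ih => exact ih.trans (List.suffix_cons _ _)

theorem diffuse_eq {s t u : T} (hs : s <:+ u) (ht : t <:+ u) (h : s.length = t.length) : s = t := by
  have h1 : s <:+ t := List.suffix_of_suffix_length_le hs ht h.le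
  exact h1.eq_of_length h

/-- the diffuse part -/
theorem diffuse {K : Set (T → ℝ)} {δ : ℝ} (hU : UL φ K) (hδ : 0 < δ) (M : ℕ → ℕ)
    (hM : Monotone M)
    (h : ∀ N, ∃ a ∈ K, ∃ g, L φ g ∧ (∀ s ∈ g.support, N < s.length ∧
      ∃ y : ℕ → ℕ, (∀ i, y i ≤ M i) ∧ PiNat.res (φ y) (N + 1) <:+ s) ∧ δ < ev g a) : False := by
  classical
  obtain ⟨N, g, a, hN, hg⟩ := build (φ := φ) (K := K) (δ := δ)
    (fun j N => {s | M j ≤ s.length ∧ ∃ y : ℕ → ℕ, (∀ i, y i ≤ M i) ∧
      PiNat.res (φ y) (N + 1) <:+ s}) (by
    intro j N
    obtain ⟨a, ha, g, hL, hs, hd⟩ := h (max N (M j))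
    refine ⟨a, ha, g, hL, fun s hs' => ?_, hd⟩
    obtain ⟨h1, y, hy, hy2⟩ := hs s hs'
    refine ⟨lt_of_le_of_lt (le_max_left _ _) h1, (le_max_right _ _).trans h1.le, y, hy, ?_⟩
    exact (diffuse_res (Nat.succ_le_succ (le_max_left _ _))).trans hy2)
  have hlev : ∀ i j, i < j → ∀ s ∈ (g i).support, ∀ t ∈ (g j).support,
      s.length ≤ N j ∧ s.length < t.length := by
    intro i j hij s hs t ht
    have h1 := ((hg i).2.2.1 s hs).2.1
    have h2 := ((hg j).2.2.1 t ht).1
    have h3 : N (i + 1) ≤ N j := hN.monotone hij
    exact ⟨h1.trans h3, lt_of_le_of_lt (h1.trans h3) h2⟩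
  have hadm : Adm φ (fun j => ((g j).support : Set T)) := by
    refine ⟨fun i j hij s hs t ht => (hlev i j hij s hs t ht).2, fun S hS h1 h2 => ?_⟩
    rcases Nat.lt_or_ge 1 S.card with hc | hc
    · right
      have hne : S.Nonempty := Finset.card_pos.1 (by omega)
      obtain ⟨t, ht, hmax⟩ := Finset.exists_max_image S List.length hne
      obtain ⟨jt, hjt⟩ := h1 t ht
      obtain ⟨-, -, -, y, hy, hyt⟩ := (hg jt).2.2.1 t hjt
      refine ⟨y, ?_, ?_⟩
      · rintro s hs ⟨t', ht', hlt⟩
        have hst : s.length < t.length := lt_of_lt_of_le hlt (hmax t' ht')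
        obtain ⟨js, hjs⟩ := h1 s hs
        have hj : js < jt := by
          rcases lt_trichotomy js jt with hj | hj | hj
          · exact hj
          · subst hj
            have := h2 js s hs t ht hjs hjt
            subst this
            exact absurd hst (lt_irrefl _)
          · have := (hlev jt js hj t hjt s hjs).2
            omega
        have hlen : s.length ≤ N jt := (hlev js jt hj s hjs t hjt).1
        have hsuf : s <:+ t := hS s hs t ht hst.le
        have hr : PiNat.res (φ y) s.length <:+ t :=
          (diffuse_res (by omega)).trans hyt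
        exact diffuse_eq hr hsuf (by rw [PiNat.res_length])
      · intro s hs i hi
        obtain ⟨js, hjs⟩ := h1 s hs
        have hMs := ((hg js).2.2.1 s hjs).2.2.1
        have hcard : (S.filter (fun t => t.length < s.length)).card ≤ js := by
          choose! f hf using h1
          have := Finset.card_le_card_of_injOn (s := S.filter (fun t => t.length < s.length))
            (t := Finset.range js) f (by
              intro t' ht'
              rw [Finset.mem_coe, Finset.mem_filter] at ht'
              rw [Finset.mem_coe, Finset.mem_range]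
              have h5 := hf t' ht'.1
              rcases lt_trichotomy (f t') js with hj | hj | hj
              · exact hj
              · have h6 : t' ∈ ((g js).support : Set T) := by rw [← hj]; exact h5
                have := h2 js t' ht'.1 s hs h6 hjs
                rw [this] at ht'
                exact absurd ht'.2 (lt_irrefl _)
              · have := (hlev js (f t') hj s hjs t' h5).2
                omega) (by
              intro t1 ht1 t2 ht2 h12
              rw [Finset.mem_coe, Finset.mem_filter] at ht1 ht2
              have h5 := hf t1 ht1.1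
              have h6 := hf t2 ht2.1
              rw [h12] at h5
              exact h2 (f t2) t1 ht1.1 t2 ht2.1 h5 h6)
          simpa using this
        have h3 : i ≤ js := by omega
        exact ((hy i).trans (hM h3)).trans hMs
    · left
      intro s hs
      omega
  obtain ⟨N0, hN0⟩ := hU g (fun j => (hg j).1) hadm δ hδ
  have h1 := hN0 N0 le_rfl (a N0) (hg N0).2.1
  have h2 := (hg N0).2.2.2
  have h3 := le_abs_self (ev (g N0) (a N0))
  linarith

end Pool.Agent.Helper639.Tk
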