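import Pool.Agent.Helper639.Tk.Space
import Pool.Agent.Helper639.Tk.Bc

set_option linter.all false

open Set Filter Topology

namespace Pool.Agent.Helper639.Tk

variable {φ : (ℕ → ℕ) → (ℕ → Bool)}

/-- every bounded coordinate function is a vector of the space -/
theorem exists_of_bounded {a : T → ℝ} {R : ℝ} (h : NormLE φ a R) : ∃ f : X φ, co f = a := by
  classical
  have hex : ∀ n : ℕ, ∃ f : X φ, co f = fun s : T => if s.length < n then a s else 0 := by
    intro n
    obtain ⟨f, hf, -⟩ := exists_of_finite (φ := φ) (fun s : T => if s.length < n then a s else 0)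
      (List.finite_length_lt Bool n).toFinset (by
        intro s hs
        rw [Set.Finite.mem_toFinset]
        by_contra hne
        apply hs
        show (if s.length < n then a s else 0) = 0
        exact if_neg hne)
    exact ⟨f, hf⟩
  choose f hf using hex
  have hcau : CauchySeq f := by
    rw [Metric.cauchySeq_iff']
    intro ε hε
    obtain ⟨l, hl⟩ := bc h (half_pos hε)
    refine ⟨l, fun n hn => ?_⟩
    have hdist : dist (f n) (f l) = ‖f n - f l‖ := dist_eq_norm (f n) (f l)
    rw [hdist]
    refine lt_of_le_of_lt (norm_le_of (R := ε / 2) ?_) (half_lt_self hε)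
    intro g hg
    rw [co_sub]
    have h1 : co (f n) - co (f l) = fun s : T => if (l ≤ s.length ∧ s.length < n) then a s else 0 := by
      rw [hf, hf]
      funext s
      simp only [Pi.sub_apply]
      by_cases h1 : s.length < n
      · by_cases h2 : s.length < l
        · rw [if_pos h1, if_pos h2, if_neg (by omega), sub_self]
        · rw [if_pos h1, if_neg h2, if_pos ⟨by omega, h1⟩, sub_zero]
      · rw [if_neg h1, if_neg (by omega), if_neg (by omega), sub_zero]
    rw [h1, ← ev_filter g (fun s : T => l ≤ s.length ∧ s.length < n) a]
    refine hl _ (L_filter hg _) ?_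
    intro s hs
    rw [Finsupp.support_filter, Finset.mem_filter] at hs
    exact hs.2.1
  obtain ⟨F, hF⟩ := cauchySeq_tendsto_of_complete hcau
  refine ⟨F, ?_⟩
  funext s
  have h1 : Tendsto (fun n => coL s (f n)) atTop (𝓝 (coL s F)) := ((coL s).continuous.tendsto F).comp hF
  have h2 : Tendsto (fun n => coL s (f n)) atTop (𝓝 (a s)) := by
    refine tendsto_const_nhds.congr' ?_
    filter_upwards [eventually_gt_atTop s.length] with n hn
    rw [coL_apply, hf]
    simp only
    rw [if_pos hn]
  exact tendsto_nhds_unique h1 h2

end Pool.Agent.Helper639.Tk
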