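import Mathlib

open Set Filter Topology

namespace Pool.Agent.Helper639.Tk

open MeasureTheory in
/-- left end point of the interval of a node -/
noncomputable def measAux_a (m : List Bool → ℝ) : List Bool → ℝ
  | [] => 0
  | (b :: s) => measAux_a m s + (if b = true then m (false :: s) else 0)

open Classical in
/-- node of length `n` whose interval contains `t` -/
noncomputable def measAux_node (m : List Bool → ℝ) (t : ℝ) : ℕ → List Bool
  | 0 => []
  | (n + 1) => (decide (measAux_a m (measAux_node m t n) + m (false :: measAux_node m t n) ≤ t)) ::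
      measAux_node m t n

open Classical in
noncomputable def measAux_T (m : List Bool → ℝ) (t : ℝ) : ℕ → Bool :=
  fun n => decide (measAux_a m (measAux_node m t n) + m (false :: measAux_node m t n) ≤ t)

theorem measAux_res (m : List Bool → ℝ) (t : ℝ) (n : ℕ) :
    PiNat.res (measAux_T m t) n = measAux_node m t n := by
  induction n with
  | zero => rfl
  | succ n ih =>
    rw [PiNat.res_succ, ih]
    rfl

theorem measAux_mem (m : List Bool → ℝ) (hadd : ∀ s, m s = m (true :: s) + m (false :: s))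
    (t : ℝ) (ht : t ∈ Ico 0 (m [])) (n : ℕ) :
    t ∈ Ico (measAux_a m (measAux_node m t n)) (measAux_a m (measAux_node m t n) + m (measAux_node m t n)) := by
  induction n with
  | zero =>
    simpa [measAux_node, measAux_a] using ht
  | succ n ih =>
    set s := measAux_node m t n with hs
    by_cases h : measAux_a m s + m (false :: s) ≤ t
    · have e : measAux_node m t (n + 1) = true :: s := by
        show (decide (measAux_a m (measAux_node m t n) + m (false :: measAux_node m t n) ≤ t)) ::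
          measAux_node m t n = true :: s
        rw [← hs]
        simp [h]
      rw [e]
      have h2 := hadd s
      simp only [measAux_a, if_true, mem_Ico] at ih ⊢
      exact ⟨h, by linarith [ih.2]⟩
    · have e : measAux_node m t (n + 1) = false :: s := by
        show (decide (measAux_a m (measAux_node m t n) + m (false :: measAux_node m t n) ≤ t)) ::
          measAux_node m t n = false :: s
        rw [← hs]
        simp [h]
      rw [e]
      push Not at h
      simp only [measAux_a, mem_Ico] at ih ⊢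
      refine ⟨?_, ?_⟩
      · simpa using ih.1
      · simpa using h

theorem measAux_inj (m : List Bool → ℝ) (hadd : ∀ s, m s = m (true :: s) + m (false :: s))
    (hna : ∀ x : ℕ → Bool, ∀ ε > 0, ∃ k, m (PiNat.res x k) < ε) :
    Set.InjOn (measAux_T m) (Ico 0 (m [])) := by
  intro t ht t' ht' he
  by_contra hne
  have hpos : 0 < |t - t'| := abs_pos.mpr (sub_ne_zero.mpr hne)
  obtain ⟨k, hk⟩ := hna (measAux_T m t) _ hpos
  have h1 := measAux_mem m hadd t ht k
  have h2 := measAux_mem m hadd t' ht' k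
  rw [← measAux_res] at h1 h2
  rw [← he] at h2
  have : |t - t'| < m (PiNat.res (measAux_T m t) k) := by
    rw [abs_lt]
    constructor <;> linarith [h1.1, h1.2, h2.1, h2.2]
  linarith

open MeasureTheory in
theorem measAux_pos (φ : (ℕ → ℕ) → (ℕ → Bool))
    (hC : Cardinal.mk ((Set.range φ)ᶜ : Set (ℕ → Bool)) < Cardinal.continuum)
    (m : List Bool → ℝ) (hadd : ∀ s, m s = m (true :: s) + m (false :: s))
    (hpos : 0 < m []) (hna : ∀ x : ℕ → Bool, ∀ ε > 0, ∃ k, m (PiNat.res x k) < ε) :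
    0 < volume (Ico 0 (m []) ∩ measAux_T m ⁻¹' (φ '' univ)) := by
  rw [pos_iff_ne_zero]
  intro h0
  obtain ⟨N, hN1, hN2, hN3⟩ := exists_measurable_superset_of_null h0
  have hvol : volume (Ico 0 (m []) \ N) = ENNReal.ofReal (m []) := by
    rw [measure_sdiff_null hN3, Real.volume_Ico, sub_zero]
  have hlt : 0 < volume (Ico 0 (m []) \ N) := by
    rw [hvol]; exact ENNReal.ofReal_pos.mpr hpos
  obtain ⟨K, hK1, hK2, hK3⟩ := (measurableSet_Ico.diff hN2).exists_lt_isCompact hlt
  have hunc : ¬ K.Countable := fun hc => hK3.ne' (hc.measure_zero _)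
  obtain ⟨f, hf1, _, hf3⟩ := hK2.isClosed.exists_nat_bool_injection_of_not_countable hunc
  have hmem : ∀ x, measAux_T m (f x) ∈ ((Set.range φ)ᶜ : Set (ℕ → Bool)) := by
    intro x hx
    have h1 : f x ∈ Ico 0 (m []) \ N := hK1 (hf1 ⟨x, rfl⟩)
    exact h1.2 (hN1 ⟨h1.1, by simpa using hx⟩)
  have hinj : Function.Injective (fun x => (⟨measAux_T m (f x), hmem x⟩ : ((Set.range φ)ᶜ : Set (ℕ → Bool)))) := by
    intro x y hxy
    have h1 : f x ∈ Ico 0 (m []) \ N := hK1 (hf1 ⟨x, rfl⟩)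
    have h2 : f y ∈ Ico 0 (m []) \ N := hK1 (hf1 ⟨y, rfl⟩)
    have h3 : measAux_T m (f x) = measAux_T m (f y) := congrArg Subtype.val hxy
    exact hf3 (measAux_inj m hadd hna h1.1 h2.1 h3)
  have h4 := Cardinal.mk_le_of_injective hinj
  have h5 : Cardinal.mk (ℕ → Bool) = Cardinal.continuum := by simp
  rw [h5] at h4
  exact absurd hC (not_lt.mpr h4)

open MeasureTheory in
theorem measAux_step (φ : (ℕ → ℕ) → (ℕ → Bool)) (m : List Bool → ℝ) (c : ENNReal)
    (k : ℕ) (B : Set (ℕ → ℕ)) (p : ℕ) (h : c < volume (Ico 0 (m []) ∩ measAux_T m ⁻¹' (φ '' B))) :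
    ∃ j, p ≤ j ∧ c < volume (Ico 0 (m []) ∩ measAux_T m ⁻¹' (φ '' (B ∩ {y | y k ≤ j}))) := by
  have hmono : Monotone (fun j : ℕ => Ico 0 (m []) ∩ measAux_T m ⁻¹' (φ '' (B ∩ {y | y k ≤ j}))) := by
    intro i j hij
    refine inter_subset_inter_right _ (preimage_mono (image_mono (inter_subset_inter_right _ ?_)))
    intro y hy
    exact le_trans hy hij
  have hU : Ico 0 (m []) ∩ measAux_T m ⁻¹' (φ '' B) = ⋃ j : ℕ, Ico 0 (m []) ∩ measAux_T m ⁻¹' (φ '' (B ∩ {y | y k ≤ j})) := by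
    ext t
    simp only [mem_inter_iff, mem_preimage, mem_image, mem_iUnion, mem_setOf_eq]
    constructor
    · rintro ⟨h1, y, hy, hyt⟩
      exact ⟨y k, h1, y, ⟨hy, le_refl _⟩, hyt⟩
    · rintro ⟨j, h1, y, ⟨hy, _⟩, hyt⟩
      exact ⟨h1, y, hy, hyt⟩
  rw [hU, hmono.measure_iUnion] at h
  obtain ⟨j, hj⟩ := lt_iSup_iff.mp h
  exact ⟨max p j, le_max_left _ _, hj.trans_le (measure_mono (hmono (le_max_right _ _)))⟩

/-- compactness step -/
theorem measAux_compact (φ : (ℕ → ℕ) → (ℕ → Bool)) (hφ : Continuous φ) (M : ℕ → ℕ)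
    (k : ℕ) (S : Finset (List Bool))
    (hS : ∀ s : List Bool, s.length = k → (∃ y : ℕ → ℕ, (∀ i, y i ≤ M i) ∧
          PiNat.res (φ y) k = s) → s ∈ S) :
    ∃ j : ℕ, ∀ y : ℕ → ℕ, (∀ i < j, y i ≤ M i) → PiNat.res (φ y) k ∈ S := by
  by_contra hcon
  push Not at hcon
  choose y hy1 hy2 using hcon
  let y' : ℕ → ℕ → ℕ := fun j i => min (y j i) (M i)
  let U : Ultrafilter ℕ := Ultrafilter.of atTop
  have hU : (U : Filter ℕ) ≤ atTop := Ultrafilter.of_le _
  have hP : IsCompact (Set.pi univ (fun i => Iic (M i)) : Set (ℕ → ℕ)) :=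
    isCompact_univ_pi (fun i => (finite_Iic _).isCompact)
  have hmem : ∀ j, y' j ∈ (Set.pi univ (fun i => Iic (M i)) : Set (ℕ → ℕ)) := by
    intro j i _
    show min (y j i) (M i) ≤ M i
    exact min_le_right _ _
  obtain ⟨z, hz, hlim⟩ := hP.ultrafilter_le_nhds (U.map y') (by
    rw [le_principal_iff]
    exact Filter.mem_map.mpr (Filter.univ_mem' hmem))
  have hlim' : Tendsto y' U (𝓝 z) := hlim
  have hlim2 : Tendsto y U (𝓝 z) := by
    rw [tendsto_pi_nhds] at hlim' ⊢
    intro i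
    refine (hlim' i).congr' ?_
    have : ∀ᶠ j in (U : Filter ℕ), i < j := hU (eventually_gt_atTop i)
    filter_upwards [this] with j hj
    exact min_eq_left (hy1 j i hj)
  have hφlim : Tendsto (fun j => φ (y j)) U (𝓝 (φ z)) := (hφ.tendsto z).comp hlim2
  have hclosed : IsOpen {x : ℕ → Bool | PiNat.res x k = PiNat.res (φ z) k} := by
    have : {x : ℕ → Bool | PiNat.res x k = PiNat.res (φ z) k} = PiNat.cylinder (φ z) k := by
      rw [PiNat.cylinder_eq_res]
    rw [this]
    exact PiNat.isOpen_cylinder _ _ _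
  have hev : ∀ᶠ j in (U : Filter ℕ), PiNat.res (φ (y j)) k = PiNat.res (φ z) k :=
    hφlim (hclosed.mem_nhds rfl)
  have hzS : PiNat.res (φ z) k ∈ S := hS _ (PiNat.res_length _ _) ⟨z, fun i => hz i (mem_univ i), rfl⟩
  obtain ⟨j, hj⟩ := hev.exists
  exact hy2 j (hj ▸ hzS)

open MeasureTheory in
theorem measAux_bound (φ : (ℕ → ℕ) → (ℕ → Bool)) (m : List Bool → ℝ) (h0 : ∀ s, 0 ≤ m s)
    (hadd : ∀ s, m s = m (true :: s) + m (false :: s)) (B : Set (ℕ → ℕ)) (k : ℕ)
    (S : Finset (List Bool)) (h : ∀ y ∈ B, PiNat.res (φ y) k ∈ S) :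
    volume (Ico 0 (m []) ∩ measAux_T m ⁻¹' (φ '' B)) ≤ ENNReal.ofReal (∑ s ∈ S, m s) := by
  have hsub : Ico 0 (m []) ∩ measAux_T m ⁻¹' (φ '' B) ⊆ ⋃ s ∈ S, Ico (measAux_a m s) (measAux_a m s + m s) := by
    rintro t ⟨ht, y, hy, hyt⟩
    have h1 := measAux_mem m hadd t ht k
    rw [← measAux_res, ← hyt] at h1
    exact mem_biUnion (h y hy) h1
  refine (measure_mono hsub).trans ((measure_biUnion_finset_le _ _).trans ?_)
  rw [ENNReal.ofReal_sum_of_nonneg (fun s _ => h0 s)]
  refine Finset.sum_le_sum (fun s _ => ?_)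
  rw [Real.volume_Ico]
  simp

/-- Nodes of the binary tree are lists of Booleans, last entry first; `PiNat.res x n` is the list
`[x (n-1), ..., x 0]`. -/
theorem meas_lemma (φ : (ℕ → ℕ) → (ℕ → Bool)) (hφ : Continuous φ)
    (hC : Cardinal.mk ((Set.range φ)ᶜ : Set (ℕ → Bool)) < Cardinal.continuum)
    (m : List Bool → ℝ) (h0 : ∀ s, 0 ≤ m s) (hadd : ∀ s, m s = m (true :: s) + m (false :: s))
    (hpos : 0 < m []) (hna : ∀ x : ℕ → Bool, ∀ ε > 0, ∃ k, m (PiNat.res x k) < ε) :
    ∃ (M : ℕ → ℕ) (η : ℝ), 0 < η ∧ Monotone M ∧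
      ∀ (k : ℕ) (S : Finset (List Bool)), (∀ s ∈ S, s.length = k) →
        (∀ s : List Bool, s.length = k → (∃ y : ℕ → ℕ, (∀ i, y i ≤ M i) ∧
          PiNat.res (φ y) k = s) → s ∈ S) → η ≤ ∑ s ∈ S, m s := by
  have hc := measAux_pos φ hC m hadd hpos hna
  obtain ⟨c, hc0, hc1⟩ := exists_between hc
  have hcfin : c ≠ ⊤ := ne_top_of_lt hc1
  have step := fun (k : ℕ) (B : Set (ℕ → ℕ)) (p : ℕ) => measAux_step φ m c k B p
  choose! J hJ1 hJ2 using step
  let st : ℕ → Set (ℕ → ℕ) × ℕ := fun k =>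
    Nat.rec (univ, 0) (fun k s => (s.1 ∩ {y | y k ≤ J k s.1 s.2}, J k s.1 s.2)) k
  have hst : ∀ k, st (k + 1) = ((st k).1 ∩ {y | y k ≤ J k (st k).1 (st k).2}, J k (st k).1 (st k).2) :=
    fun k => rfl
  have hlt : ∀ k, c < MeasureTheory.volume (Ico 0 (m []) ∩ measAux_T m ⁻¹' (φ '' (st k).1)) := by
    intro k
    induction k with
    | zero => exact hc1
    | succ k ih =>
      rw [hst]
      exact hJ2 k _ _ ih
  let M : ℕ → ℕ := fun k => (st (k + 1)).2
  have hM : ∀ k, M k = J k (st k).1 (st k).2 := fun k => rfl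
  have hmem : ∀ k y, y ∈ (st k).1 → ∀ i < k, y i ≤ M i := by
    intro k
    induction k with
    | zero => intro y _ i hi; omega
    | succ k ih =>
      intro y hy i hi
      rw [hst] at hy
      rcases Nat.lt_succ_iff_lt_or_eq.mp hi with h | h
      · exact ih y hy.1 i h
      · subst h; rw [hM]; exact hy.2
  refine ⟨M, c.toReal, ENNReal.toReal_pos hc0.ne' hcfin, ?_, ?_⟩
  · refine monotone_nat_of_le_succ (fun k => ?_)
    exact hJ1 (k + 1) _ _ (hlt (k + 1))
  · intro k S hS1 hS2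
    obtain ⟨j, hj⟩ := measAux_compact φ hφ M k S hS2
    have h1 := measAux_bound φ m h0 hadd (st j).1 k S (fun y hy => hj y (hmem j y hy))
    have h2 := (hlt j).le.trans h1
    have h3 : 0 ≤ ∑ s ∈ S, m s := Finset.sum_nonneg (fun s _ => h0 s)
    exact (ENNReal.toReal_le_of_le_ofReal h3 h2)

end Pool.Agent.Helper639.Tk
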