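import Pool.Agent.Helper639.Tk.Basic
import Pool.Agent.Helper639.Tk.Build

set_option linter.all false

open Set Filter Topology

namespace Pool.Agent.Helper639.Tk

variable {φ : (ℕ → ℕ) → (ℕ → Bool)}

/-- branches of the analytic set carry nothing -/
theorem not_big_branch {K : Set (T → ℝ)} {δ : ℝ} (hU : UL φ K) (hδ : 0 < δ) (y : ℕ → ℕ) :
    ¬ Big φ K (br (φ y)) δ := by
  classical
  intro hBig
  let B : ℕ → ℕ → Set T := fun j _ => {s | Ext s (φ y) ∧ ∀ i ≤ j, y i ≤ s.length}
  have hB : ∀ j N : ℕ, ∃ a ∈ K, ∃ g, L φ g ∧ (∀ s ∈ g.support, N < s.length ∧ s ∈ B j N) ∧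
      δ < ev g a := by
    intro j N
    obtain ⟨a, ha, g, hg, hs, hev⟩ := hBig (max N ((Finset.range (j + 1)).sup y))
    refine ⟨a, ha, g, hg, fun s hs' => ?_, hev⟩
    obtain ⟨h1, h2⟩ := hs s hs'
    refine ⟨lt_of_le_of_lt (le_max_left _ _) h2, h1, fun i hi => ?_⟩
    have h3 : y i ≤ (Finset.range (j + 1)).sup y :=
      Finset.le_sup (f := y) (Finset.mem_range.2 (by omega))
    exact h3.trans ((le_max_right _ _).trans h2.le)
  obtain ⟨N, g, a, hN, hall⟩ := build B hB
  have hL : ∀ j, L φ (g j) := fun j => (hall j).1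
  have hsupp : ∀ j, ∀ s ∈ (g j).support, N j < s.length ∧ s.length ≤ N (j + 1) ∧ s ∈ B j (N j) :=
    fun j => (hall j).2.2.1
  have hlt : ∀ i j, i < j → ∀ s ∈ (g i).support, ∀ t ∈ (g j).support, s.length < t.length := by
    intro i j hij s hs t ht
    have h1 := (hsupp i s hs).2.1
    have h2 := (hsupp j t ht).1
    have h3 : N (i + 1) ≤ N j := hN.monotone hij
    omega
  have hadm : Adm φ (fun j => ((g j).support : Set T)) := by
    refine ⟨fun i j hij s hs t ht => hlt i j hij s hs t ht, ?_⟩
    intro S _ hcov hone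
    right
    refine ⟨y, fun s hs _ => ?_, fun s hs i hi => ?_⟩
    · obtain ⟨j, hj⟩ := hcov s hs
      exact (hsupp j s hj).2.2.1
    · obtain ⟨j, hj⟩ := hcov s hs
      have hidx : ∀ t, ∃ k, t ∈ S → t ∈ (g k).support := by
        intro t
        by_cases ht : t ∈ S
        · obtain ⟨k, hk⟩ := hcov t ht
          exact ⟨k, fun _ => hk⟩
        · exact ⟨0, fun h => absurd h ht⟩
      choose idx hidx using hidx
      have hcard : (S.filter (fun t => t.length < s.length)).card ≤ (Finset.range j).card := by
        apply Finset.card_le_card_of_injOn idx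
        · intro t ht
          rw [Finset.mem_coe, Finset.mem_filter] at ht
          obtain ⟨htS, htl⟩ := ht
          have h1 := hidx t htS
          rw [Finset.mem_coe, Finset.mem_range]
          rcases lt_trichotomy (idx t) j with h2 | h2 | h2
          · exact h2
          · exfalso
            rw [h2] at h1
            have h3 : t = s := hone j t htS s hs h1 hj
            rw [h3] at htl
            exact lt_irrefl _ htl
          · exfalso
            have h3 := hlt j (idx t) h2 s hj t h1
            omega
        · intro t ht t' ht' heq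
          rw [Finset.mem_coe, Finset.mem_filter] at ht ht'
          have h1 := hidx t ht.1
          have h2 := hidx t' ht'.1
          rw [← heq] at h2
          exact hone (idx t) t ht.1 t' ht'.1 h1 h2
      rw [Finset.card_range] at hcard
      exact (hsupp j s hj).2.2.2 i (by omega)
  obtain ⟨N0, hN0⟩ := hU g hL hadm δ hδ
  have h1 := hN0 N0 le_rfl (a N0) (hall N0).2.1
  have h2 := (hall N0).2.2.2
  have h3 := le_abs_self (ev (g N0) (a N0))
  linarith

end Pool.Agent.Helper639.Tk
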