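import Pool.Agent.Helper639.Tk.Basic
import Pool.Agent.Helper639.Tk.Build

set_option linter.all false

open Set Filter Topology

namespace Pool.Agent.Helper639.Tk

variable {φ : (ℕ → ℕ) → (ℕ → Bool)}

/-- cones over pairwise incomparable nodes -/
theorem not_big_cones {K : Set (T → ℝ)} {δ : ℝ} (hU : UL φ K) (hδ : 0 < δ) (t : ℕ → T)
    (ht : ∀ i j, i ≠ j → ¬ (t i <:+ t j)) : ∃ j, ¬ Big φ K {s | t j <:+ s} δ := by
  by_contra hcon
  push Not at hcon
  obtain ⟨N, g, a, hN, hg⟩ := build (φ := φ) (K := K) (δ := δ) (fun j _ => {s | t j <:+ s}) (by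
    intro j l
    obtain ⟨b, hb, f, hf, hs, hv⟩ := hcon j l
    exact ⟨b, hb, f, hf, fun s hs' => ⟨(hs s hs').2, (hs s hs').1⟩, hv⟩)
  have hmem : ∀ j s, s ∈ ((g j).support : Set T) → N j < s.length ∧ s.length ≤ N (j + 1) ∧
      t j <:+ s := by
    intro j s hs
    exact (hg j).2.2.1 s (by simpa using hs)
  have hAdm : Adm φ (fun j => ((g j).support : Set T)) := by
    refine ⟨?_, ?_⟩
    · intro i j hij s hs u hu
      have h1 := hmem i s hs
      have h2 := hmem j u hu
      have h3 : N (i + 1) ≤ N j := hN.monotone hij
      omega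
    · intro S hS h1 h2
      left
      have hcard : S.card ≤ 1 := by
        rw [Finset.card_le_one]
        intro s hs u hu
        obtain ⟨i, hi⟩ := h1 s hs
        obtain ⟨j, hj⟩ := h1 u hu
        by_cases hij : i = j
        · subst hij
          exact h2 i s hs u hu hi hj
        · exfalso
          have hi' := (hmem i s hi).2.2
          have hj' := (hmem j u hj).2.2
          rcases le_total s.length u.length with hle | hle
          · have h3 : t i <:+ u := hi'.trans (hS s hs u hu hle)
            rcases List.suffix_or_suffix_of_suffix h3 hj' with h4 | h4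
            · exact ht i j hij h4
            · exact ht j i (Ne.symm hij) h4
          · have h3 : t j <:+ s := hj'.trans (hS u hu s hs hle)
            rcases List.suffix_or_suffix_of_suffix h3 hi' with h4 | h4
            · exact ht j i (Ne.symm hij) h4
            · exact ht i j hij h4
      intro s _
      omega
  obtain ⟨M, hM⟩ := hU g (fun j => (hg j).1) hAdm δ hδ
  have h1 := hM M le_rfl (a M) (hg M).2.1
  have h2 := (hg M).2.2.2
  have h3 := le_abs_self (ev (g M) (a M))
  linarith

end Pool.Agent.Helper639.Tk
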