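import Pool.Agent.Helper639.Tk.Basic
import Pool.Agent.Helper639.Tk.Build

set_option linter.all false

open Set Filter Topology

namespace Pool.Agent.Helper639.Tk

variable {φ : (ℕ → ℕ) → (ℕ → Bool)}

theorem ext_of_suffix_res (x : ℕ → Bool) : ∀ (n : ℕ) (s : T), s <:+ PiNat.res x n → Ext s x := by
  intro n
  induction n with
  | zero =>
    intro s hs
    rw [PiNat.res_zero, List.suffix_nil] at hs
    subst hs
    rfl
  | succ n ih =>
    intro s hs
    rw [PiNat.res_succ, List.suffix_cons_iff] at hs
    rcases hs with hs | hs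
    · subst hs
      show PiNat.res x (x n :: PiNat.res x n).length = _
      rw [List.length_cons, PiNat.res_length, PiNat.res_succ]
    · exact ih s hs

/-- near a branch but off the branch -/
theorem not_big_off {K : Set (T → ℝ)} {δ : ℝ} (hU : UL φ K) (hδ : 0 < δ) (x : ℕ → Bool) :
    ∃ k, ¬ Big φ K {s | PiNat.res x k <:+ s ∧ ¬ Ext s x} δ := by
  by_contra hcon
  push Not at hcon
  obtain ⟨N, g, a, hN, hall⟩ := build (φ := φ) (K := K) (δ := δ)
    (fun _ N => {s | PiNat.res x (N + 1) <:+ s ∧ ¬ Ext s x}) (by
      intro j N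
      obtain ⟨a, ha, g, hg, hs, hd⟩ := hcon (N + 1) N
      exact ⟨a, ha, g, hg, fun s hss => ⟨(hs s hss).2, (hs s hss).1⟩, hd⟩)
  have key : ∀ i j, i < j → ∀ s ∈ (g i).support, ∀ t ∈ (g j).support, ¬ s <:+ t := by
    intro i j hij s hs t ht hst
    have h1 := (hall i).2.2.1 s hs
    have h2 := (hall j).2.2.1 t ht
    have h3 : N (i + 1) ≤ N j := hN.monotone hij
    have h4 : s <:+ PiNat.res x (N j + 1) := by
      refine List.suffix_of_suffix_length_le hst h2.2.2.1 ?_
      rw [PiNat.res_length]
      omega
    exact h1.2.2.2 (ext_of_suffix_res x _ s h4)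
  have hadm : Adm φ (fun j => ((g j).support : Set T)) := by
    refine ⟨?_, ?_⟩
    · intro i j hij s hs t ht
      have h1 := (hall i).2.2.1 s hs
      have h2 := (hall j).2.2.1 t ht
      have h3 : N (i + 1) ≤ N j := hN.monotone hij
      omega
    · intro S hS h1 h2
      left
      have hcard : S.card ≤ 1 := by
        rw [Finset.card_le_one]
        intro s hs t ht
        obtain ⟨i, hi⟩ := h1 s hs
        obtain ⟨j, hj⟩ := h1 t ht
        rcases lt_trichotomy i j with hij | hij | hij
        · exfalso
          have e1 := (hall i).2.2.1 s hi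
          have e2 := (hall j).2.2.1 t hj
          have h3 : N (i + 1) ≤ N j := hN.monotone hij
          exact key i j hij s hi t hj (hS s hs t ht (by omega))
        · subst hij
          exact h2 i s hs t ht hi hj
        · exfalso
          have e1 := (hall i).2.2.1 s hi
          have e2 := (hall j).2.2.1 t hj
          have h3 : N (j + 1) ≤ N i := hN.monotone hij
          exact key j i hij t hj s hi (hS t ht s hs (by omega))
      intro s hs
      omega
  obtain ⟨N0, hN0⟩ := hU g (fun j => (hall j).1) hadm δ hδ
  have h1 := hN0 N0 le_rfl (a N0) (hall N0).2.1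
  have h2 := (hall N0).2.2.2
  have h3 := le_abs_self (ev (g N0) (a N0))
  linarith

end Pool.Agent.Helper639.Tk
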