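import Pool.Agent.Helper639.Tk.TukDefs

set_option linter.all false

open Set Filter Topology

namespace Pool.Agent.Helper639.Tk


/-- If every uncountable family in `Q` has an infinite bounded subfamily, then `Q` is not above
`([C]^{<ω})^ℕ` for uncountable `C`. -/
theorem not_tukeyLE_of_bdd {C : Type} [Uncountable C] {Q : Type*} [Preorder Q]
    (hQ : ∀ f : C → Q, ∃ S : Set C, S.Infinite ∧ BddAbove (f '' S)) :
    ¬ TukeyLE (ℕ → Finset C) Q := by
  rintro ⟨f, hf⟩
  obtain ⟨S, hS, hb⟩ := hQ (fun x => f (fun _ => {x}))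
  have h1 : BddAbove ((fun x : C => (fun _ : ℕ => ({x} : Finset C))) '' S) := by
    by_contra h
    apply hf _ h
    rw [Set.image_image]
    exact hb
  obtain ⟨E, hE⟩ := h1
  apply hS
  apply (E 0).finite_toSet.subset
  intro x hx
  have h2 : (fun _ : ℕ => ({x} : Finset C)) ≤ E := hE ⟨x, hx, rfl⟩
  have h3 : ({x} : Finset C) ⊆ E 0 := h2 0
  exact Finset.singleton_subset_iff.1 h3

end Pool.Agent.Helper639.Tk
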