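import Pool.Agent.Helper639.Tk.TukDefs
import Pool.Agent.Helper639.Tk.Conv

set_option linter.all false

open Set Filter Topology

namespace Pool.Agent.Helper639.Tk


/-- If `|C| = ℵ₁ < 𝔠` then `[𝔠]^{<ω}` is not below `([C]^{<ω})^ℕ`. -/
theorem not_finset_tukeyLE {C : Type} (h1 : Cardinal.mk C = Cardinal.aleph 1)
    (h2 : Cardinal.aleph 1 < Cardinal.continuum.{0}) :
    ¬ TukeyLE (Finset ℝ) (ℕ → Finset C) := by
  classical
  rintro ⟨f, hf⟩
  -- a well ordering of `C` in type `ω₁`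
  obtain ⟨φ⟩ : Nonempty (C ≃ Set.Iio (Ordinal.omega 1 : Ordinal.{0})) := by
    rw [← Cardinal.lift_mk_eq', Cardinal.mk_Iio_ordinal, h1, Ordinal.card_omega]
    simp
  have hIio : ∀ a : Ordinal.{0}, a < Ordinal.omega 1 → {c : C | (φ c : Ordinal) ≤ a}.Countable := by
    intro a ha
    have ha1 : Order.succ a < Ordinal.omega 1 := by
      have hl : Order.IsSuccLimit (Cardinal.aleph 1 : Cardinal.{0}).ord :=
        Cardinal.isSuccLimit_ord (Cardinal.aleph0_le_aleph 1)
      rw [Cardinal.ord_aleph] at hl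
      exact hl.succ_lt ha
    have h3 : (Set.Iio (Order.succ a)).Countable := by
      rw [← Cardinal.le_aleph0_iff_set_countable, Cardinal.mk_Iio_ordinal]
      have h4 : (Order.succ a).card < Cardinal.aleph 1 := by
        rw [← Cardinal.lt_ord, Cardinal.ord_aleph]
        exact ha1
      have h5 : (Order.succ a).card ≤ Cardinal.aleph0 := by
        have : Cardinal.aleph 1 = Order.succ Cardinal.aleph0.{0} := by
          rw [← Cardinal.succ_aleph0]
        rw [this] at h4
        exact Order.lt_succ_iff.1 h4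
      exact Cardinal.lift_le_aleph0.2 h5
    have hinj : Function.Injective (fun c : C => (φ c : Ordinal)) := fun c c' h =>
      φ.injective (Subtype.ext h)
    have h6 := h3.preimage hinj
    refine h6.mono fun c hc => ?_
    have hc' : (φ c : Ordinal) ≤ a := hc
    exact Order.lt_succ_iff.2 hc'
  -- the supremum
  let G : ℝ → Set C := fun r => ⋃ n, (↑(f {r} n) : Set C)
  have hG : ∀ r, (G r).Countable := fun r => Set.countable_iUnion fun n => (f {r} n).countable_toSet
  have hsup : ∀ r, ∃ a : C, ∀ c ∈ G r, (φ c : Ordinal) ≤ φ a := by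
    intro r
    have : Countable (G r) := (hG r).to_subtype
    have hlt : (⨆ c : G r, (φ c.1 : Ordinal.{0})) < Ordinal.omega 1 :=
      Ordinal.iSup_lt_omega_one (fun c => (φ c.1).2)
    refine ⟨φ.symm ⟨_, hlt⟩, fun c hc => ?_⟩
    rw [Equiv.apply_symm_apply]
    exact Ordinal.le_iSup (fun c : G r => (φ c.1 : Ordinal.{0})) ⟨c, hc⟩
  choose a ha using hsup
  -- pigeonhole
  obtain ⟨α, hα⟩ : ∃ α : C, ¬ (a ⁻¹' {α}).Countable := by
    by_contra hcon
    push Not at hcon
    have h3 : (⋃ α, a ⁻¹' {α}) = (Set.univ : Set ℝ) := by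
      ext r
      simp
    have h4 := Cardinal.mk_iUnion_le (fun α : C => a ⁻¹' {α})
    rw [h3, Cardinal.mk_univ, Cardinal.mk_real, h1] at h4
    have h5 : (⨆ α : C, Cardinal.mk (a ⁻¹' {α})) ≤ Cardinal.aleph0 := by
      refine ciSup_le' fun α => ?_
      exact Cardinal.le_aleph0_iff_set_countable.2 (hcon α)
    have h6 : Cardinal.aleph 1 * (⨆ α : C, Cardinal.mk (a ⁻¹' {α})) ≤ Cardinal.aleph.{0} 1 :=
      calc Cardinal.aleph 1 * (⨆ α : C, Cardinal.mk (a ⁻¹' {α})) ≤
            Cardinal.aleph 1 * Cardinal.aleph0 := by gcongr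
        _ = Cardinal.aleph 1 := Cardinal.mul_aleph0_eq (Cardinal.aleph0_le_aleph 1)
    exact absurd (h4.trans h6) (not_le.2 h2)
  set R : Set ℝ := a ⁻¹' {α} with hR
  have hRunc : Uncountable R := by
    rw [← not_countable_iff]
    intro h
    exact hα (Set.countable_coe_iff.1 h)
  set I : Set C := {c | (φ c : Ordinal) ≤ φ α} with hI
  have hIc : I.Countable := hIio _ (φ α).2
  obtain ⟨j, hj⟩ := Set.countable_iff_exists_injOn.1 hIc
  obtain ⟨S, hS, b, hb⟩ := infinite_bdd_nat (fun (r : R) (n : ℕ) => (f {r.1} n).sup j)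
  have hfin : ∀ n, {c | c ∈ I ∧ j c ≤ b n}.Finite := by
    intro n
    refine Set.Finite.of_finite_image (f := j) ((Set.finite_Iic (b n)).subset ?_) ?_
    · rintro _ ⟨c, hc, rfl⟩
      exact hc.2
    · exact hj.mono fun c hc => hc.1
  let E : ℕ → Finset C := fun n => (hfin n).toFinset
  have hA : BddAbove ((fun r : R => ({r.1} : Finset ℝ)) '' S) := by
    by_contra hcon
    apply hf _ hcon
    refine ⟨E, ?_⟩
    rintro _ ⟨_, ⟨r, hr, rfl⟩, rfl⟩
    intro n c hc
    have hc' : c ∈ f {r.1} n := hc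
    rw [Set.Finite.mem_toFinset]
    refine ⟨?_, ?_⟩
    · have h3 := ha r.1 c (Set.mem_iUnion.2 ⟨n, hc'⟩)
      have h4 : a r.1 = α := r.2
      rw [h4] at h3
      exact h3
    · have h3 : (fun n : ℕ => (f {r.1} n).sup j) ≤ b := hb ⟨r, hr, rfl⟩
      exact (Finset.le_sup (f := j) hc').trans (h3 n)
  obtain ⟨F, hF⟩ := hA
  have hsub : (Subtype.val '' S) ⊆ (↑F : Set ℝ) := by
    rintro _ ⟨r, hr, rfl⟩
    have h3 : ({r.1} : Finset ℝ) ≤ F := hF ⟨r, hr, rfl⟩
    exact h3 (Finset.mem_singleton_self _)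
  have h7 : (Subtype.val '' S).Infinite := hS.image Subtype.val_injective.injOn
  exact h7 ((F.finite_toSet).subset hsub)

end Pool.Agent.Helper639.Tk
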