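import Mathlib

open Set Filter Topology

namespace Pool.Agent.Helper639.Tk

theorem schur_type_eval {V : Type*} [NormedAddCommGroup V] [NormedSpace ℝ V] (φ : V →L[ℝ] ℝ) :
    Continuous (fun w : WeakSpace ℝ V => φ ((toWeakSpace ℝ V).symm w)) :=
  WeakBilin.eval_continuous (topDualPairing ℝ V).flip φ

/-- A weakly compact set is mapped by a weakly unconditionally Cauchy sequence of functionals
uniformly to zero (the Schur property of `ℓ₁`). -/
theorem schur_type {V : Type*} [NormedAddCommGroup V] [NormedSpace ℝ V] (K : Set V)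
    (hK : IsCompact (toWeakSpace ℝ V '' K)) (g : ℕ → V →L[ℝ] ℝ) (M : ℝ)
    (hg : ∀ (f : V) (J : Finset ℕ), ∑ j ∈ J, |g j f| ≤ M * ‖f‖) (ε : ℝ) (hε : 0 < ε) :
    ∃ N, ∀ j ≥ N, ∀ f ∈ K, |g j f| ≤ ε := by
  classical
  by_contra hcon
  push Not at hcon
  choose j hj u hu hgu using hcon
  have hsum : ∀ f : V, Summable (fun i => |g i f|) := fun f =>
    summable_of_sum_le (fun _ => abs_nonneg _) (hg f)
  have htail : ∀ (f : V) (δ : ℝ), 0 < δ → ∃ N : ℕ, ∀ T : Finset ℕ, (∀ i ∈ T, N ≤ i) →
      ∑ i ∈ T, |g i f| ≤ δ := by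
    intro f δ hδ
    obtain ⟨s, hs⟩ := (summable_iff_vanishing_norm.1 (hsum f)) δ hδ
    refine ⟨s.sup id + 1, fun T hT => ?_⟩
    have hd : Disjoint T s := by
      rw [Finset.disjoint_left]
      intro i hi his
      have h1 := hT i hi
      have h2 : i ≤ s.sup id := Finset.le_sup (f := id) his
      omega
    have h3 := hs T hd
    rw [Real.norm_eq_abs] at h3
    exact (le_abs_self _).trans h3.le
  obtain ⟨w, ⟨f, hfK, rfl⟩, hw⟩ := hK.exists_mapClusterPt (f := atTop)
    (u := fun n => toWeakSpace ℝ V (u n)) (by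
      rw [le_principal_iff]
      exact Filter.mem_map.2 (Filter.univ_mem' fun n => ⟨u n, hu n, rfl⟩))
  rw [mapClusterPt_iff_frequently] at hw
  set η : ℝ := ε / 8 with hη
  have hη0 : 0 < η := by rw [hη]; linarith
  -- choose the subsequence
  obtain ⟨n, hP, hr⟩ := exists_seq_of_forall_finset_exists
    (fun x : ℕ => ∀ T : Finset ℕ, (∀ i ∈ T, j x ≤ i) → ∑ i ∈ T, |g i f| ≤ η)
    (fun x y : ℕ => j x < j y ∧ |g (j x) (u y) - g (j x) f| ≤ η * (1 / 2) ^ (j x + 1) ∧
      ∀ T : Finset ℕ, (∀ i ∈ T, j y ≤ i) → ∑ i ∈ T, |g i (u x)| ≤ η) (by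
      intro s _
      obtain ⟨N0, hN0⟩ := htail f η hη0
      choose Nt hNt using fun x : ℕ => htail (u x) η hη0
      have hopen : IsOpen {w : WeakSpace ℝ V | ∀ x ∈ s,
          |g (j x) ((toWeakSpace ℝ V).symm w) - g (j x) f| < η * (1 / 2) ^ (j x + 1)} := by
        have : {w : WeakSpace ℝ V | ∀ x ∈ s,
          |g (j x) ((toWeakSpace ℝ V).symm w) - g (j x) f| < η * (1 / 2) ^ (j x + 1)} =
          ⋂ x ∈ s, {w : WeakSpace ℝ V |
            |g (j x) ((toWeakSpace ℝ V).symm w) - g (j x) f| < η * (1 / 2) ^ (j x + 1)} := by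
          ext w; simp
        rw [this]
        refine isOpen_biInter_finset fun x _ => ?_
        exact isOpen_lt ((schur_type_eval (g (j x))).sub continuous_const).abs continuous_const
      have hfr := hw _ (hopen.mem_nhds (by
        intro x _
        simp only [LinearEquiv.symm_apply_apply, sub_self, abs_zero]
        positivity))
      obtain ⟨y, hy1, hy2⟩ := (hfr.and_eventually
        (eventually_ge_atTop (N0 + s.sup Nt + s.sup (fun x => j x + 1)))).exists
      refine ⟨y, ?_, ?_⟩
      · intro T hT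
        apply hN0 T
        intro i hi
        have h1 := hT i hi
        have h2 := hj y
        omega
      · intro x hx
        have h2 := hj y
        have h3 : Nt x ≤ s.sup Nt := Finset.le_sup hx
        have h4 : j x + 1 ≤ s.sup (fun x => j x + 1) := Finset.le_sup (f := fun x => j x + 1) hx
        refine ⟨by omega, ?_, ?_⟩
        · have h5 := hy1 x hx
          simp only [LinearEquiv.symm_apply_apply] at h5
          exact h5.le
        · intro T hT
          apply hNt x T
          intro i hi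
          have h1 := hT i hi
          omega)
  -- abbreviations
  set a : ℕ → ℕ := fun k => j (n k) with ha
  set v : ℕ → V := fun k => u (n k) with hv
  have hamono : StrictMono a := fun k l hkl => (hr k l hkl).1
  have hainj : Function.Injective a := hamono.injective
  set sg : ℕ → ℝ := fun k => if 0 ≤ g (a k) (v k) then 1 else -1 with hsg
  have hsg1 : ∀ k, |sg k| = 1 := by
    intro k
    simp only [hsg]
    split_ifs <;> simp
  have hsg2 : ∀ k, sg k * g (a k) (v k) = |g (a k) (v k)| := by
    intro k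
    simp only [hsg]
    split_ifs with h
    · rw [one_mul, abs_of_nonneg h]
    · rw [abs_of_neg (not_le.1 h)]; ring
  have habs : ∀ (x : V) (k : ℕ), |sg k * g (a k) x| = |g (a k) x| := by
    intro x k
    rw [abs_mul, hsg1, one_mul]
  have hfin : ∀ (x : V) (T : Finset ℕ), ∑ k ∈ T, |g (a k) x| = ∑ i ∈ T.image a, |g i x| := by
    intro x T
    rw [Finset.sum_image (fun _ _ _ _ h => hainj h)]
  have hS : ∀ x : V, Summable (fun k => sg k * g (a k) x) := by
    intro x
    apply Summable.of_norm
    refine summable_of_sum_le (c := M * ‖x‖) (fun _ => norm_nonneg _) fun T => ?_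
    have : ∑ k ∈ T, ‖sg k * g (a k) x‖ = ∑ k ∈ T, |g (a k) x| :=
      Finset.sum_congr rfl fun k _ => by rw [Real.norm_eq_abs, habs]
    rw [this, hfin]
    exact hg x _
  let ψl : V →ₗ[ℝ] ℝ :=
    { toFun := fun x => ∑' k, sg k * g (a k) x
      map_add' := by
        intro x y
        rw [← (hS x).tsum_add (hS y)]
        refine tsum_congr fun k => ?_
        rw [map_add]; ring
      map_smul' := by
        intro c x
        rw [RingHom.id_apply, smul_eq_mul, ← tsum_mul_left]
        refine tsum_congr fun k => ?_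
        rw [map_smul, smul_eq_mul]; ring }
  have hbd : ∀ x : V, ‖ψl x‖ ≤ M * ‖x‖ := by
    intro x
    have h1 : Summable (fun k => ‖sg k * g (a k) x‖) := (hS x).norm
    refine (norm_tsum_le_tsum_norm h1).trans ?_
    refine Real.tsum_le_of_sum_le (fun _ => norm_nonneg _) fun T => ?_
    have : ∑ k ∈ T, ‖sg k * g (a k) x‖ = ∑ k ∈ T, |g (a k) x| :=
      Finset.sum_congr rfl fun k _ => by rw [Real.norm_eq_abs, habs]
    rw [this, hfin]
    exact hg x _
  let ψ : V →L[ℝ] ℝ := ψl.mkContinuous M hbd
  have hψ : ∀ x, ψ x = ∑' k, sg k * g (a k) x := fun x => rfl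
  have hgeo : ∀ T : Finset ℕ, ∑ k ∈ T, η * (1 / 2) ^ (a k + 1) ≤ η := by
    intro T
    rw [← Finset.mul_sum]
    have h1 : ∑ k ∈ T, ((1 : ℝ) / 2) ^ (a k + 1) = ∑ i ∈ T.image a, (1 / 2) ^ (i + 1) := by
      rw [Finset.sum_image (fun _ _ _ _ h => hainj h)]
    have h2 : ∑ i ∈ T.image a, ((1 : ℝ) / 2) ^ (i + 1) ≤ 1 := by
      have h3 : Summable (fun i : ℕ => ((1 : ℝ) / 2) ^ (i + 1)) := by
        simp only [pow_succ]
        exact summable_geometric_two.mul_right _
      have h4 : ∑' i : ℕ, ((1 : ℝ) / 2) ^ (i + 1) = 1 := by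
        simp only [pow_succ]
        rw [tsum_mul_right, tsum_geometric_two]
        norm_num
      exact (h3.sum_le_tsum _ (fun i _ => by positivity)).trans h4.le
    rw [h1]
    nlinarith
  -- lower bound on the sequence
  have hlow : ∀ k, 5 * η ≤ ψ (v k) := by
    intro k
    rw [hψ]
    have hHS := (hS (v k)).hasSum
    refine ge_of_tendsto hHS ?_
    filter_upwards [eventually_ge_atTop ({k} : Finset ℕ)] with T hT
    have hkT : k ∈ T := hT (Finset.mem_singleton_self k)
    rw [← Finset.add_sum_erase T _ hkT, hsg2]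
    have h1 : ∑ l ∈ T.erase k, |g (a l) (v k)| ≤ 3 * η := by
      rw [← Finset.sum_filter_add_sum_filter_not (T.erase k) (fun l => l < k)]
      have h2 : ∑ l ∈ (T.erase k).filter (fun l => l < k), |g (a l) (v k)| ≤ 2 * η := by
        have h3 : ∑ l ∈ (T.erase k).filter (fun l => l < k), |g (a l) (v k)| ≤
            ∑ l ∈ (T.erase k).filter (fun l => l < k), (|g (a l) f| + η * (1 / 2) ^ (a l + 1)) := by
          refine Finset.sum_le_sum fun l hl => ?_
          have h4 := (hr l k (Finset.mem_filter.1 hl).2).2.1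
          have h5 := abs_sub_abs_le_abs_sub (g (a l) (v k)) (g (a l) f)
          have h6 : |g (a l) (v k) - g (a l) f| ≤ η * (1 / 2) ^ (a l + 1) := h4
          linarith
        rw [Finset.sum_add_distrib] at h3
        have h7 := hgeo ((T.erase k).filter (fun l => l < k))
        have h8 : ∑ l ∈ (T.erase k).filter (fun l => l < k), |g (a l) f| ≤ η := by
          rw [hfin]
          apply hP 0
          intro i hi
          obtain ⟨l, _, rfl⟩ := Finset.mem_image.1 hi
          exact hamono.monotone (Nat.zero_le l)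
        linarith
      have h9 : ∑ l ∈ (T.erase k).filter (fun l => ¬ l < k), |g (a l) (v k)| ≤ η := by
        rw [hfin]
        apply (hr k (k + 1) (Nat.lt_succ_self k)).2.2
        intro i hi
        obtain ⟨l, hl, rfl⟩ := Finset.mem_image.1 hi
        rw [Finset.mem_filter, Finset.mem_erase] at hl
        apply hamono.monotone
        omega
      linarith
    have h10 : |∑ l ∈ T.erase k, sg l * g (a l) (v k)| ≤ 3 * η := by
      refine (Finset.abs_sum_le_sum_abs _ _).trans ?_
      have : ∑ l ∈ T.erase k, |sg l * g (a l) (v k)| = ∑ l ∈ T.erase k, |g (a l) (v k)| :=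
        Finset.sum_congr rfl fun l _ => habs _ _
      rw [this]; exact h1
    have h11 : ε < |g (a k) (v k)| := hgu (n k)
    have h12 := (abs_le.1 h10).1
    have h13 : ε = 8 * η := by rw [hη]; ring
    linarith
  -- cluster point of the subsequence
  obtain ⟨w', ⟨h, hhK, rfl⟩, hw'⟩ := hK.exists_mapClusterPt (f := atTop)
    (u := fun k => toWeakSpace ℝ V (v k)) (by
      rw [le_principal_iff]
      exact Filter.mem_map.2 (Filter.univ_mem' fun k => ⟨v k, hu (n k), rfl⟩))
  rw [mapClusterPt_iff_frequently] at hw'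
  -- a closed condition satisfied eventually holds at the cluster point
  have hclus : ∀ (φ : V →L[ℝ] ℝ) (A : Set ℝ), IsClosed A → (∀ᶠ k in atTop, φ (v k) ∈ A) →
      φ h ∈ A := by
    intro φ A hA hev
    by_contra hnot
    have hopen : IsOpen {w : WeakSpace ℝ V | φ ((toWeakSpace ℝ V).symm w) ∈ Aᶜ} :=
      hA.isOpen_compl.preimage (schur_type_eval φ)
    have hfr := hw' _ (hopen.mem_nhds (by
      change φ ((toWeakSpace ℝ V).symm (toWeakSpace ℝ V h)) ∈ Aᶜ
      rw [LinearEquiv.symm_apply_apply]
      exact hnot))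
    obtain ⟨k, hk1, hk2⟩ := (hfr.and_eventually hev).exists
    change φ ((toWeakSpace ℝ V).symm (toWeakSpace ℝ V (v k))) ∈ Aᶜ at hk1
    rw [LinearEquiv.symm_apply_apply] at hk1
    exact hk1 hk2
  have hlow2 : 5 * η ≤ ψ h := hclus ψ (Ici (5 * η)) isClosed_Ici
    (Filter.Eventually.of_forall hlow)
  have hclose : ∀ l, |g (a l) h - g (a l) f| ≤ η * (1 / 2) ^ (a l + 1) := by
    intro l
    have h1 := hclus (g (a l)) {y : ℝ | |y - g (a l) f| ≤ η * (1 / 2) ^ (a l + 1)}
      (isClosed_le ((continuous_id.sub continuous_const).abs) continuous_const) (by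
        filter_upwards [eventually_gt_atTop l] with k hk
        exact (hr l k hk).2.1)
    exact h1
  have hup : ψ h ≤ 2 * η := by
    rw [hψ]
    have hHS := (hS h).hasSum
    refine le_of_tendsto hHS (Filter.Eventually.of_forall fun T => ?_)
    have h1 : ∑ l ∈ T, sg l * g (a l) h ≤ ∑ l ∈ T, (|g (a l) f| + η * (1 / 2) ^ (a l + 1)) := by
      refine Finset.sum_le_sum fun l _ => ?_
      have h2 := le_abs_self (sg l * g (a l) h)
      rw [habs] at h2
      have h3 := abs_sub_abs_le_abs_sub (g (a l) h) (g (a l) f)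
      have h4 := hclose l
      linarith
    rw [Finset.sum_add_distrib] at h1
    have h7 := hgeo T
    have h8 : ∑ l ∈ T, |g (a l) f| ≤ η := by
      rw [hfin]
      apply hP 0
      intro i hi
      obtain ⟨l, _, rfl⟩ := Finset.mem_image.1 hi
      exact hamono.monotone (Nat.zero_le l)
    linarith
  linarith

end Pool.Agent.Helper639.Tk
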