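import Pool.Agent.Helper639.Tk.Space

set_option linter.all false

open Set Filter Topology

namespace Pool.Agent.Helper639.Tk

variable {φ : (ℕ → ℕ) → (ℕ → Bool)}

theorem separable_X : TopologicalSpace.SeparableSpace (X φ) := by
  have h1 : (Set.range (uv φ)).Countable := Set.countable_range _
  have h2 : TopologicalSpace.IsSeparable (Set.range (uv φ)) := h1.isSeparable
  have h3 : TopologicalSpace.IsSeparable
      ((Submodule.span ℝ (Set.range (uv φ)) :
        Submodule ℝ (BoundedContinuousFunction (LT φ) ℝ)) :
        Set (BoundedContinuousFunction (LT φ) ℝ)) := h2.span (R := ℝ)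
  have h4 := h3.closure
  exact h4.separableSpace

end Pool.Agent.Helper639.Tk
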