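import Pool.Agent.Helper639.Tk.Basic
import Pool.Agent.Helper639.Tk.Averaging

set_option linter.all false

open Set Filter Topology

namespace Pool.Agent.Helper639.Tk

variable {φ : (ℕ → ℕ) → (ℕ → Bool)}

/-- Iterated averaging. -/
theorem small_means (hφ : Continuous φ) (D : Finset (ℕ → Bool)) (hD : ∀ x ∈ D, x ∉ Set.range φ)
    (k : ℕ) (u : ℕ → T → ℝ) (p q : ℕ → ℕ) (hpq : ∀ j, p j ≤ q j ∧ q j < p (j + 1))
    (hu : ∀ j s, u j s ≠ 0 → p j ≤ s.length ∧ s.length ≤ q j ∧ ∃ x ∈ D, Ext s x)
    (hρ : ∀ j, NormLE φ (u j) 1) (N : ℕ) :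
    ∃ (J : Finset ℕ) (c : ℕ → ℝ), (∀ j ∈ J, N ≤ j) ∧ (∀ j, 0 ≤ c j) ∧ ∑ j ∈ J, c j = 1 ∧
      NormLE φ (fun s => ∑ j ∈ J, c j * u j s) ((3 / 4) ^ k) := by
  classical
  have hpm : StrictMono p := strictMono_nat_of_lt_succ fun j => (hpq j).1.trans_lt (hpq j).2
  have hqm : StrictMono q := strictMono_nat_of_lt_succ fun j => (hpq j).2.trans_le (hpq (j + 1)).1
  induction k generalizing N with
  | zero =>
    refine ⟨{N}, fun _ => 1, by simp, fun _ => zero_le_one, by simp, ?_⟩
    have h1 : (fun s => ∑ j ∈ ({N} : Finset ℕ), (1 : ℝ) * u j s) = u N := by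
      funext s
      simp
    rw [h1, pow_zero]
    exact hρ N
  | succ k ih =>
    choose JJ cc hJN hcc hsum hnorm using ih
    let M : ℕ → ℕ := fun i => Nat.rec N (fun _ n => (JJ n).sup id + 1) i
    have hM0 : M 0 = N := rfl
    have hMs : ∀ i, M (i + 1) = (JJ (M i)).sup id + 1 := fun i => rfl
    have hJmem : ∀ i, ∀ j ∈ JJ (M i), M i ≤ j ∧ j ≤ (JJ (M i)).sup id := by
      intro i j hj
      exact ⟨hJN (M i) j hj, Finset.le_sup (f := id) hj⟩
    have hJne : ∀ i, (JJ (M i)).Nonempty := by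
      intro i
      rw [Finset.nonempty_iff_ne_empty]
      intro h
      have h1 := hsum (M i)
      rw [h, Finset.sum_empty] at h1
      exact zero_ne_one h1
    have hMle : ∀ i, M i ≤ (JJ (M i)).sup id := by
      intro i
      obtain ⟨j, hj⟩ := hJne i
      exact (hJmem i j hj).1.trans (hJmem i j hj).2
    have hMm : StrictMono M := strictMono_nat_of_lt_succ fun i => by
      rw [hMs]
      have := hMle i
      omega
    obtain ⟨I, d, -, hd, hds, hdn⟩ := averaging hφ D hD (ρ := (3 / 4) ^ k)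
      (fun i s => ∑ j ∈ JJ (M i), cc (M i) j * u j s) (fun i => p (M i))
      (fun i => q ((JJ (M i)).sup id))
      (fun i => ⟨(hpm.monotone (hMle i)).trans (hpq _).1, by
        show q ((JJ (M i)).sup id) < p (M (i + 1))
        rw [hMs]
        exact (hpq _).2⟩)
      (by
        intro i s hs
        obtain ⟨j, hj, hjs⟩ := Finset.exists_ne_zero_of_sum_ne_zero hs
        have hjs' : u j s ≠ 0 := right_ne_zero_of_mul hjs
        obtain ⟨h1, h2, h3⟩ := hu j s hjs'
        obtain ⟨h4, h5⟩ := hJmem i j hj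
        exact ⟨(hpm.monotone h4).trans h1, h2.trans (hqm.monotone h5), h3⟩)
      (fun i => hnorm (M i)) 0
    have hswap : ∀ w : ℕ → ℝ, ∑ j ∈ I.biUnion (fun i => JJ (M i)),
        (∑ i ∈ I, d i * (if j ∈ JJ (M i) then cc (M i) j else 0)) * w j =
        ∑ i ∈ I, d i * ∑ j ∈ JJ (M i), cc (M i) j * w j := by
      intro w
      simp only [Finset.sum_mul]
      rw [Finset.sum_comm]
      refine Finset.sum_congr rfl fun i hi => ?_
      rw [Finset.mul_sum]
      have hsub : JJ (M i) ⊆ I.biUnion (fun i => JJ (M i)) :=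
        Finset.subset_biUnion_of_mem (fun i => JJ (M i)) hi
      rw [← Finset.sum_subset hsub]
      · refine Finset.sum_congr rfl fun j hj => ?_
        rw [if_pos hj]
        ring
      · intro j _ hj
        rw [if_neg hj]
        ring
    refine ⟨I.biUnion (fun i => JJ (M i)),
      fun j => ∑ i ∈ I, d i * (if j ∈ JJ (M i) then cc (M i) j else 0), ?_, ?_, ?_, ?_⟩
    · intro j hj
      obtain ⟨i, -, hji⟩ := Finset.mem_biUnion.1 hj
      have h1 : N ≤ M i := by
        rw [← hM0]
        exact hMm.monotone (Nat.zero_le i)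
      exact h1.trans (hJmem i j hji).1
    · intro j
      refine Finset.sum_nonneg fun i _ => mul_nonneg (hd i) ?_
      split_ifs
      · exact hcc _ _
      · exact le_rfl
    · have h1 := hswap (fun _ => 1)
      simp only [mul_one] at h1
      rw [h1]
      simp only [hsum, mul_one]
      exact hds
    · have h1 : (fun s => ∑ j ∈ I.biUnion (fun i => JJ (M i)),
          (∑ i ∈ I, d i * (if j ∈ JJ (M i) then cc (M i) j else 0)) * u j s) =
          fun s => ∑ i ∈ I, d i * ∑ j ∈ JJ (M i), cc (M i) j * u j s := by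
        funext s
        exact hswap (fun j => u j s)
      rw [h1, pow_succ']
      exact hdn

end Pool.Agent.Helper639.Tk
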