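import Pool.Agent.Helper639.Tk.Space
import Pool.Agent.Helper639.Tk.Bc
import Pool.Agent.Helper639.Tk.ExB
import Pool.Agent.Helper639.Tk.SmallMeans

set_option linter.all false

open Set Filter Topology

namespace Pool.Agent.Helper639.Tk

variable {φ : (ℕ → ℕ) → (ℕ → Bool)}

theorem psi_bound (ψ : X φ →L[ℝ] ℝ) : ∃ C : ℝ, 0 < C ∧ ∀ f : X φ, |ψ f| ≤ C * ‖f‖ := by
  obtain ⟨δ, hδ, h⟩ := Metric.continuous_iff.1 ψ.continuous 0 1 one_pos
  refine ⟨2 / δ, by positivity, fun f => ?_⟩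
  by_cases hf : ‖f‖ = 0
  · have h0' : ‖f.1‖ = 0 := hf
    have h0 : f = 0 := Subtype.ext (norm_eq_zero.1 h0')
    have : ψ f = 0 := by rw [h0]; exact map_zero ψ
    rw [this, hf]; simp
  · have hf' : 0 < ‖f‖ := lt_of_le_of_ne (norm_nonneg f.1) (Ne.symm hf)
    have h1 : dist ((δ / (2 * ‖f‖)) • f) 0 < δ := by
      have e0 : dist ((δ / (2 * ‖f‖)) • f) 0 = dist ((δ / (2 * ‖f‖)) • f.1) 0 := rfl
      have e1 : ‖f.1‖ = ‖f‖ := rfl
      rw [e0, dist_zero_right, norm_smul, Real.norm_eq_abs, abs_of_pos (by positivity), e1]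
      have : δ / (2 * ‖f‖) * ‖f‖ = δ / 2 := by field_simp
      rw [this]; linarith
    have h2 := h _ h1
    have h3 : ψ ((δ / (2 * ‖f‖)) • f) = (δ / (2 * ‖f‖)) * ψ f := ψ.map_smul _ _
    have h4 : ψ 0 = 0 := map_zero ψ
    rw [h3, h4, Real.dist_eq, sub_zero, abs_mul, abs_of_pos (by positivity)] at h2
    have h5 : |ψ f| < 2 * ‖f‖ / δ := by
      rw [lt_div_iff₀ hδ]
      rw [div_mul_eq_mul_div, div_lt_one (by positivity)] at h2
      linarith
    rw [div_mul_eq_mul_div]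
    exact h5.le

theorem sh_trunc (D : Finset (ℕ → Bool)) (ψ : X φ →L[ℝ] ℝ) {ε : ℝ} (hε : 0 < ε) (l : ℕ) (f : X φ)
    (hf : ‖f‖ ≤ 1) (hs : ∀ s, co f s ≠ 0 → l ≤ s.length ∧ ∃ x ∈ D, Ext s x) (hψ : ε < ψ f) :
    ∃ (m : ℕ) (F : X φ), l ≤ m ∧ NormLE φ (co F) 1 ∧
      (∀ s, co F s ≠ 0 → l ≤ s.length ∧ s.length ≤ m ∧ ∃ x ∈ D, Ext s x) ∧ ε / 2 ≤ ψ F := by
  classical
  obtain ⟨C, hC, hCb⟩ := psi_bound ψ
  have hε' : 0 < ε / (2 * C) := by positivity
  obtain ⟨m0, hm0⟩ := bc (normLE_co f) hε'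
  set m := max m0 l with hm
  have hNf : NormLE φ (co f) 1 := fun g hg => (normLE_co f g hg).trans hf
  have h1 : NormLE φ (fun s => if s.length < m then co f s else 0) 1 := by
    intro g hg
    rw [← ev_filter g (fun s => s.length < m)]
    exact hNf _ (L_filter hg _)
  obtain ⟨F, hF⟩ := exists_of_bounded h1
  have h2 : ‖f - F‖ ≤ ε / (2 * C) := by
    apply norm_le_of
    intro g hg
    have h3 : co (f - F) = fun s => if ¬ s.length < m then co f s else 0 := by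
      rw [co_sub, hF]
      ext s
      simp only [Pi.sub_apply]
      by_cases hsm : s.length < m <;> simp [hsm]
    rw [h3, ← ev_filter g (fun s => ¬ s.length < m)]
    apply hm0 _ (L_filter hg _)
    intro s hs'
    rw [Finsupp.support_filter, Finset.mem_filter] at hs'
    have := not_lt.1 hs'.2
    exact (le_max_left m0 l).trans this
  refine ⟨m, F, le_max_right _ _, by rw [hF]; exact h1, ?_, ?_⟩
  · intro s hs'
    rw [hF] at hs'
    simp only [ne_eq, ite_eq_right_iff, not_forall] at hs'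
    obtain ⟨h4, h5⟩ := hs'
    obtain ⟨h6, h7⟩ := hs s h5
    exact ⟨h6, h4.le, h7⟩
  · have h8 : ψ f - ψ F ≤ ε / 2 := by
      have h9 : ψ (f - F) = ψ f - ψ F := by
        have e1 : (f - F) + F = f := by
          apply co_ext
          rw [co_add, co_sub]
          simp
        have e2 : ψ ((f - F) + F) = ψ (f - F) + ψ F := ψ.map_add _ _
        rw [e1] at e2
        linarith
      rw [← h9]
      calc ψ (f - F) ≤ |ψ (f - F)| := le_abs_self _
        _ ≤ C * ‖f - F‖ := hCb _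
        _ ≤ C * (ε / (2 * C)) := mul_le_mul_of_nonneg_left h2 hC.le
        _ = ε / 2 := by field_simp
    linarith

/-- finitely many branches outside the analytic set: functionals have small tails -/
theorem sh (hφ : Continuous φ) (D : Finset (ℕ → Bool)) (hD : ∀ x ∈ D, x ∉ Set.range φ)
    (ψ : X φ →L[ℝ] ℝ) {ε : ℝ} (hε : 0 < ε) :
    ∃ l : ℕ, ∀ f : X φ, ‖f‖ ≤ 1 → (∀ s, co f s ≠ 0 → l ≤ s.length ∧ ∃ x ∈ D, Ext s x) →
      |ψ f| ≤ ε := by
  by_contra hcon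
  push Not at hcon
  have h1 : ∀ l : ℕ, ∃ (m : ℕ) (F : X φ), l ≤ m ∧ NormLE φ (co F) 1 ∧
      (∀ s, co F s ≠ 0 → l ≤ s.length ∧ s.length ≤ m ∧ ∃ x ∈ D, Ext s x) ∧ ε / 2 ≤ ψ F := by
    intro l
    obtain ⟨f, hf, hs, hψ⟩ := hcon l
    rcases le_total 0 (ψ f) with h0 | h0
    · rw [abs_of_nonneg h0] at hψ
      exact sh_trunc D ψ hε l f hf hs hψ
    · rw [abs_of_nonpos h0] at hψ
      have hn : ‖-f‖ = ‖f‖ := norm_neg f
      have hm : ψ (-f) = - ψ f := ψ.map_neg f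
      refine sh_trunc D ψ hε l (-f) (by rw [hn]; exact hf) ?_ (by rw [hm]; exact hψ)
      intro s hs'
      apply hs s
      intro h2
      apply hs'
      have h3 : co (-f) s = - co f s := rfl
      rw [h3, h2, neg_zero]
  choose ml Fl hml hN hsupp hψ using h1
  let p : ℕ → ℕ := fun j => Nat.rec 0 (fun _ x => ml x + 1) j
  have hp : ∀ j, p (j + 1) = ml (p j) + 1 := fun j => rfl
  obtain ⟨C, hC, hCb⟩ := psi_bound ψ
  obtain ⟨k, hk⟩ : ∃ k : ℕ, (3 / 4 : ℝ) ^ k < ε / (2 * C) :=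
    exists_pow_lt_of_lt_one (by positivity) (by norm_num)
  obtain ⟨J, c, -, hc0, hc1, hJ⟩ := small_means hφ D hD k (fun j => co (Fl (p j))) p
    (fun j => ml (p j)) (fun j => ⟨hml _, by rw [hp]; exact Nat.lt_succ_self _⟩)
    (fun j s hs => hsupp (p j) s hs) (fun j => hN (p j)) 0
  set f : X φ := ∑ j ∈ J, c j • Fl (p j) with hf
  have hcof : co f = fun s => ∑ j ∈ J, c j * co (Fl (p j)) s := by
    ext s
    rw [← coL_apply, hf, map_sum]
    apply Finset.sum_congr rfl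
    intro j _
    rw [map_smul, smul_eq_mul, coL_apply]
  have h4 : ‖f‖ ≤ (3 / 4) ^ k := by
    apply norm_le_of
    rw [hcof]
    exact hJ
  have h5 : ε / 2 ≤ ψ f := by
    have h6 : ψ f = ∑ j ∈ J, c j * ψ (Fl (p j)) := by
      rw [hf, map_sum]
      apply Finset.sum_congr rfl
      intro j _
      rw [map_smul, smul_eq_mul]
    rw [h6]
    calc ε / 2 = ∑ j ∈ J, c j * (ε / 2) := by rw [← Finset.sum_mul, hc1, one_mul]
      _ ≤ ∑ j ∈ J, c j * ψ (Fl (p j)) :=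
        Finset.sum_le_sum fun j _ => mul_le_mul_of_nonneg_left (hψ (p j)) (hc0 j)
  have h7 : ψ f < ε / 2 := by
    calc ψ f ≤ |ψ f| := le_abs_self _
      _ ≤ C * ‖f‖ := hCb _
      _ ≤ C * (3 / 4) ^ k := mul_le_mul_of_nonneg_left h4 hC.le
      _ < C * (ε / (2 * C)) := mul_lt_mul_of_pos_left hk hC
      _ = ε / 2 := by field_simp
  linarith

end Pool.Agent.Helper639.Tk
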