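import Pool.Agent.Helper639.Tk.Basic

open Set Filter Topology

namespace Pool.Agent.Helper639.Tk

variable {φ : (ℕ → ℕ) → (ℕ → Bool)}

/-! ### The Banach space -/

/-- the norming functionals, as a discrete space -/
structure LT (φ : (ℕ → ℕ) → (ℕ → Bool)) : Type where
  val : T →₀ ℝ
  property : L φ val

instance : TopologicalSpace (LT φ) := ⊥

instance : DiscreteTopology (LT φ) := ⟨rfl⟩

/-- the unit vector at the node `s`, as a bounded function on the norming functionals -/
noncomputable def uv (φ : (ℕ → ℕ) → (ℕ → Bool)) (s : T) : BoundedContinuousFunction (LT φ) ℝ :=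
  BoundedContinuousFunction.ofNormedAddCommGroup (fun g : LT φ => g.1 s)
    continuous_of_discreteTopology 1 (fun g => L_abs_le g.2 s)

/-- The Banach space: the closed linear span of the unit vectors, with the norm
`‖f‖ = sup |g f|` over the norming functionals `g`. -/
noncomputable def X (φ : (ℕ → ℕ) → (ℕ → Bool)) :
    Submodule ℝ (BoundedContinuousFunction (LT φ) ℝ) :=
  (Submodule.span ℝ (Set.range (uv φ))).topologicalClosure

instance : CompleteSpace (X φ) :=
  (Submodule.isClosed_topologicalClosure _).completeSpace_coe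

/-- the coordinate functional at `s` as a norming functional -/
noncomputable def cf (φ : (ℕ → ℕ) → (ℕ → Bool)) (s : T) : LT φ :=
  ⟨Finsupp.single s 1, L.base s 1 (by simp)⟩

/-- the coordinates of a vector -/
noncomputable def co (f : X φ) : T → ℝ := fun s => f.1 (cf φ s)

theorem co_add (f g : X φ) : co (f + g) = co f + co g := rfl

theorem co_sub (f g : X φ) : co (f - g) = co f - co g := rfl

theorem co_smul (c : ℝ) (f : X φ) : co (c • f) = c • co f := rfl

theorem co_zero : co (0 : X φ) = 0 := rfl

theorem uv_apply (s : T) (g : LT φ) : uv φ s g = g.1 s := rfl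

/-- the value of a vector at a norming functional is given by the coordinates -/
theorem apply_eq_ev (f : X φ) (g : LT φ) : f.1 g = ev g.1 (co f) := by
  have hcl : IsClosed {u : BoundedContinuousFunction (LT φ) ℝ |
      u g = ∑ s ∈ g.1.support, g.1 s * u (cf φ s)} := by
    refine isClosed_eq (BoundedContinuousFunction.evalCLM ℝ g).continuous ?_
    refine continuous_finsetSum _ fun s _ => ?_
    exact continuous_const.mul (BoundedContinuousFunction.evalCLM ℝ (cf φ s)).continuous
  have hsub : ((Submodule.span ℝ (Set.range (uv φ)) : Submodule ℝ _) : Set _) ⊆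
      {u : BoundedContinuousFunction (LT φ) ℝ |
        u g = ∑ s ∈ g.1.support, g.1 s * u (cf φ s)} := by
    intro u hu
    induction hu using Submodule.span_induction with
    | mem u hu =>
      obtain ⟨t, rfl⟩ := hu
      simp only [Set.mem_ofPred_eq, uv_apply, cf]
      classical
      by_cases ht : t ∈ g.1.support
      · rw [Finset.sum_eq_single_of_mem t ht]
        · simp
        · intro s _ hst
          rw [Finsupp.single_apply, if_neg hst, mul_zero]
      · rw [Finsupp.notMem_support_iff.1 ht, Finset.sum_eq_zero]
        intro s hs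
        rw [Finsupp.single_apply, if_neg, mul_zero]
        rintro rfl; exact ht hs
    | zero => simp
    | add u v _ _ hu hv =>
      simp only [Set.mem_ofPred_eq, BoundedContinuousFunction.coe_add, Pi.add_apply] at *
      rw [hu, hv, ← Finset.sum_add_distrib]
      exact Finset.sum_congr rfl fun s _ => by ring
    | smul c u _ hu =>
      simp only [Set.mem_ofPred_eq, BoundedContinuousFunction.coe_smul, smul_eq_mul] at *
      rw [hu, Finset.mul_sum]
      exact Finset.sum_congr rfl fun s _ => by ring
  exact closure_minimal hsub hcl f.2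

theorem normLE_co (f : X φ) : NormLE φ (co f) ‖f‖ := by
  intro g hg
  rw [← apply_eq_ev f ⟨g, hg⟩]
  exact f.1.norm_coe_le_norm ⟨g, hg⟩

theorem norm_le_of {f : X φ} {R : ℝ} (h : NormLE φ (co f) R) : ‖f‖ ≤ R := by
  have : ‖f.1‖ ≤ R := by
    rw [BoundedContinuousFunction.norm_le h.nonneg]
    intro g
    have := apply_eq_ev f g
    rw [Real.norm_eq_abs, this]
    exact h g.1 g.2
  exact this

theorem norm_le_iff {f : X φ} {R : ℝ} : ‖f‖ ≤ R ↔ NormLE φ (co f) R :=
  ⟨fun h g hg => (normLE_co f g hg).trans h, norm_le_of⟩

theorem co_ext {f g : X φ} (h : co f = co g) : f = g := by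
  refine Subtype.ext (BoundedContinuousFunction.ext fun u => ?_)
  rw [apply_eq_ev, apply_eq_ev, h]

/-- the coordinate at `s` as a continuous linear functional -/
noncomputable def coL (s : T) : X φ →L[ℝ] ℝ :=
  (BoundedContinuousFunction.evalCLM ℝ (cf φ s)).comp (X φ).subtypeL

theorem coL_apply (s : T) (f : X φ) : coL s f = co f s := rfl

/-- a norming functional as a continuous linear functional -/
noncomputable def evL (g : LT φ) : X φ →L[ℝ] ℝ :=
  (BoundedContinuousFunction.evalCLM ℝ g).comp (X φ).subtypeL

theorem evL_apply (g : LT φ) (f : X φ) : evL g f = ev g.1 (co f) := apply_eq_ev f g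

/-- the unit vector as an element of the space -/
noncomputable def e (φ : (ℕ → ℕ) → (ℕ → Bool)) (s : T) : X φ :=
  ⟨uv φ s, Submodule.le_topologicalClosure _ (Submodule.subset_span ⟨s, rfl⟩)⟩

theorem co_e (s t : T) : co (e φ s) t = if t = s then 1 else 0 := by
  change (cf φ t).1 s = _
  simp [cf, Finsupp.single_apply]

/-- finitely supported vectors -/
theorem exists_of_finite (a : T → ℝ) (S : Finset T) (h : ∀ s, a s ≠ 0 → s ∈ S) :
    ∃ f : X φ, co f = a ∧ ∀ ψ : X φ →L[ℝ] ℝ, ψ f = ∑ s ∈ S, a s * ψ (e φ s) := by
  classical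
  refine ⟨∑ s ∈ S, a s • e φ s, ?_, fun ψ => by simp [map_sum]⟩
  have h1 : ∀ S' : Finset T, co (∑ s ∈ S', a s • e φ s) = fun t => if t ∈ S' then a t else 0 := by
    intro S'
    induction S' using Finset.induction_on with
    | empty => ext t; simp [co_zero]
    | insert s S' hs ih =>
      rw [Finset.sum_insert hs, co_add, ih, co_smul]
      ext t
      simp only [Pi.add_apply, Pi.smul_apply, smul_eq_mul, co_e, Finset.mem_insert]
      by_cases hts : t = s
      · subst hts; simp [hs]
      · simp [hts]
  rw [h1]
  ext t
  split_ifs with ht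
  · rfl
  · by_contra hne
    exact ht (h t (Ne.symm hne))

end Pool.Agent.Helper639.Tk
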