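import Pool.Agent.Helper639.Tk.Basic
import Pool.Agent.Helper639.Tk.Anti
import Pool.Agent.Helper639.Tk.Meas
import Pool.Agent.Helper639.Tk.NBranch
import Pool.Agent.Helper639.Tk.NCones
import Pool.Agent.Helper639.Tk.NOff
import Pool.Agent.Helper639.Tk.Diffuse

set_option linter.all false

open Set Filter Topology

namespace Pool.Agent.Helper639.Tk

variable {φ : (ℕ → ℕ) → (ℕ → Bool)}

theorem j11079_ev_filter (g : T →₀ ℝ) (A : T → Prop) [DecidablePred A] (a : T → ℝ) :
    ev (g.filter A) a = ∑ s ∈ g.support, if A s then g s * a s else 0 := by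
  rw [ev_filter]
  unfold ev
  refine Finset.sum_congr rfl fun s _ => ?_
  by_cases h : A s <;> simp [h]

theorem j11079_finite (φ : (ℕ → ℕ) → (ℕ → Bool)) {K : Set (T → ℝ)} (hU : UL φ K) {δ : ℝ}
    (hδ : 0 < δ) : {x : ℕ → Bool | ∀ k, Big φ K {s | PiNat.res x k <:+ s} δ}.Finite := by
  by_contra hinf
  obtain ⟨x, k, hx, hxk⟩ := exists_antichain _ hinf
  obtain ⟨j, hj⟩ := not_big_cones hU hδ (fun j => PiNat.res (x j) (k j)) hxk
  exact hj (hx j (k j))

theorem j11079_big_mono {K : Set (T → ℝ)} {A B : Set T} {δ δ' : ℝ} (h : Big φ K A δ)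
    (hAB : A ⊆ B) (hδ : δ' ≤ δ) : Big φ K B δ' := by
  intro l
  obtain ⟨a, ha, g, hg, hs, hv⟩ := h l
  exact ⟨a, ha, g, hg, fun s hs' => ⟨hAB (hs s hs').1, (hs s hs').2⟩, lt_of_le_of_lt hδ hv⟩

theorem j11079_not_big {K : Set (T → ℝ)} {A : Set T} {δ : ℝ} (h : ¬ Big φ K A δ) :
    ∃ l : ℕ, ∀ a ∈ K, ∀ g, L φ g → (∀ s ∈ g.support, s ∈ A ∧ l < s.length) → ev g a ≤ δ := by
  unfold Big at h
  push Not at h
  exact h

/-- the choice of the `n`-th functional -/
theorem j11079_step {K : Set (T → ℝ)} (hU : UL φ K) {ε : ℝ} (hε : 0 < ε)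
    (hneg : ∀ (D : Finset (ℕ → Bool)) (l : ℕ), (∀ x ∈ D, x ∉ Set.range φ) → ∃ a ∈ K, ∃ g, L φ g ∧
      (∀ s ∈ g.support, l < s.length ∧ ∀ x ∈ D, ¬ Ext s x) ∧ ε < |ev g a|)
    (F : Finset (ℕ → Bool)) (n : ℕ) :
    ∃ a ∈ K, ∃ g, L φ g ∧ (∀ s, 0 ≤ g s * a s) ∧
      (∀ s ∈ g.support, n < s.length ∧ ∀ x ∈ F, ¬ Ext s x) ∧ ε / 2 < ev g a := by
  classical
  set δ : ℝ := ε / (2 * (F.card + 1)) with hδdef
  have hδ : 0 < δ := by positivity
  have hl : ∀ x : ℕ → Bool, ∃ l : ℕ, x ∈ Set.range φ → ∀ a ∈ K, ∀ g, L φ g →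
      (∀ s ∈ g.support, s ∈ br x ∧ l < s.length) → ev g a ≤ δ := by
    intro x
    by_cases hx : x ∈ Set.range φ
    · obtain ⟨y, rfl⟩ := hx
      obtain ⟨l, hl⟩ := j11079_not_big (not_big_branch hU hδ y)
      exact ⟨l, fun _ => hl⟩
    · exact ⟨0, fun h => absurd h hx⟩
  choose l hl using hl
  obtain ⟨a, ha, g0, hg0, hsupp, hval⟩ := hneg (F.filter (fun x => x ∉ Set.range φ))
    (n + F.sup l) (fun x hx => (Finset.mem_filter.1 hx).2)
  obtain ⟨g1, hg1, hsub, hnn, habs⟩ := exists_abs hg0 a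
  have hsupp1 : ∀ s ∈ g1.support, n + F.sup l < s.length ∧
      ∀ x ∈ F.filter (fun x => x ∉ Set.range φ), ¬ Ext s x := fun s hs => hsupp s (hsub hs)
  have hval1 : ε < ev g1 a := by
    refine lt_of_lt_of_le hval ?_
    rw [ev_eq_of_subset g1 a hsub]
    unfold ev
    refine (Finset.abs_sum_le_sum_abs _ _).trans (le_of_eq ?_)
    exact Finset.sum_congr rfl fun s _ => (habs s).symm
  let B : T → Prop := fun s => ∃ x ∈ F, x ∈ Set.range φ ∧ Ext s x
  refine ⟨a, ha, g1.filter (fun s => ¬ B s), L_filter hg1 _, ?_, ?_, ?_⟩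
  · intro s
    rw [Finsupp.filter_apply]
    split_ifs
    · rw [zero_mul]
    · exact hnn s
  · intro s hs
    rw [Finsupp.support_filter, Finset.mem_filter] at hs
    obtain ⟨h1, h2⟩ := hsupp1 s hs.1
    refine ⟨by omega, fun x hx hxs => ?_⟩
    by_cases hr : x ∈ Set.range φ
    · exact hs.2 ⟨x, hx, hr, hxs⟩
    · exact h2 x (Finset.mem_filter.2 ⟨hx, hr⟩) hxs
  · have hsum := ev_filter_add g1 B a
    have hB : ev (g1.filter B) a ≤ F.card * δ := by
      have h1 : ev (g1.filter B) a ≤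
          ∑ x ∈ F.filter (fun x => x ∈ Set.range φ), ev (g1.filter (fun s => Ext s x)) a := by
        simp only [j11079_ev_filter]
        rw [Finset.sum_comm]
        refine Finset.sum_le_sum fun s _ => ?_
        by_cases hBs : B s
        · rw [if_pos hBs]
          obtain ⟨x, hx, hr, hxs⟩ := hBs
          have hmem : x ∈ F.filter (fun x => x ∈ Set.range φ) := Finset.mem_filter.2 ⟨hx, hr⟩
          refine le_trans ?_ (Finset.single_le_sum (f := fun x => if Ext s x then g1 s * a s else 0)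
            (fun z _ => ?_) hmem)
          · rw [if_pos hxs]
          · split_ifs
            · exact hnn s
            · exact le_rfl
        · rw [if_neg hBs]
          refine Finset.sum_nonneg fun z _ => ?_
          split_ifs
          · exact hnn s
          · exact le_rfl
      have h2 : ∑ x ∈ F.filter (fun x => x ∈ Set.range φ), ev (g1.filter (fun s => Ext s x)) a
          ≤ ∑ x ∈ F.filter (fun x => x ∈ Set.range φ), δ := by
        refine Finset.sum_le_sum fun x hx => ?_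
        rw [Finset.mem_filter] at hx
        refine hl x hx.2 a ha _ (L_filter hg1 _) ?_
        intro s hs
        rw [Finsupp.support_filter, Finset.mem_filter] at hs
        refine ⟨hs.2, ?_⟩
        have := (hsupp1 s hs.1).1
        have h3 : l x ≤ F.sup l := Finset.le_sup (f := l) hx.1
        omega
      have h3 : ∑ x ∈ F.filter (fun x => x ∈ Set.range φ), δ ≤ F.card * δ := by
        rw [Finset.sum_const, nsmul_eq_mul]
        have : ((F.filter (fun x => x ∈ Set.range φ)).card : ℝ) ≤ F.card := by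
          exact_mod_cast Finset.card_filter_le _ _
        exact mul_le_mul_of_nonneg_right this hδ.le
      exact h1.trans (h2.trans h3)
    have hδ2 : (F.card : ℝ) * δ ≤ ε / 2 := by
      rw [hδdef]
      have hc : (0 : ℝ) ≤ F.card := Nat.cast_nonneg _
      rw [mul_div_assoc', div_le_div_iff₀ (by positivity) (by norm_num)]
      nlinarith
    linarith

/-- a node of length `> |t|` which extends `t` extends exactly one successor of `t` -/
theorem j11079_split (t s : T) (h : t.length < s.length) (c : ℝ) :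
    (if t <:+ s then c else 0) =
      (if (true :: t) <:+ s then c else 0) + (if (false :: t) <:+ s then c else 0) := by
  by_cases hts : t <:+ s
  · rw [if_pos hts]
    obtain ⟨u, hu⟩ := hts
    have hune : u ≠ [] := by
      rintro rfl
      rw [List.nil_append] at hu
      rw [hu] at h
      exact lt_irrefl _ h
    obtain ⟨v, b, rfl⟩ : ∃ v b, u = v ++ [b] := by
      rcases List.eq_nil_or_concat u with h0 | ⟨v, b, h0⟩
      · exact absurd h0 hune
      · exact ⟨v, b, by simpa using h0⟩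
    have hbs : (b :: t) <:+ s := ⟨v, by rw [← hu]; simp⟩
    have huniq : ∀ b' : Bool, (b' :: t) <:+ s → b' = b := by
      intro b' hb'
      have h1 : (b' :: t) <:+ (b :: t) := List.suffix_of_suffix_length_le hb' hbs (by simp)
      have h2 := h1.eq_of_length (by simp)
      exact (List.cons.inj h2).1
    cases b with
    | true =>
      rw [if_pos hbs, if_neg (fun hf => by simpa using huniq false hf), add_zero]
    | false =>
      rw [if_pos hbs, if_neg (fun hf => by simpa using huniq true hf), zero_add]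
  · have h1 : ∀ b : Bool, ¬ (b :: t) <:+ s := fun b hb =>
      hts ((List.suffix_cons b t).trans hb)
    rw [if_neg hts, if_neg (h1 _), if_neg (h1 _), add_zero]



/-- The structure of families on which admissible sequences tend to zero uniformly. -/
theorem star (hφ : Continuous φ)
    (hC : Cardinal.mk ((Set.range φ)ᶜ : Set (ℕ → Bool)) < Cardinal.continuum)
    {K : Set (T → ℝ)} {R : ℝ} (hR : ∀ a ∈ K, NormLE φ a R) (hU : UL φ K) {ε : ℝ} (hε : 0 < ε) :
    ∃ (D : Finset (ℕ → Bool)) (l : ℕ), (∀ x ∈ D, x ∉ Set.range φ) ∧ ∀ a ∈ K, ∀ g, L φ g →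
      (∀ s ∈ g.support, l < s.length ∧ ∀ x ∈ D, ¬ Ext s x) → |ev g a| ≤ ε := by
  classical
  by_contra hcon
  push Not at hcon
  have hneg : ∀ (D : Finset (ℕ → Bool)) (l : ℕ), (∀ x ∈ D, x ∉ Set.range φ) → ∃ a ∈ K, ∃ g,
      L φ g ∧ (∀ s ∈ g.support, l < s.length ∧ ∀ x ∈ D, ¬ Ext s x) ∧ ε < |ev g a| := by
    intro D l hD
    obtain ⟨a, ha, g, hg, hs, hv⟩ := hcon D l hD
    exact ⟨a, ha, g, hg, hs, hv⟩
  let A : ℕ → Set (ℕ → Bool) := fun n =>
    {x | ∀ k, Big φ K {s | PiNat.res x k <:+ s} (1 / ((n : ℝ) + 1))}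
  have hAfin : ∀ n, (A n).Finite := fun n => j11079_finite φ hU (by positivity)
  have hAmono : ∀ n n', n ≤ n' → A n ⊆ A n' := by
    intro n n' hnn x hx k
    refine j11079_big_mono (hx k) le_rfl ?_
    have : (n : ℝ) ≤ n' := by exact_mod_cast hnn
    exact one_div_le_one_div_of_le (by positivity) (by linarith)
  have hstep : ∀ n : ℕ, ∃ a ∈ K, ∃ g, L φ g ∧ (∀ s, 0 ≤ g s * a s) ∧
      (∀ s ∈ g.support, n < s.length ∧ ∀ x ∈ A n, ¬ Ext s x) ∧ ε / 2 < ev g a := by
    intro n
    obtain ⟨a, ha, g, hg, h1, h2, h3⟩ := j11079_step hU hε hneg (hAfin n).toFinset n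
    exact ⟨a, ha, g, hg, h1, fun s hs => ⟨(h2 s hs).1, fun x hx => (h2 s hs).2 x
      ((hAfin n).mem_toFinset.2 hx)⟩, h3⟩
  choose a ha g hg hnn hsupp hval using hstep
  let w : ℕ → T → ℝ := fun n t => ev ((g n).filter (fun s => t <:+ s)) (a n)
  have hw0 : ∀ n t, 0 ≤ w n t := by
    intro n t
    simp only [w, j11079_ev_filter]
    refine Finset.sum_nonneg fun s _ => ?_
    split_ifs
    · exact hnn n s
    · exact le_rfl
  have hwR : ∀ n t, w n t ≤ R := fun n t =>
    (le_abs_self _).trans (hR (a n) (ha n) _ (L_filter (hg n) _))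
  let U : Ultrafilter ℕ := Filter.hyperfilter ℕ
  have hUtop : (U : Filter ℕ) ≤ Filter.atTop := Nat.hyperfilter_le_atTop
  have hlim : ∀ t, ∃ c : ℝ, Tendsto (fun n => w n t) (U : Filter ℕ) (𝓝 c) := by
    intro t
    have hmem : Set.Icc (0 : ℝ) R ∈ U.map (fun n => w n t) := by
      rw [Ultrafilter.mem_map]
      exact Filter.univ_mem' fun n => ⟨hw0 n t, hwR n t⟩
    obtain ⟨c, _, hc⟩ := isCompact_Icc.ultrafilter_le_nhds' (U.map (fun n => w n t)) hmem
    exact ⟨c, hc⟩
  choose m hm using hlim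
  have hm0 : ∀ t, 0 ≤ m t := fun t => ge_of_tendsto' (hm t) fun n => hw0 n t
  have hmle : ∀ (t : T) (c : ℝ) (n0 : ℕ), (∀ n ≥ n0, w n t ≤ c) → m t ≤ c := by
    intro t c n0 h
    refine le_of_tendsto (hm t) (hUtop ?_)
    exact Filter.eventually_atTop.2 ⟨n0, h⟩
  have hmadd : ∀ t, m t = m (true :: t) + m (false :: t) := by
    intro t
    refine tendsto_nhds_unique_of_eventuallyEq (hm t) ((hm (true :: t)).add (hm (false :: t))) ?_
    refine hUtop (Filter.eventually_atTop.2 ⟨t.length, fun n hn => ?_⟩)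
    simp only [w, j11079_ev_filter]
    rw [← Finset.sum_add_distrib]
    refine Finset.sum_congr rfl fun s hs => ?_
    exact j11079_split t s (lt_of_le_of_lt hn (hsupp n s hs).1) _
  have hmnil : ε / 2 ≤ m [] := by
    refine ge_of_tendsto' (hm []) fun n => ?_
    have : w n [] = ev (g n) (a n) := by
      simp only [w, j11079_ev_filter]
      unfold ev
      exact Finset.sum_congr rfl fun s _ => by rw [if_pos (List.nil_suffix)]
    rw [this]
    exact (hval n).le
  have hna : ∀ x : ℕ → Bool, ∀ ε' > 0, ∃ k, m (PiNat.res x k) < ε' := by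
    intro x ε' hε'
    by_cases hx : ∃ n0, x ∈ A n0
    · obtain ⟨n0, hn0⟩ := hx
      obtain ⟨k, hk⟩ := not_big_off hU (half_pos hε') x
      obtain ⟨l, hl⟩ := j11079_not_big hk
      refine ⟨k, lt_of_le_of_lt (hmle _ (ε' / 2) (max n0 l) fun n hn => ?_) (half_lt_self hε')⟩
      refine hl (a n) (ha n) _ (L_filter (hg n) _) fun s hs => ?_
      rw [Finsupp.support_filter, Finset.mem_filter] at hs
      obtain ⟨h1, h2⟩ := hsupp n s hs.1
      exact ⟨⟨hs.2, h2 x (hAmono n0 n ((le_max_left _ _).trans hn) hn0)⟩,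
        lt_of_le_of_lt ((le_max_right _ _).trans hn) h1⟩
    · push Not at hx
      obtain ⟨n0, hn0⟩ := exists_nat_one_div_lt hε'
      have hx0 := hx n0
      simp only [A, Set.mem_ofPred_eq] at hx0
      push Not at hx0
      obtain ⟨k, hk⟩ := hx0
      obtain ⟨l, hl⟩ := j11079_not_big hk
      refine ⟨k, lt_of_le_of_lt (hmle _ _ l fun n hn => ?_) hn0⟩
      refine hl (a n) (ha n) _ (L_filter (hg n) _) fun s hs => ?_
      rw [Finsupp.support_filter, Finset.mem_filter] at hs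
      exact ⟨hs.2, lt_of_le_of_lt hn (hsupp n s hs.1).1⟩
  obtain ⟨M, η, hη, hM, hsum⟩ := meas_lemma φ hφ hC m hm0 hmadd (by linarith) hna
  refine diffuse hU (half_pos hη) M hM fun N => ?_
  have hfin : {s : T | s.length = N + 1 ∧ ∃ y : ℕ → ℕ, (∀ i, y i ≤ M i) ∧
      PiNat.res (φ y) (N + 1) = s}.Finite :=
    (List.finite_length_eq Bool (N + 1)).subset fun s hs => hs.1
  set S : Finset T := hfin.toFinset with hSdef
  have hSmem : ∀ s, s ∈ S ↔ s.length = N + 1 ∧ ∃ y : ℕ → ℕ, (∀ i, y i ≤ M i) ∧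
      PiNat.res (φ y) (N + 1) = s := fun s => hfin.mem_toFinset
  have hge : η ≤ ∑ s ∈ S, m s := hsum (N + 1) S (fun s hs => ((hSmem s).1 hs).1)
    (fun s hs hy => (hSmem s).2 ⟨hs, hy⟩)
  have htend : Tendsto (fun n => ∑ s ∈ S, w n s) (U : Filter ℕ) (𝓝 (∑ s ∈ S, m s)) :=
    tendsto_finsetSum _ fun s _ => hm s
  have hev1 : ∀ᶠ n in (U : Filter ℕ), η / 2 < ∑ s ∈ S, w n s :=
    htend.eventually (lt_mem_nhds (lt_of_lt_of_le (half_lt_self hη) hge))
  have hev2 : ∀ᶠ n in (U : Filter ℕ), N < n := hUtop (Filter.eventually_gt_atTop N)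
  obtain ⟨n, hn1, hn2⟩ := (hev1.and hev2).exists
  refine ⟨a n, ha n, (g n).filter (fun s => ∃ t ∈ S, t <:+ s), L_filter (hg n) _, ?_, ?_⟩
  · intro s hs
    rw [Finsupp.support_filter, Finset.mem_filter] at hs
    obtain ⟨hs1, t, ht, hts⟩ := hs
    obtain ⟨_, y, hy, hyt⟩ := (hSmem t).1 ht
    refine ⟨hn2.trans (hsupp n s hs1).1, y, hy, ?_⟩
    rw [hyt]; exact hts
  · refine lt_of_lt_of_le hn1 (le_of_eq ?_)
    simp only [w, j11079_ev_filter]
    rw [Finset.sum_comm]
    refine Finset.sum_congr rfl fun s _ => ?_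
    by_cases hs : ∃ t ∈ S, t <:+ s
    · rw [if_pos hs]
      obtain ⟨t, ht, hts⟩ := hs
      rw [Finset.sum_eq_single_of_mem t ht, if_pos hts]
      intro t' ht' hne
      rw [if_neg]
      intro hts'
      apply hne
      have hlen : t'.length = t.length := by
        rw [((hSmem t').1 ht').1, ((hSmem t).1 ht).1]
      exact (List.suffix_of_suffix_length_le hts' hts hlen.le).eq_of_length hlen
    · rw [if_neg hs]
      refine Finset.sum_eq_zero fun t ht => ?_
      rw [if_neg fun h => hs ⟨t, ht, h⟩]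

end Pool.Agent.Helper639.Tk
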