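import Mathlib

open Set Filter Topology

namespace Pool.Agent.Helper639.Tk

/-- `P ≤_T Q` (Tukey reducibility): some map from `P` to `Q` sends every subset of `P` without an
upper bound to a subset of `Q` without an upper bound. -/
def TukeyLE (P Q : Type*) [Preorder P] [Preorder Q] : Prop :=
  ∃ f : P → Q, ∀ A : Set P, ¬ BddAbove A → ¬ BddAbove (f '' A)

/-- Tukey equivalence of partially ordered sets. -/
def TukeyEquiv (P Q : Type*) [Preorder P] [Preorder Q] : Prop := TukeyLE P Q ∧ TukeyLE Q P

/-- The weakly compact subsets of the closed unit ball of a normed space `E`, ordered by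
inclusion. -/
abbrev KB (E : Type*) [NormedAddCommGroup E] [NormedSpace ℝ E] : Type _ :=
  {K : Set E // K ⊆ Metric.closedBall 0 1 ∧ IsCompact (toWeakSpace ℝ E '' K)}

end Pool.Agent.Helper639.Tk
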