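import Pool.Agent.Helper639.Tk.Space
import Pool.Agent.Helper639.Tk.Schur

set_option linter.all false

open Set Filter Topology

namespace Pool.Agent.Helper639.Tk

variable {φ : (ℕ → ℕ) → (ℕ → Bool)}

/-- weakly compact sets -/
theorem ul_of_weaklyCompact {K : Set (X φ)} (hK : IsCompact (toWeakSpace ℝ (X φ) '' K)) :
    UL φ (co '' K) := by
  intro g hg ha ε hε
  obtain ⟨N, hN⟩ := schur_type K hK (fun j => evL (⟨g j, hg j⟩ : LT φ)) 2 (fun f J => by
    simp only [evL_apply]
    exact (normLE_co f).sum_le hg ha J) ε hε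
  refine ⟨N, fun j hj a haK => ?_⟩
  obtain ⟨f, hf, rfl⟩ := haK
  have := hN j hj f hf
  rwa [evL_apply] at this

end Pool.Agent.Helper639.Tk
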