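import Pool.Agent.Helper639.Tk.Space

open Set Filter Topology

namespace Pool.Agent.Helper639.Tk

variable {φ : (ℕ → ℕ) → (ℕ → Bool)}

/-- The vectors of the unit ball which for every `m` are up to `1 / (m + 1)` carried above the level
`l m` by the branches in `D m`. -/
def W (φ : (ℕ → ℕ) → (ℕ → Bool)) (D : ℕ → Finset (ℕ → Bool)) (l : ℕ → ℕ) : Set (X φ) :=
  {f | ‖f‖ ≤ 1 ∧ ∀ m : ℕ, ∀ g, L φ g → (∀ s ∈ g.support, l m < s.length ∧ ∀ x ∈ D m, ¬ Ext s x) →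
    |ev g (co f)| ≤ 1 / ((m : ℝ) + 1)}

end Pool.Agent.Helper639.Tk
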