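import Pool.Agent.Helper639.Tk.Space
import Pool.Agent.Helper639.Tk.Bc
import Pool.Agent.Helper639.Tk.ExB
import Pool.Agent.Helper639.Tk.Sh
import Pool.Agent.Helper639.Tk.WDef

set_option linter.all false

open Set Filter Topology

namespace Pool.Agent.Helper639.Tk

variable {φ : (ℕ → ℕ) → (ℕ → Bool)}

theorem W_compact_restrict (f : X φ) (A : T → Prop) [DecidablePred A] :
    ∃ h : X φ, co h = (fun s => if A s then co f s else 0) ∧ ‖h‖ ≤ ‖f‖ := by
  have h1 : NormLE φ (fun s => if A s then co f s else 0) ‖f‖ := by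
    intro g hg
    rw [← ev_filter]
    exact normLE_co f _ (L_filter hg A)
  obtain ⟨h, hh⟩ := exists_of_bounded h1
  refine ⟨h, hh, norm_le_of ?_⟩
  rw [hh]
  exact h1

theorem W_compact_bound (ψ : X φ →L[ℝ] ℝ) : ∃ C : ℝ, 0 ≤ C ∧ ∀ f : X φ, |ψ f| ≤ C * ‖f‖ := by
  have hc : Continuous (fun f : X φ => ψ f) := ψ.continuous
  have h0 : ∀ᶠ f in 𝓝 (0 : X φ), |ψ f| < 1 := by
    have : Tendsto (fun f : X φ => |ψ f|) (𝓝 0) (𝓝 |ψ 0|) := (hc.abs).tendsto 0
    rw [map_zero, abs_zero] at this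
    exact this.eventually (gt_mem_nhds one_pos)
  obtain ⟨δ, hδ, h⟩ := Metric.eventually_nhds_iff.1 h0
  refine ⟨2 / δ, by positivity, fun f => ?_⟩
  by_cases hf : f = 0
  · subst hf
    rw [map_zero]
    simp
  · have hn' : 0 < ‖f.1‖ := norm_pos_iff.2 (fun h => hf (Subtype.ext h))
    have hn : 0 < ‖f‖ := hn'
    have h1 := @h ((δ / (2 * ‖f‖)) • f) (by
      have e1 : dist ((δ / (2 * ‖f.1‖)) • f.1) 0 = δ / 2 := by
        rw [dist_zero_right, norm_smul, Real.norm_eq_abs, abs_of_pos (by positivity)]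
        field_simp
      have e2 : dist ((δ / (2 * ‖f‖)) • f) 0 = δ / 2 := e1
      rw [e2]; linarith)
    rw [map_smul, smul_eq_mul, abs_mul, abs_of_pos (show 0 < δ / (2 * ‖f‖) by positivity)] at h1
    rw [div_mul_eq_mul_div, div_lt_one (by positivity)] at h1
    rw [div_mul_eq_mul_div, le_div_iff₀ hδ]
    linarith

theorem W_compact_approx (hφ : Continuous φ) (D : ℕ → Finset (ℕ → Bool)) (l : ℕ → ℕ)
    (hD : ∀ m, ∀ x ∈ D m, x ∉ Set.range φ) (ψ : X φ →L[ℝ] ℝ) {C : ℝ} (hC0 : 0 ≤ C)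
    (hC : ∀ f : X φ, |ψ f| ≤ C * ‖f‖) {ε : ℝ} (hε : 0 < ε) (m : ℕ) :
    ∃ (S : Finset T), ∀ f ∈ W φ D l,
      |ψ f - ∑ s ∈ S, co f s * ψ (e φ s)| ≤ ε + C * (1 / ((m : ℝ) + 1)) := by
  classical
  obtain ⟨l1, hl1⟩ := sh hφ (D m) (hD m) ψ hε
  set n := max l1 (l m) with hn
  have hfin : {s : List Bool | s.length ≤ n}.Finite := List.finite_length_le Bool n
  refine ⟨hfin.toFinset, fun f hf => ?_⟩
  obtain ⟨hf1, hf2⟩ := hf
  obtain ⟨f1, hc1, hψ1⟩ := exists_of_finite (φ := φ)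
    (fun s => if s.length ≤ n then co f s else 0) hfin.toFinset (by
      intro s hs
      rw [Set.Finite.mem_toFinset]
      show s.length ≤ n
      by_contra hc
      exact hs (if_neg hc))
  obtain ⟨f2, hc2, hn2⟩ := W_compact_restrict f (fun s => n < s.length ∧ ∃ x ∈ D m, Ext s x)
  obtain ⟨f3, hc3, hn3⟩ := W_compact_restrict f (fun s => n < s.length ∧ ∀ x ∈ D m, ¬ Ext s x)
  have hsum : f = f1 + f2 + f3 := by
    apply co_ext
    rw [co_add, co_add, hc1, hc2, hc3]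
    ext s
    simp only [Pi.add_apply]
    by_cases h1 : s.length ≤ n
    · have h1' : ¬ n < s.length := not_lt.2 h1
      rw [if_pos h1, if_neg (fun h => h1' h.1), if_neg (fun h => h1' h.1)]
      simp
    · have h1' : n < s.length := not_le.1 h1
      by_cases h2 : ∃ x ∈ D m, Ext s x
      · have h3 : ¬ (∀ x ∈ D m, ¬ Ext s x) := by
          intro h
          obtain ⟨x, hx, hx2⟩ := h2
          exact h x hx hx2
        rw [if_neg h1, if_pos ⟨h1', h2⟩, if_neg (fun h => h3 h.2)]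
        simp
      · have h3 : ∀ x ∈ D m, ¬ Ext s x := by
          intro x hx hx2
          exact h2 ⟨x, hx, hx2⟩
        rw [if_neg h1, if_neg (fun h => h2 h.2), if_pos ⟨h1', h3⟩]
        simp
  have hb2 : |ψ f2| ≤ ε := by
    refine hl1 f2 (hn2.trans hf1) fun s hs => ?_
    rw [hc2] at hs
    by_cases hc : n < s.length ∧ ∃ x ∈ D m, Ext s x
    · exact ⟨(le_max_left _ _).trans hc.1.le, hc.2⟩
    · exact absurd (if_neg hc) hs
  have hb3 : ‖f3‖ ≤ 1 / ((m : ℝ) + 1) := by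
    apply norm_le_of
    intro g hg
    rw [hc3, ← ev_filter]
    refine hf2 m _ (L_filter hg _) fun s hs => ?_
    rw [Finsupp.support_filter, Finset.mem_filter] at hs
    exact ⟨lt_of_le_of_lt (le_max_right _ _) hs.2.1, hs.2.2⟩
  have hb3' : |ψ f3| ≤ C * (1 / ((m : ℝ) + 1)) :=
    (hC f3).trans (mul_le_mul_of_nonneg_left hb3 hC0)
  have h1 : ψ f1 = ∑ s ∈ hfin.toFinset, co f s * ψ (e φ s) := by
    rw [hψ1]
    refine Finset.sum_congr rfl fun s hs => ?_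
    rw [Set.Finite.mem_toFinset] at hs
    have hs' : s.length ≤ n := hs
    rw [if_pos hs']
  have h2 : ψ f = ψ f1 + ψ f2 + ψ f3 := by
    conv_lhs => rw [hsum]
    rw [map_add, map_add]
  rw [h2, h1]
  have h4 : (∑ s ∈ hfin.toFinset, co f s * ψ (e φ s)) + ψ f2 + ψ f3 -
      ∑ s ∈ hfin.toFinset, co f s * ψ (e φ s) = ψ f2 + ψ f3 := by ring
  rw [h4]
  exact (abs_add_le _ _).trans (add_le_add hb2 hb3')

theorem W_compact_weak_nhds (V : Ultrafilter (WeakSpace ℝ (X φ))) (x : X φ)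
    (h : ∀ ψ : X φ →L[ℝ] ℝ, Tendsto (fun y => ψ ((toWeakSpace ℝ (X φ)).symm y)) V (𝓝 (ψ x))) :
    (V : Filter (WeakSpace ℝ (X φ))) ≤ 𝓝 (toWeakSpace ℝ (X φ) x) := by
  have h1 : 𝓝 (toWeakSpace ℝ (X φ) x) = Filter.comap
      (fun (y : WeakSpace ℝ (X φ)) (ψ : X φ →L[ℝ] ℝ) => ψ ((toWeakSpace ℝ (X φ)).symm y))
      (𝓝 (fun ψ => ψ x)) := nhds_induced _ _
  rw [h1, ← Filter.tendsto_iff_comap, tendsto_pi_nhds]
  exact h


theorem W_compact (hφ : Continuous φ) (D : ℕ → Finset (ℕ → Bool)) (l : ℕ → ℕ)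
    (hD : ∀ m, ∀ x ∈ D m, x ∉ Set.range φ) :
    IsCompact (toWeakSpace ℝ (X φ) '' W φ D l) := by
  classical
  rw [isCompact_iff_ultrafilter_le_nhds]
  intro V hV
  set τ := toWeakSpace ℝ (X φ) with hτ
  let U : Ultrafilter (X φ) := V.map τ.symm
  have hU : W φ D l ∈ U := by
    have h1 : τ '' W φ D l ∈ V := by
      exact Filter.le_principal_iff.1 hV
    show τ.symm ⁻¹' (W φ D l) ∈ V
    refine Filter.mem_of_superset h1 ?_
    rintro _ ⟨f, hf, rfl⟩
    show τ.symm (τ f) ∈ W φ D l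
    rw [LinearEquiv.symm_apply_apply]
    exact hf
  have hlim : ∀ ψ : X φ →L[ℝ] ℝ, ∃ c : ℝ, Tendsto ψ U (𝓝 c) := by
    intro ψ
    obtain ⟨C, hC0, hC⟩ := W_compact_bound ψ
    have h1 : ((U.map ψ : Ultrafilter ℝ) : Filter ℝ) ≤ 𝓟 (Set.Icc (-C) C) := by
      rw [Filter.le_principal_iff]
      show ψ ⁻¹' (Set.Icc (-C) C) ∈ U
      refine Filter.mem_of_superset hU ?_
      intro f hf
      have h3 : |ψ f| ≤ C := (hC f).trans (mul_le_of_le_one_right hC0 hf.1)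
      exact abs_le.1 h3
    obtain ⟨c, _, hc⟩ := isCompact_Icc.ultrafilter_le_nhds _ h1
    exact ⟨c, hc⟩
  choose Λ hΛ using hlim
  have hev : ∀ g : T →₀ ℝ, Tendsto (fun f : X φ => ev g (co f)) U
      (𝓝 (ev g (fun s => Λ (coL s)))) := by
    intro g
    unfold ev
    refine tendsto_finsetSum _ fun s _ => ?_
    exact (hΛ (coL s)).const_mul _
  have hN : NormLE φ (fun s => Λ (coL s)) 1 := by
    intro g hg
    refine le_of_tendsto (hev g).abs ?_
    refine Filter.mem_of_superset hU ?_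
    intro f hf
    exact (normLE_co f g hg).trans hf.1
  obtain ⟨f0, hf0⟩ := exists_of_bounded hN
  have hW0 : f0 ∈ W φ D l := by
    refine ⟨norm_le_of (by rw [hf0]; exact hN), fun m g hg hs => ?_⟩
    rw [hf0]
    refine le_of_tendsto (hev g).abs ?_
    refine Filter.mem_of_superset hU ?_
    intro f hf
    exact hf.2 m g hg hs
  refine ⟨τ f0, ⟨f0, hW0, rfl⟩, W_compact_weak_nhds V f0 fun ψ => ?_⟩
  have hkey : Λ ψ = ψ f0 := by
    by_contra hne
    have hpos : 0 < |Λ ψ - ψ f0| := abs_pos.2 (sub_ne_zero.2 hne)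
    set δ := |Λ ψ - ψ f0| with hδ
    obtain ⟨C, hC0, hC⟩ := W_compact_bound ψ
    obtain ⟨m, hm⟩ := exists_nat_gt (C / (δ / 8))
    have hm1 : C * (1 / ((m : ℝ) + 1)) ≤ δ / 8 := by
      have h8 : 0 < δ / 8 := by positivity
      rw [div_lt_iff₀ h8] at hm
      have hm0 : (0 : ℝ) < (m : ℝ) + 1 := by positivity
      rw [mul_one_div, div_le_iff₀ hm0]
      nlinarith
    obtain ⟨S, hS⟩ := W_compact_approx hφ D l hD ψ hC0 hC (show 0 < δ / 8 by positivity) m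
    have h1 : |ψ f0 - ∑ s ∈ S, co f0 s * ψ (e φ s)| ≤ δ / 4 := by
      have := hS f0 hW0
      linarith
    have h2 : |Λ ψ - ∑ s ∈ S, co f0 s * ψ (e φ s)| ≤ δ / 4 := by
      have ht : Tendsto (fun f : X φ => ψ f - ∑ s ∈ S, co f s * ψ (e φ s)) U
          (𝓝 (Λ ψ - ∑ s ∈ S, co f0 s * ψ (e φ s))) := by
        refine (hΛ ψ).sub ?_
        refine tendsto_finsetSum _ fun s _ => ?_
        refine Tendsto.mul_const _ ?_
        rw [hf0]
        exact hΛ (coL s)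
      refine le_of_tendsto ht.abs ?_
      refine Filter.mem_of_superset hU ?_
      intro f hf
      have h5 := hS f hf
      show |ψ f - ∑ s ∈ S, co f s * ψ (e φ s)| ≤ δ / 4
      linarith
    have h3 : δ ≤ δ / 4 + δ / 4 := by
      calc δ = |(Λ ψ - ∑ s ∈ S, co f0 s * ψ (e φ s)) - (ψ f0 - ∑ s ∈ S, co f0 s * ψ (e φ s))| := by
            rw [hδ]; congr 1; ring
        _ ≤ |Λ ψ - ∑ s ∈ S, co f0 s * ψ (e φ s)| + |ψ f0 - ∑ s ∈ S, co f0 s * ψ (e φ s)| :=
            abs_sub _ _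
        _ ≤ _ := add_le_add h2 h1
    linarith
  rw [← hkey]
  exact hΛ ψ

end Pool.Agent.Helper639.Tk
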