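import Pool.Agent.Helper639.Tk.Space
import Pool.Agent.Helper639.Tk.ExB
import Pool.Agent.Helper639.Tk.Star
import Pool.Agent.Helper639.Tk.Ul
import Pool.Agent.Helper639.Tk.WDef
import Pool.Agent.Helper639.Tk.WCompact
import Pool.Agent.Helper639.Tk.TukDefs

set_option linter.all false

open Set Filter Topology

namespace Pool.Agent.Helper639.Tk

variable {φ : (ℕ → ℕ) → (ℕ → Bool)}

theorem mcb781 {E : Type*} [NormedAddCommGroup E] (f : E) : f ∈ Metric.closedBall (0:E) 1 ↔ ‖f‖ ≤ 1 :=
  mem_closedBall_zero_iff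

theorem ev_e781 {g : T →₀ ℝ} (hg : L φ g) (s : T) : ev g (co (e φ s)) = g s := by
  have := apply_eq_ev (e φ s) ⟨g, hg⟩
  exact this.symm

theorem W_sub_ball781 (D : ℕ → Finset (ℕ → Bool)) (l : ℕ → ℕ) : W φ D l ⊆ Metric.closedBall 0 1 := by
  intro f hf
  exact (mcb781 f).2 hf.1

theorem KB_norm781 (K : KB (X φ)) : ∀ a ∈ co '' K.1, NormLE φ a 1 := by
  rintro a ⟨f, hf, rfl⟩
  have := (mcb781 f).1 (K.2.1 hf)
  exact norm_le_iff.1 this

open Classical in
/-- The Tukey type of the weakly compact subsets of the unit ball. -/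
theorem tukey_type (hφ : Continuous φ)
    (hC : Cardinal.mk ((Set.range φ)ᶜ : Set (ℕ → Bool)) < Cardinal.continuum)
    (hinf : ((Set.range φ)ᶜ : Set (ℕ → Bool)).Infinite) :
    TukeyEquiv (KB (X φ)) (ℕ → Finset ((Set.range φ)ᶜ : Set (ℕ → Bool))) := by
  constructor
  · -- first direction
    have hst : ∀ (K : KB (X φ)) (m : ℕ), ∃ (D : Finset (ℕ → Bool)) (l : ℕ), (∀ x ∈ D, x ∉ Set.range φ) ∧
        ∀ a ∈ co '' K.1, ∀ g, L φ g →
          (∀ s ∈ g.support, l < s.length ∧ ∀ x ∈ D, ¬ Ext s x) → |ev g a| ≤ 1 / ((m : ℝ) + 1) := by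
      intro K m
      exact star hφ hC (KB_norm781 K) (ul_of_weaklyCompact K.2.2) (by positivity)
    choose D l hD hDl using hst
    let c : ℕ ↪ ((Set.range φ)ᶜ : Set (ℕ → Bool)) := hinf.natEmbedding
    refine ⟨fun K m => (D K m).subtype (fun x => x ∈ (Set.range φ)ᶜ) ∪ (Finset.range (l K m + 1)).map c, ?_⟩
    intro A
    contrapose!
    rintro ⟨E, hE⟩
    have hE' : ∀ K ∈ A, ∀ m, (D K m).subtype (fun x => x ∈ (Set.range φ)ᶜ) ∪ (Finset.range (l K m + 1)).map c ⊆ E m := by
      intro K hK m
      exact hE ⟨K, hK, rfl⟩ m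
    have hWc := W_compact hφ (fun m => (E m).image Subtype.val) (fun m => (E m).card) (by
      intro m x hx
      obtain ⟨y, _, rfl⟩ := Finset.mem_image.1 hx
      exact y.2)
    refine ⟨⟨W φ (fun m => (E m).image Subtype.val) (fun m => (E m).card), W_sub_ball781 _ _, hWc⟩, ?_⟩
    intro K hK
    show K.1 ⊆ W φ _ _
    intro f hf
    refine ⟨?_, ?_⟩
    · exact (mcb781 f).1 (K.2.1 hf)
    · intro m g hg hs
      apply hDl K m (co f) ⟨f, hf, rfl⟩ g hg
      intro s hsg
      have h1 := hs s hsg
      have hsub := hE' K hK m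
      constructor
      · have hcard : l K m + 1 ≤ (E m).card := by
          have h2 : ((Finset.range (l K m + 1)).map c).card ≤ (E m).card :=
            Finset.card_le_card ((Finset.subset_union_right).trans hsub)
          rwa [Finset.card_map, Finset.card_range] at h2
        have h3 : (E m).card < s.length := h1.1
        omega
      · intro x hx
        apply h1.2 x
        rw [Finset.mem_image]
        refine ⟨⟨x, hD K m x hx⟩, hsub (Finset.mem_union_left _ ?_), rfl⟩
        rw [Finset.mem_subtype]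
        exact hx
  · -- second direction
    let DD : (ℕ → Finset ((Set.range φ)ᶜ : Set (ℕ → Bool))) → ℕ → Finset (ℕ → Bool) := fun D m =>
      (Finset.range (m + 1)).biUnion (fun i => (D i).image Subtype.val)
    have hDD : ∀ D m, ∀ x ∈ DD D m, x ∉ Set.range φ := by
      intro D m x hx
      obtain ⟨i, _, hi⟩ := Finset.mem_biUnion.1 hx
      obtain ⟨y, _, rfl⟩ := Finset.mem_image.1 hi
      exact y.2
    refine ⟨fun D => ⟨W φ (DD D) (fun _ => 0), W_sub_ball781 _ _, W_compact hφ _ _ (hDD D)⟩, ?_⟩
    intro A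
    contrapose!
    rintro ⟨K, hK⟩
    have hst : ∀ m : ℕ, ∃ (D : Finset (ℕ → Bool)) (l : ℕ), (∀ x ∈ D, x ∉ Set.range φ) ∧
        ∀ a ∈ co '' K.1, ∀ g, L φ g →
          (∀ s ∈ g.support, l < s.length ∧ ∀ x ∈ D, ¬ Ext s x) → |ev g a| ≤ 1 / (2 * ((m : ℝ) + 1)) := by
      intro m
      exact star hφ hC (KB_norm781 K) (ul_of_weaklyCompact K.2.2) (by positivity)
    choose E l hE hEl using hst
    refine ⟨fun m => (E m).subtype (fun x => x ∈ (Set.range φ)ᶜ), ?_⟩
    intro D hD m
    show D m ⊆ _
    intro x hx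
    rw [Finset.mem_subtype]
    by_contra hxE
    have hsubK : W φ (DD D) (fun _ => 0) ⊆ K.1 := hK ⟨D, hD, rfl⟩
    -- choice of the level
    have hk : ∀ y ∈ E m, ∃ k, y k ≠ x.1 k := by
      intro y hy
      by_contra hc
      push Not at hc
      exact hxE (by rwa [← (funext hc : y = x.1)])
    choose! k hk using hk
    obtain ⟨n, hn1, hn2⟩ : ∃ n, l m < n ∧ ∀ y ∈ E m, k y < n := by
      refine ⟨l m + 1 + ∑ y ∈ E m, (k y + 1), by omega, ?_⟩
      intro y hy
      have h5 : k y + 1 ≤ ∑ y ∈ E m, (k y + 1) :=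
        Finset.single_le_sum (f := fun y => k y + 1) (fun _ _ => Nat.zero_le _) hy
      omega
    set s : T := PiNat.res x.1 n with hs
    have hslen : s.length = n := PiNat.res_length _ _
    have hsx : Ext s x.1 := by
      unfold Ext
      rw [hslen]
    have hsE : ∀ y ∈ E m, ¬ Ext s y := by
      intro y hy h
      unfold Ext at h
      rw [hslen, hs, PiNat.res_eq_res] at h
      exact hk y hy (h (hn2 y hy))
    have hm1 : (0 : ℝ) < (m : ℝ) + 1 := by positivity
    set f : X φ := (1 / ((m : ℝ) + 1)) • e φ s with hf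
    have hev : ∀ g, L φ g → ev g (co f) = 1 / ((m : ℝ) + 1) * g s := by
      intro g hg
      rw [hf, co_smul, ev_smul_right, ev_e781 hg]
    have hevle : ∀ g, L φ g → |ev g (co f)| ≤ 1 / ((m : ℝ) + 1) := by
      intro g hg
      rw [hev g hg, abs_mul, abs_of_pos (by positivity)]
      exact mul_le_of_le_one_right (by positivity) (L_abs_le hg s)
    have hfW : f ∈ W φ (DD D) (fun _ => 0) := by
      refine ⟨?_, ?_⟩
      · apply norm_le_of
        intro g hg
        refine (hevle g hg).trans ?_
        rw [div_le_one hm1]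
        have : (0 : ℝ) ≤ m := by positivity
        linarith
      · intro j g hg hgs
        by_cases hjm : j < m
        · refine (hevle g hg).trans ?_
          apply one_div_le_one_div_of_le (by positivity)
          have : (j : ℝ) ≤ m := by exact_mod_cast hjm.le
          linarith
        · have : g s = 0 := by
            by_contra hne
            have h1 := (hgs s (Finsupp.mem_support_iff.2 hne)).2 x.1 (by
              show x.1 ∈ (Finset.range (j + 1)).biUnion (fun i => (D i).image Subtype.val)
              rw [Finset.mem_biUnion]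
              refine ⟨m, ?_, ?_⟩
              · rw [Finset.mem_range]; omega
              · rw [Finset.mem_image]
                exact ⟨x, hx, rfl⟩)
            exact h1 hsx
          rw [hev g hg, this, mul_zero, abs_zero]
          positivity
    have hL : L φ (Finsupp.single s 1) := L.base s 1 (by simp)
    have hfin := hEl m (co f) ⟨f, hsubK hfW, rfl⟩ (Finsupp.single s 1) hL (by
      intro t ht
      have : t = s := by
        have := Finsupp.support_single_subset ht
        simpa using this
      rw [this, hslen]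
      exact ⟨hn1, hsE⟩)
    rw [hev _ hL, Finsupp.single_eq_same, mul_one, abs_of_pos (by positivity)] at hfin
    rw [div_le_div_iff₀ (by positivity) (by positivity)] at hfin
    linarith

end Pool.Agent.Helper639.Tk
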